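import Pool.Agent.Lib.MP_df705a_gt.Coll.T.S3

/-!
# Continuity of traces and norms
-/

open scoped Manifold ContDiff Topology
open Set Bundle Module Filter MeasureTheory

noncomputable section

namespace Pool.Agent.Lib.MP_df705a_gt.Coll

open Pool.Agent.Lib.MP_df705a_gt.Twist Pool.Agent.Lib.MP_df705a_gt.Perm
open Pool.Agent.Lib.MP_df705a_gt.Circ (cf Para)

variable {E : Type*} [NormedAddCommGroup E] [NormedSpace ℝ E] [FiniteDimensional ℝ E]
  {M : Type*} [TopologicalSpace M] [ChartedSpace E M] [IsManifold 𝓘(ℝ, E) ∞ M]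

/-- Traces and norms of sums of Hessians and products of differentials are continuous. -/
theorem cont_rep {h : Met E M} {K : M → Matrix (Fin (finrank ℝ E)) (Fin (finrank ℝ E)) ℝ}
    {ι κ : Type} [Fintype ι] [Fintype κ] {s : ι → ℝ} {w : ι → M → ℝ} {a b : κ → M → ℝ}
    (hw : ∀ i, Sm E (w i)) (ha : ∀ j, Sm E (a j)) (hb : ∀ j, Sm E (b j))
    (hK : ∀ y, K y = ∑ i, s i • dd E (w i) (w i) y +
      ∑ j, ((2 * a j y) • hs h (b j) y + (2 : ℝ) • dd E (a j) (b j) y)) :
    (Continuous fun y => trM (cof h y) (K y)) ∧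
      Continuous fun y => ipM (cof h y) (K y) (K y) := by
  have hT : T.Ten E K := by
    have h1 : K = fun y => (∑ i, s i • dd E (w i) (w i) y) +
      ∑ j, ((2 * a j y) • hs h (b j) y + (2 : ℝ) • dd E (a j) (b j) y) := by
      funext y
      exact hK y
    rw [h1]
    refine T.Ten.add (T.Ten.sum _ fun i _ => ?_) (T.Ten.sum _ fun j _ => T.Ten.add ?_ ?_)
    · exact T.Ten.smul (T.ten_dd (hw i) (hw i)) (f := fun _ => s i) (sm_const _)
    · exact T.Ten.smul (T.ten_hs h (hb j)) (f := fun y => 2 * a j y) (sm_smul (ha j) 2)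
    · exact T.Ten.smul (T.ten_dd (ha j) (hb j)) (f := fun _ => (2 : ℝ)) (sm_const _)
  exact ⟨(T.Ten.tr h hT).continuous, (T.Ten.ip h hT hT).continuous⟩

end Pool.Agent.Lib.MP_df705a_gt.Coll
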