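import Pool.Agent.Lib.MP_df705a_gt.Coll.T.R5

/-!
# Module T, R6: metrics of positive scalar curvature near a scalar flat one
-/

open scoped Manifold ContDiff Topology
open Set Bundle Module Filter MeasureTheory

noncomputable section

set_option linter.unusedSectionVars false

namespace Pool.Agent.Lib.MP_df705a_gt.Coll.T

open Pool.Agent.Lib.MP_df705a_gt.Twist Pool.Agent.Lib.MP_df705a_gt.Perm
open Pool.Agent.Lib.MP_df705a_gt.Circ (cf Para)

variable {E : Type*} [NormedAddCommGroup E] [NormedSpace ℝ E] [FiniteDimensional ℝ E]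
  {M : Type*} [TopologicalSpace M] [ChartedSpace E M] [IsManifold 𝓘(ℝ, E) ∞ M]

/-- The quantity of the proof. -/
private def r6G (H : ℝ → Met E M) (f : M → ℝ) (t : ℝ) (y : M) : ℝ :=
  Scal (H t) y - 2 * ((finrank ℝ E : ℝ) - 1) * (t * Lap (H t) f y) -
    ((finrank ℝ E : ℝ) - 1) * ((finrank ℝ E : ℝ) - 2) * (t ^ 2 * Grd (H t) f f y)

private theorem r6_local {H : ℝ → Met E M}
    (hsm : ∀ (z : M), ∀ y ∈ (extChartAt 𝓘(ℝ, E) z).target, ∀ i j,
      ContDiffAt ℝ ∞ (fun p : ℝ × E => coeff (H p.1) z p.2 i j) (0, y))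
    (hS : ∀ y, Scal (H 0) y = 0) {D : M → ℝ}
    (hD : ∀ y, HasDerivAt (fun t => Scal (H t) y) (D y) 0) {f : M → ℝ} (hf : Sm E f)
    (hpos : ∀ y, 0 < D y - 2 * ((finrank ℝ E : ℝ) - 1) * Lap (H 0) f y) (z : M) :
    ∃ ε : ℝ, 0 < ε ∧ ∀ᶠ y in 𝓝 z, ∀ t, 0 < t → t < ε → 0 < r6G H f t y := by
  set x₀ : E := extChartAt 𝓘(ℝ, E) z z with hx₀
  have hx : x₀ ∈ (extChartAt 𝓘(ℝ, E) z).target := mem_extChartAt_target z
  have hnd : (coeff (H 0) z x₀).det ≠ 0 := g3_coeff_det (H 0) z hx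
  have hfr := g3_rd_smooth hf z hx
  have c1 := fam_scal (H := fun t => coeff (H t) z) (hsm z x₀ hx) hnd
  have c2 := fam_lapC (H := fun t => coeff (H t) z) (hsm z x₀ hx) hnd hfr
  have c3 := fam_gradC (H := fun t => coeff (H t) z) (hsm z x₀ hx) hnd hfr hfr
  set Φ : ℝ × E → ℝ := fun p => Curv.scal (coeff (H p.1) z) p.2 -
    2 * ((finrank ℝ E : ℝ) - 1) * (p.1 * lapC (coeff (H p.1) z) (rd E z f) p.2) -
    ((finrank ℝ E : ℝ) - 1) * ((finrank ℝ E : ℝ) - 2) *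
      (p.1 ^ 2 * gradC (coeff (H p.1) z) (rd E z f) (rd E z f) p.2) with hΦ
  have hc : ContDiffAt ℝ ∞ Φ (0, x₀) := by
    have hfst : ContDiffAt ℝ ∞ (fun p : ℝ × E => p.1) (0, x₀) := contDiffAt_fst
    exact (c1.sub (contDiffAt_const.mul (hfst.mul c2))).sub
      (contDiffAt_const.mul ((hfst.pow 2).mul c3))
  have h0 : ∀ᶠ x in 𝓝 x₀, Φ (0, x) = 0 := by
    filter_upwards [(isOpen_extChartAt_target z).mem_nhds hx] with x hx'
    simp only [hΦ]
    rw [scal_chart (H 0) z hx', hS]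
    ring
  have hline : ContDiffAt ℝ ∞ (fun t : ℝ => (t, x₀)) 0 := contDiffAt_id.prodMk contDiffAt_const
  have hd : 0 < deriv (fun t => Φ (t, x₀)) 0 := by
    have d2 : DifferentiableAt ℝ (fun t => lapC (coeff (H t) z) (rd E z f) x₀) 0 :=
      (ContDiffAt.comp (n := ∞) (0 : ℝ) (g := fun p : ℝ × E =>
        lapC (coeff (H p.1) z) (rd E z f) p.2) (f := fun t : ℝ => (t, x₀)) c2 hline).differentiableAt
        (by simp)
    have d3 : DifferentiableAt ℝ (fun t => gradC (coeff (H t) z) (rd E z f) (rd E z f) x₀) 0 :=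
      (ContDiffAt.comp (n := ∞) (0 : ℝ) (g := fun p : ℝ × E =>
        gradC (coeff (H p.1) z) (rd E z f) (rd E z f) p.2) (f := fun t : ℝ => (t, x₀)) c3
        hline).differentiableAt (by simp)
    have e1 := hD z
    have e2 := (hasDerivAt_id (0 : ℝ)).mul d2.hasDerivAt
    have e3 := ((hasDerivAt_id (0 : ℝ)).pow 2).mul d3.hasDerivAt
    have e4 := (e1.sub (e2.const_mul (2 * ((finrank ℝ E : ℝ) - 1)))).sub
      (e3.const_mul (((finrank ℝ E : ℝ) - 1) * ((finrank ℝ E : ℝ) - 2)))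
    have e5 : deriv (fun t => Φ (t, x₀)) 0 = _ := HasDerivAt.deriv (f := fun t => Φ (t, x₀)) e4
    rw [e5]
    have e6 : lapC (coeff (H 0) z) (rd E z f) x₀ = Lap (H 0) f z := rfl
    have e7 := hpos z
    simp only [id_eq, one_mul, zero_mul, add_zero, Nat.cast_ofNat, mul_zero, e6,
      Nat.add_one_sub_one, pow_one]
    simpa using e7
  obtain ⟨ε, hε, hev⟩ := pos_of_deriv hc h0 hd
  refine ⟨ε, hε, ?_⟩
  filter_upwards [(continuousAt_extChartAt (I := 𝓘(ℝ, E)) z).eventually hev,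
    extChartAt_source_mem_nhds (I := 𝓘(ℝ, E)) z] with y hy hys t ht ht'
  have h1 := hy t ht ht'
  have hyt := (extChartAt 𝓘(ℝ, E) z).map_source hys
  simp only [hΦ] at h1
  rw [scal_chart (H t) z hyt, lap_chart (H t) hf z hyt, grd_chart (H t) hf hf z hyt,
    (extChartAt 𝓘(ℝ, E) z).left_inv hys] at h1
  exact h1

/-- `G t y = Scal (H t) y - 2 (n-1) t Lap (H t) f y - (n-1)(n-2) t² Grd (H t) f f y` is, in the chart
at `z` (`scal_chart`, `lap_chart`, `grd_chart`), a function as in `pos_of_deriv` (`fam_scal`, ...);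
compactness of `M`: `0 < G t y` for all `y` and some `t > 0`; `exists_conf` and `IsConf.scal` with
`ψ = t f`; `lap_smul`. -/
theorem exists_psc [CompactSpace M] [T2Space M] {H : ℝ → Met E M}
    (hsm : ∀ (z : M), ∀ y ∈ (extChartAt 𝓘(ℝ, E) z).target, ∀ i j,
      ContDiffAt ℝ ∞ (fun p : ℝ × E => coeff (H p.1) z p.2 i j) (0, y))
    (hS : ∀ y, Scal (H 0) y = 0) {D : M → ℝ}
    (hD : ∀ y, HasDerivAt (fun t => Scal (H t) y) (D y) 0) {f : M → ℝ} (hf : Sm E f)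
    (hpos : ∀ y, 0 < D y - 2 * ((finrank ℝ E : ℝ) - 1) * Lap (H 0) f y) :
    ∃ h' : Met E M, PosScal h' := by
  have hglob : ∃ ε : ℝ, 0 < ε ∧ ∀ y ∈ (univ : Set M), ∀ t, 0 < t → t < ε → 0 < r6G H f t y := by
    refine isCompact_univ.induction_on
      (p := fun s : Set M => ∃ ε : ℝ, 0 < ε ∧ ∀ y ∈ s, ∀ t, 0 < t → t < ε → 0 < r6G H f t y)
      ⟨1, one_pos, fun y hy => absurd hy (notMem_empty y)⟩ ?_ ?_ ?_
    · rintro s t hst ⟨ε, hε, h1⟩
      exact ⟨ε, hε, fun y hy => h1 y (hst hy)⟩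
    · rintro s t ⟨ε, hε, h1⟩ ⟨ε', hε', h2⟩
      refine ⟨min ε ε', lt_min hε hε', fun y hy r hr hr' => ?_⟩
      rcases hy with hy | hy
      · exact h1 y hy r hr (lt_of_lt_of_le hr' (min_le_left _ _))
      · exact h2 y hy r hr (lt_of_lt_of_le hr' (min_le_right _ _))
    · intro z _
      obtain ⟨ε, hε, h1⟩ := r6_local hsm hS hD hf hpos z
      exact ⟨_, mem_nhdsWithin_of_mem_nhds h1, ε, hε, fun y hy => hy⟩
  obtain ⟨ε, hε, hG⟩ := hglob
  have hψ : Sm E (fun x => ε / 2 * f x) := sm_smul hf (ε / 2)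
  obtain ⟨g', hg'⟩ := exists_conf (H (ε / 2)) hψ
  refine ⟨g', fun z y hy => ?_⟩
  rw [scal_chart g' z hy, hg'.scal hψ]
  refine mul_pos (Real.exp_pos _) ?_
  set p : M := (extChartAt 𝓘(ℝ, E) z).symm y
  have h1 := hG p (mem_univ p) (ε / 2) (by linarith) (by linarith)
  have h2 : Lap (H (ε / 2)) (fun x => ε / 2 * f x) p = ε / 2 * Lap (H (ε / 2)) f p :=
    lap_smul _ hf _ _
  have h3 : Grd (H (ε / 2)) (fun x => ε / 2 * f x) (fun x => ε / 2 * f x) p =
      (ε / 2) ^ 2 * Grd (H (ε / 2)) f f p := by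
    have h4 := grd_comp (H (ε / 2)) hf (φ := fun s => ε / 2 * s)
      (fun x => (contDiff_const.mul contDiff_id).contDiffAt) p
    rw [h4]
    simp
  unfold r6G at h1
  rw [h2, h3]
  linarith

end Pool.Agent.Lib.MP_df705a_gt.Coll.T
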