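import Pool.Agent.Lib.MP_df705a_gt.Mg.G063

/-!
# Module T, B3: traces on a manifold
-/

open scoped Manifold ContDiff Topology
open Set Bundle Module Filter MeasureTheory

noncomputable section

set_option linter.unusedSectionVars false

namespace Pool.Agent.Lib.MP_df705a_gt.Coll.T

open Pool.Agent.Lib.MP_df705a_gt.Twist Pool.Agent.Lib.MP_df705a_gt.Perm
open Pool.Agent.Lib.MP_df705a_gt.Circ (cf Para)

variable {E : Type*} [NormedAddCommGroup E] [NormedSpace ℝ E] [FiniteDimensional ℝ E]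
  {M : Type*} [TopologicalSpace M] [ChartedSpace E M] [IsManifold 𝓘(ℝ, E) ∞ M]
  {h : Met E M} {u v : M → ℝ}

theorem cof_posDef (h : Met E M) (y : M) : (cof h y).PosDef :=
  chartMetric_posDef 𝓘(ℝ, E) (finBasis ℝ E) h y (mem_extChartAt_target y)

theorem cof_symm (h : Met E M) (y : M) (i j) : cof h y i j = cof h y j i :=
  chartMetric_symm 𝓘(ℝ, E) (finBasis ℝ E) h y _ i j

private theorem B3_inv_symm (h : Met E M) (y : M) (i j) :
    (cof h y)⁻¹ i j = (cof h y)⁻¹ j i := by
  have h1 : (cof h y).transpose = cof h y := by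
    ext a b
    exact cof_symm h y b a
  have h2 : ((cof h y)⁻¹).transpose = (cof h y)⁻¹ := by
    rw [Matrix.transpose_nonsing_inv, h1]
  have h3 := congrFun (congrFun h2 i) j
  rw [Matrix.transpose_apply] at h3
  exact h3.symm

theorem trM_hs (y : M) : trM (cof h y) (hs h u y) = Lap h u y := rfl

theorem trM_dd (y : M) : trM (cof h y) (dd E u v y) = Grd h u v y := by
  have h1 : trM (cof h y) (dd E u v y) =
      (∑ i, ∑ j, (cof h y)⁻¹ i j * (pdv E u y i * pdv E v y j) +
        ∑ i, ∑ j, (cof h y)⁻¹ i j * (pdv E u y j * pdv E v y i)) / 2 := by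
    unfold trM dd
    rw [← Finset.sum_add_distrib, Finset.sum_div]
    refine Finset.sum_congr rfl fun i _ => ?_
    rw [← Finset.sum_add_distrib, Finset.sum_div]
    refine Finset.sum_congr rfl fun j _ => ?_
    ring
  have h2 : ∑ i, ∑ j, (cof h y)⁻¹ i j * (pdv E u y j * pdv E v y i) =
      ∑ i, ∑ j, (cof h y)⁻¹ i j * (pdv E u y i * pdv E v y j) := by
    rw [Finset.sum_comm]
    refine Finset.sum_congr rfl fun i _ => Finset.sum_congr rfl fun j _ => ?_
    rw [B3_inv_symm h y j i]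
  have h3 : Grd h u v y = ∑ i, ∑ j, (cof h y)⁻¹ i j * (pdv E u y i * pdv E v y j) := rfl
  rw [h1, h2, h3]
  ring

/-- `ipM_metric`. -/
theorem rc_einstein {lam : ℝ} {y : M}
    (hE : ric (coeff h y) (extChartAt 𝓘(ℝ, E) y y) = lam • cof h y) :
    Rc h u v y = lam * Grd h u v y := by
  unfold Rc
  rw [hE, ipM_smul_left, ipM_metric (cof_symm h y) (cof_posDef h y).det_pos.ne', trM_dd]

end Pool.Agent.Lib.MP_df705a_gt.Coll.T
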