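import Pool.Agent.Lib.MP_df705a_gt.Coll.T.S2

/-!
# Module T, S3: smooth tensor fields: scalar products
-/

open scoped Manifold ContDiff Topology
open Set Bundle Module Filter MeasureTheory

noncomputable section

set_option linter.unusedSectionVars false

namespace Pool.Agent.Lib.MP_df705a_gt.Coll.T

open Pool.Agent.Lib.MP_df705a_gt.Twist Pool.Agent.Lib.MP_df705a_gt.Perm
open Pool.Agent.Lib.MP_df705a_gt.Circ (cf Para)

variable {E : Type*} [NormedAddCommGroup E] [NormedSpace ℝ E] [FiniteDimensional ℝ E]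
  {M : Type*} [TopologicalSpace M] [ChartedSpace E M] [IsManifold 𝓘(ℝ, E) ∞ M]

variable {K K' : M → Matrix (Fin (finrank ℝ E)) (Fin (finrank ℝ E)) ℝ}

private theorem S3_of_chart {Q : M → ℝ}
    (hQ : ∀ z : M, ∃ C : E → ℝ, ∀ y ∈ (extChartAt 𝓘(ℝ, E) z).target,
      C y = Q ((extChartAt 𝓘(ℝ, E) z).symm y) ∧ ContDiffAt ℝ ∞ C y) :
    Sm E Q := by
  intro p
  obtain ⟨C, hC⟩ := hQ p
  have ht : extChartAt 𝓘(ℝ, E) p p ∈ (extChartAt 𝓘(ℝ, E) p).target := mem_extChartAt_target p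
  have h1 : ContMDiffAt 𝓘(ℝ, E) 𝓘(ℝ, ℝ) ∞ (fun x => C (extChartAt 𝓘(ℝ, E) p x)) p :=
    ContMDiffAt.comp (g := C) (f := fun x => extChartAt 𝓘(ℝ, E) p x) p
      (hC _ ht).2.contMDiffAt (contMDiffAt_extChartAt (x := p))
  refine h1.congr_of_eventuallyEq ?_
  filter_upwards [extChartAt_source_mem_nhds (I := 𝓘(ℝ, E)) p] with x hx
  rw [(hC _ ((extChartAt 𝓘(ℝ, E) p).map_source hx)).1, (extChartAt 𝓘(ℝ, E) p).left_inv hx]

/-- In the chart at `z` the function is `y ↦ ipM (coeff h z y) (C y) (C' y)` (`ipM_conj`,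
`coeff_chg`, `chg_det`), which is smooth (`contDiffAt_inv`); see `Circ/SmGrd.lean`. -/
theorem Ten.ip (h : Met E M) (hK : Ten E K) (hK' : Ten E K') :
    Sm E (fun y => ipM (cof h y) (K y) (K' y)) := by
  refine S3_of_chart fun z => ?_
  obtain ⟨C, hC⟩ := hK z
  obtain ⟨C', hC'⟩ := hK' z
  refine ⟨fun y => ipM (coeff h z y) (C y) (C' y), fun y hy => ⟨?_, ?_⟩⟩
  · change ipM (coeff h z y) (C y) (C' y) = _
    rw [coeff_chg h z hy, (hC y hy).2, (hC' y hy).2, ipM_conj (chg_det z hy)]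
  · have hi := contDiffAt_inv (g3_coeff_smooth h z hy) (g3_coeff_det h z hy)
    refine ContDiffAt.sum fun i _ => ContDiffAt.sum fun j _ => ContDiffAt.sum fun a _ =>
      ContDiffAt.sum fun b _ => ?_
    exact ((hi i a).mul (hi j b)).mul (((hC y hy).1 i j).mul ((hC' y hy).1 a b))

theorem Ten.tr (h : Met E M) (hK : Ten E K) : Sm E (fun y => trM (cof h y) (K y)) := by
  refine S3_of_chart fun z => ?_
  obtain ⟨C, hC⟩ := hK z
  refine ⟨fun y => trM (coeff h z y) (C y), fun y hy => ⟨?_, ?_⟩⟩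
  · change trM (coeff h z y) (C y) = _
    rw [coeff_chg h z hy, (hC y hy).2, trM_conj (chg_det z hy)]
  · have hi := contDiffAt_inv (g3_coeff_smooth h z hy) (g3_coeff_det h z hy)
    refine ContDiffAt.sum fun i _ => ContDiffAt.sum fun j _ => ?_
    exact (hi i j).mul ((hC y hy).1 i j)

theorem sm_rc (h : Met E M) {u v : M → ℝ} (hu : Sm E u) (hv : Sm E v) : Sm E (Rc h u v) :=
  Ten.ip h (ten_ric h) (ten_dd hu hv)

end Pool.Agent.Lib.MP_df705a_gt.Coll.T
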