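import Pool.Agent.Lib.MP_df705a_gt.Coll.T.R7
import Pool.Agent.Lib.MP_df705a_gt.Coll.T.S3
import Pool.Agent.Lib.MP_df705a_gt.Coll.T.B3

/-!
# Module T, R8: the test tensor
-/

open scoped Manifold ContDiff Topology
open Set Bundle Module Filter MeasureTheory

noncomputable section

set_option linter.unusedSectionVars false

namespace Pool.Agent.Lib.MP_df705a_gt.Coll.T

open Pool.Agent.Lib.MP_df705a_gt.Twist Pool.Agent.Lib.MP_df705a_gt.Perm
open Pool.Agent.Lib.MP_df705a_gt.Circ (cf Para)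

variable {E : Type*} [NormedAddCommGroup E] [NormedSpace ℝ E] [FiniteDimensional ℝ E]
  {M : Type*} [TopologicalSpace M] [ChartedSpace E M] [IsManifold 𝓘(ℝ, E) ∞ M]
  [MeasurableSpace E] [BorelSpace E] [MeasurableSpace M] [BorelSpace M]
  [CompactSpace M] [T2Space M]
  {h : Met E M} {μ : Measure M}

/-- `exists_rc_ne`, `exists_bump` for `R = Rc h w w` (`sm_rc`), `mul_dd` for `C` and `w`: with
the four functions and coefficients of `mul_dd`, `∑ a, s a * Rc h (w a) (w a) p = C p * Rc h w w p`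
(linearity of `ipM`), so `∫ ∑ s DS = -∫ C Rc(w,w) > 0` (`int_ds`, `IsRVol.pos`). -/
theorem exists_test [Nonempty M] (hμ : IsRVol h μ) {y : M}
    (hr : ric (coeff h y) (extChartAt 𝓘(ℝ, E) y y) ≠ 0) :
    ∃ (s : Fin 4 → ℝ) (w : Fin 4 → M → ℝ), (∀ a, Sm E (w a)) ∧
      0 < ∫ p, ∑ a, s a * DS h (w a) p ∂μ := by
  obtain ⟨w, hw, hy⟩ := exists_rc_ne hr
  obtain ⟨C, hC, hC1, hC2⟩ := exists_bump (E := E) (sm_rc h hw hw).continuous hy
  set W : Fin 4 → M → ℝ := ![fun p => w p + C p * w p, fun p => w p - C p * w p,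
    fun p => C p + w p * w p, fun p => C p - w p * w p] with hW
  set s : Fin 4 → ℝ := ![1 / 4, -1 / 4, -1 / 8, 1 / 8] with hs
  have hsm : ∀ a, Sm E (W a) := by
    intro a
    have h1 := sm_mul hC hw
    have h2 := sm_mul hw hw
    fin_cases a
    · exact sm_add hw h1
    · exact sm_sub hw h1
    · exact sm_add hC h2
    · exact sm_sub hC h2
  refine ⟨s, W, hsm, ?_⟩
  have key : ∀ p, ∑ a, s a * Rc h (W a) (W a) p = C p * Rc h w w p := by
    intro p
    have hsy := cof_symm h p
    have h1 : ∀ (u v : M → ℝ), Rc h u v p =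
        ipM (cof h p) (dd E u v p) (ric (coeff h p) (extChartAt 𝓘(ℝ, E) p p)) := by
      intro u v
      exact ipM_comm hsy _ _
    simp only [h1]
    have h2 : ∑ a, s a * ipM (cof h p) (dd E (W a) (W a) p)
        (ric (coeff h p) (extChartAt 𝓘(ℝ, E) p p)) =
        ipM (cof h p) (∑ a, s a • dd E (W a) (W a) p)
          (ric (coeff h p) (extChartAt 𝓘(ℝ, E) p p)) := by
      rw [ipM_sum_left]
      refine Finset.sum_congr rfl fun a _ => ?_
      rw [ipM_smul_left]
    have h3 : ∑ a, s a • dd E (W a) (W a) p = C p • dd E w w p := by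
      rw [mul_dd hC hw p, Fin.sum_univ_four]
      rfl
    rw [h2, h3, ipM_smul_left]
  have hds : ∀ a, Integrable (fun p => s a * DS h (W a) p) μ := fun a =>
    (integrable_sm hμ (sm_ds (hsm a) (sm_rc h (hsm a) (hsm a)))).const_mul _
  have hrc : ∀ a, Integrable (fun p => s a * Rc h (W a) (W a) p) μ := fun a =>
    (integrable_sm hμ (sm_rc h (hsm a) (hsm a))).const_mul _
  have h4 : ∫ p, ∑ a, s a * DS h (W a) p ∂μ = -∫ p, C p * Rc h w w p ∂μ := by
    simp only [← key]
    rw [integral_finsetSum _ fun a _ => hds a, integral_finsetSum _ fun a _ => hrc a,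
      ← Finset.sum_neg_distrib]
    refine Finset.sum_congr rfl fun a _ => ?_
    rw [integral_const_mul, integral_const_mul, int_ds hμ (hsm a) (sm_rc h (hsm a) (hsm a))]
    ring
  rw [h4, ← integral_neg]
  have h5 : Continuous fun p => -(C p * Rc h w w p) :=
    (hC.continuous.mul (sm_rc h hw hw).continuous).neg
  exact hμ.pos h5 (fun p => by linarith [hC1 p]) (p := y) (by linarith)

end Pool.Agent.Lib.MP_df705a_gt.Coll.T
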