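import Pool.Agent.Lib.MP_df705a_gt.Coll.T.S1
import Pool.Agent.Lib.MP_df705a_gt.Mg.G059

/-!
# Module T, R9: the Ricci curvature in a parametrization
-/

open scoped Manifold ContDiff Topology
open Set Bundle Module Filter MeasureTheory

noncomputable section

set_option linter.unusedSectionVars false

namespace Pool.Agent.Lib.MP_df705a_gt.Coll.T

open Pool.Agent.Lib.MP_df705a_gt.Twist Pool.Agent.Lib.MP_df705a_gt.Perm
open Pool.Agent.Lib.MP_df705a_gt.Circ (cf Para)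

variable {E : Type*} [NormedAddCommGroup E] [NormedSpace ℝ E] [FiniteDimensional ℝ E]
  {M : Type*} [TopologicalSpace M] [ChartedSpace E M] [IsManifold 𝓘(ℝ, E) ∞ M]

namespace R9Aux

variable {E' : Type*} [NormedAddCommGroup E'] [NormedSpace ℝ E'] [FiniteDimensional ℝ E']

/-- The Ricci curvature of the coefficients transported by a linear equivalence. -/
theorem ric_tr (𝓛 : E' ≃L[ℝ] E) (σ : Fin (finrank ℝ E') ≃ Fin (finrank ℝ E))
    (h𝓛 : ∀ i, 𝓛 (finBasis ℝ E' i) = finBasis ℝ E (σ i)) (C : Curv.Coeff E) (x : E')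
    (j k : Fin (finrank ℝ E')) :
    ric (Circ.CS.tr 𝓛 σ C) x j k = ric C (𝓛 x) (σ j) (σ k) := by
  unfold ric
  have h1 : (Circ.CS.tr 𝓛 σ C x)⁻¹ = ((C (𝓛 x))⁻¹).submatrix σ σ := by
    unfold Circ.CS.tr
    rw [Matrix.inv_submatrix_equiv]
  simp only [Circ.CS.riemann_tr 𝓛 σ h𝓛, h1, Matrix.submatrix_apply]
  rw [← Equiv.sum_comp σ]
  refine Finset.sum_congr rfl fun i _ => ?_
  rw [← Equiv.sum_comp σ]

theorem pull_ric {C' : Curv.Coeff E'} {C : Curv.Coeff E} {τ : E' → E} {y : E'}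
    (P : Circ.PullAt C' C τ y) (h0 : ric C (τ y) = 0) : ric C' y = 0 := by
  have hfr : finrank ℝ E' = finrank ℝ E :=
    (LinearEquiv.ofBijective ((fderiv ℝ τ y : E' →L[ℝ] E) : E' →ₗ[ℝ] E) P.bij).finrank_eq
  set σ : Fin (finrank ℝ E') ≃ Fin (finrank ℝ E) := finCongr hfr with hσ
  set 𝓛 : E' ≃L[ℝ] E :=
    ((finBasis ℝ E').equiv (finBasis ℝ E) σ).toContinuousLinearEquiv with h𝓛def
  have h𝓛 : ∀ i, 𝓛 (finBasis ℝ E' i) = finBasis ℝ E (σ i) := fun i =>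
    (finBasis ℝ E').equiv_apply i (finBasis ℝ E) σ
  have h𝓛' : ∀ i, 𝓛.symm (finBasis ℝ E i) = finBasis ℝ E' (σ.symm i) := by
    intro i
    rw [ContinuousLinearEquiv.symm_apply_eq, h𝓛, Equiv.apply_symm_apply]
  set C1 : Curv.Coeff E := fun x => (C' (𝓛.symm x)).submatrix σ.symm σ.symm with hC1
  have hC' : C' = Circ.CS.tr 𝓛 σ C1 := by
    funext x
    ext i j
    simp [Circ.CS.tr, hC1]
  have hs0 : (τ ∘ 𝓛.symm) (𝓛 y) = τ y := by simp
  have hsm : ContDiffAt ℝ ∞ (τ ∘ 𝓛.symm) (𝓛 y) := by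
    have h1 : ContDiffAt ℝ ∞ τ (𝓛.symm (𝓛 y)) := by
      rw [ContinuousLinearEquiv.symm_apply_apply]
      exact P.smooth
    exact h1.comp (𝓛 y) 𝓛.symm.contDiff.contDiffAt
  have hfd : ∀ x, fderiv ℝ (τ ∘ 𝓛.symm) x =
      (fderiv ℝ τ (𝓛.symm x)).comp (𝓛.symm : E →L[ℝ] E') := fun x =>
    ContinuousLinearEquiv.comp_right_fderiv 𝓛.symm
  have hdet : (fderiv ℝ (τ ∘ 𝓛.symm) (𝓛 y)).det ≠ 0 := by
    rw [hfd, ContinuousLinearEquiv.symm_apply_apply]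
    have hb : Function.Bijective (((fderiv ℝ τ y).comp (𝓛.symm : E →L[ℝ] E') : E →L[ℝ] E) :
        E →ₗ[ℝ] E) := P.bij.comp 𝓛.symm.bijective
    have h2 := (LinearEquiv.ofBijective _ hb).isUnit_det'
    exact h2.ne_zero
  have h1 : ric C1 (𝓛 y) = (mat (fderiv ℝ (τ ∘ 𝓛.symm) (𝓛 y))).transpose *
      ric C ((τ ∘ 𝓛.symm) (𝓛 y)) * mat (fderiv ℝ (τ ∘ 𝓛.symm) (𝓛 y)) := by
    apply ric_pull hsm hdet
    · rw [hs0]; exact P.c_smooth
    · rw [hs0]; exact P.c_symm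
    · rw [hs0]; exact P.c_det
    · have h3 : Tendsto 𝓛.symm (𝓝 (𝓛 y)) (𝓝 y) := by
        have := 𝓛.symm.continuous.tendsto (𝓛 y)
        rwa [ContinuousLinearEquiv.symm_apply_apply] at this
      filter_upwards [h3.eventually P.law] with x hx
      ext i j
      unfold mat
      rw [Circ.CS.mB_eq_matrix, hfd]
      change C' (𝓛.symm x) (σ.symm i) (σ.symm j) = _
      rw [hx]
      simp only [ContinuousLinearMap.comp_apply, Function.comp_apply]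
      change _ = Sub.mB (C (τ (𝓛.symm x))) (fderiv ℝ τ (𝓛.symm x) (𝓛.symm (finBasis ℝ E i)))
        (fderiv ℝ τ (𝓛.symm x) (𝓛.symm (finBasis ℝ E j)))
      rw [h𝓛', h𝓛']
  rw [hs0, h0, Matrix.mul_zero, Matrix.zero_mul] at h1
  rw [hC']
  ext j k
  rw [ric_tr 𝓛 σ h𝓛, h1]
  rfl

end R9Aux

/-- As `scal_cf` (Circ/ParaInv.lean: `I2.pullAt`) and `PullAt.scal` (Circ/CrossScal.lean: reduce to
`E' = E` with `riemann_tr`, then `ric_pull`). -/
theorem ric_cf {h : Met E M} {E' : Type*} [NormedAddCommGroup E'] [NormedSpace ℝ E']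
    [FiniteDimensional ℝ E'] {σ : E' → M} {q : E'} (hσ : Para E σ q)
    (hr : ric (coeff h (σ q)) (extChartAt 𝓘(ℝ, E) (σ q) (σ q)) = 0) : ric (cf h σ) q = 0 :=
  R9Aux.pull_ric (Circ.I2.pullAt h hσ) hr

end Pool.Agent.Lib.MP_df705a_gt.Coll.T
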