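import Pool.Agent.Lib.MP_df705a_gt.Mg.G059

/-!
# Module T, S1: smooth tensor fields
-/

open scoped Manifold ContDiff Topology
open Set Bundle Module Filter MeasureTheory

noncomputable section

set_option linter.unusedSectionVars false

namespace Pool.Agent.Lib.MP_df705a_gt.Coll.T

open Pool.Agent.Lib.MP_df705a_gt.Twist Pool.Agent.Lib.MP_df705a_gt.Perm
open Pool.Agent.Lib.MP_df705a_gt.Circ (cf Para)

variable {E : Type*} [NormedAddCommGroup E] [NormedSpace ℝ E] [FiniteDimensional ℝ E]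
  {M : Type*} [TopologicalSpace M] [ChartedSpace E M] [IsManifold 𝓘(ℝ, E) ∞ M]

variable {K K' : M → Matrix (Fin (finrank ℝ E)) (Fin (finrank ℝ E)) ℝ}

theorem Ten.add (hK : Ten E K) (hK' : Ten E K') : Ten E (fun y => K y + K' y) := by
  intro z
  obtain ⟨C, hC⟩ := hK z
  obtain ⟨C', hC'⟩ := hK' z
  refine ⟨fun y => C y + C' y, fun y hy => ⟨fun i j => ?_, ?_⟩⟩
  · exact ((hC y hy).1 i j).add ((hC' y hy).1 i j)
  · change C y + C' y = (chg E z y).transpose * (K _ + K' _) * chg E z y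
    rw [(hC y hy).2, (hC' y hy).2, Matrix.mul_add, Matrix.add_mul]

theorem Ten.smul (hK : Ten E K) {f : M → ℝ} (hf : Sm E f) : Ten E (fun y => f y • K y) := by
  intro z
  obtain ⟨C, hC⟩ := hK z
  refine ⟨fun y => rd E z f y • C y, fun y hy => ⟨fun i j => ?_, ?_⟩⟩
  · exact (g3_rd_smooth hf z hy).mul ((hC y hy).1 i j)
  · change rd E z f y • C y = (chg E z y).transpose * (f _ • K _) * chg E z y
    rw [(hC y hy).2, Matrix.mul_smul, Matrix.smul_mul]
    rfl

theorem Ten.sum {ι : Type*} (s : Finset ι)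
    {K : ι → M → Matrix (Fin (finrank ℝ E)) (Fin (finrank ℝ E)) ℝ} (hK : ∀ a ∈ s, Ten E (K a)) :
    Ten E (fun y => ∑ a ∈ s, K a y) := by
  classical
  induction s using Finset.induction_on with
  | empty =>
    intro z
    refine ⟨fun _ => 0, fun y _ => ⟨fun i j => contDiffAt_const, ?_⟩⟩
    simp
  | insert a s ha ih =>
    have h1 := ih (fun b hb => hK b (Finset.mem_insert_of_mem hb))
    have h2 := (hK a (Finset.mem_insert_self _ _)).add h1
    simp only [Finset.sum_insert ha]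
    exact h2

/-- `det_trans_ne_zero`, `det_mat`. -/
theorem chg_det (z : M) {y : E} (hy : y ∈ (extChartAt 𝓘(ℝ, E) z).target) :
    (chg E z y).det ≠ 0 := by
  have hd := g3_mem_dom (I := 𝓘(ℝ, E)) hy
  have h1 := det_trans_ne_zero 𝓘(ℝ, E) hd
  unfold chg mat
  rw [LinearMap.det_toMatrix]
  exact h1

/-- `g3_law` (Perm/Chart.lean). -/
theorem coeff_chg (h : Met E M) (z : M) {y : E} (hy : y ∈ (extChartAt 𝓘(ℝ, E) z).target) :
    coeff h z y = (chg E z y).transpose * cof h ((extChartAt 𝓘(ℝ, E) z).symm y) * chg E z y := by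
  have hd := g3_mem_dom (I := 𝓘(ℝ, E)) hy
  exact (g3_law h hd).self_of_nhds

end Pool.Agent.Lib.MP_df705a_gt.Coll.T
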