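import Pool.Agent.Lib.MP_df705a_gt.Mg.G061
import Pool.Agent.Lib.MP_df705a_gt.Mg.G059
import Pool.Agent.Lib.MP_df705a_gt.Coll.T.S1

/-!
# Module T, S2: smooth tensor fields: examples
-/

open scoped Manifold ContDiff Topology
open Set Bundle Module Filter MeasureTheory

noncomputable section

set_option linter.unusedSectionVars false

namespace Pool.Agent.Lib.MP_df705a_gt.Coll.T

open Pool.Agent.Lib.MP_df705a_gt.Twist Pool.Agent.Lib.MP_df705a_gt.Perm
open Pool.Agent.Lib.MP_df705a_gt.Circ (cf Para)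

variable {E : Type*} [NormedAddCommGroup E] [NormedSpace ℝ E] [FiniteDimensional ℝ E]
  {M : Type*} [TopologicalSpace M] [ChartedSpace E M] [IsManifold 𝓘(ℝ, E) ∞ M]

/-- `ddC_pull` for `trans`, `g3_rd_trans`. -/
theorem ddC_chart {u v : M → ℝ} (hu : Sm E u) (hv : Sm E v) (z : M) {y : E}
    (hy : y ∈ (extChartAt 𝓘(ℝ, E) z).target) :
    ddC (rd E z u) (rd E z v) y =
      (chg E z y).transpose * dd E u v ((extChartAt 𝓘(ℝ, E) z).symm y) * chg E z y := by
  have hd := g3_mem_dom (I := 𝓘(ℝ, E)) hy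
  have ht := trans_mem_target 𝓘(ℝ, E) hd
  have h1 : ddC (rd E z u) (rd E z v) y =
      ddC (rd E ((extChartAt 𝓘(ℝ, E) z).symm y) u ∘
          trans 𝓘(ℝ, E) ((extChartAt 𝓘(ℝ, E) z).symm y) z)
        (rd E ((extChartAt 𝓘(ℝ, E) z).symm y) v ∘
          trans 𝓘(ℝ, E) ((extChartAt 𝓘(ℝ, E) z).symm y) z) y := by
    funext i j
    unfold ddC
    rw [g3_pd_congr (g3_rd_trans u hd) i, g3_pd_congr (g3_rd_trans u hd) j,
      g3_pd_congr (g3_rd_trans v hd) i, g3_pd_congr (g3_rd_trans v hd) j]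
  rw [h1, ddC_pull (trans_differentiableAt 𝓘(ℝ, E) hd)
    ((g3_rd_smooth hu _ ht).differentiableAt (by norm_num))
    ((g3_rd_smooth hv _ ht).differentiableAt (by norm_num))]
  rfl

theorem ten_dd {u v : M → ℝ} (hu : Sm E u) (hv : Sm E v) : Ten E (dd E u v) := by
  intro z
  refine ⟨fun y => ddC (rd E z u) (rd E z v) y, fun y hy => ⟨fun i j => ?_, ddC_chart hu hv z hy⟩⟩
  have h1 := g3_rd_smooth hu z hy
  have h2 := g3_rd_smooth hv z hy
  exact (((g3_pd_smooth h1 i).mul (g3_pd_smooth h2 j)).add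
    ((g3_pd_smooth h1 j).mul (g3_pd_smooth h2 i))).div_const 2

theorem ten_hs (h : Met E M) {u : M → ℝ} (hu : Sm E u) : Ten E (hs h u) := by
  intro z
  refine ⟨fun y => Curv.covHess (coeff h z) (rd E z u) y, fun y hy => ⟨fun i j => ?_, ?_⟩⟩
  · have hF := g3_rd_smooth hu z hy
    have hh := g3_coeff_smooth h z hy
    refine (g3_pd_smooth (g3_pd_smooth hF j) i).sub ?_
    refine ContDiffAt.sum fun p _ => ContDiffAt.sum fun q _ => ?_
    exact ((contDiffAt_inv hh (g3_coeff_det h z hy) p q).mul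
      (g3_christoffel_smooth hh i j p)).mul (g3_pd_smooth hF q)
  · have hd := g3_mem_dom (I := 𝓘(ℝ, E)) hy
    have ht := trans_mem_target 𝓘(ℝ, E) hd
    have hFG := g3_rd_trans u hd
    have h1 : ∀ j, Curv.pd j (rd E z u) =ᶠ[𝓝 y]
        Curv.pd j (rd E ((extChartAt 𝓘(ℝ, E) z).symm y) u ∘
          trans 𝓘(ℝ, E) ((extChartAt 𝓘(ℝ, E) z).symm y) z) := by
      intro j
      filter_upwards [hFG.eventuallyEq_nhds] with x hx
      exact g3_pd_congr hx j
    have h2 : Curv.covHess (coeff h z) (rd E z u) y =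
        Curv.covHess (coeff h z) (rd E ((extChartAt 𝓘(ℝ, E) z).symm y) u ∘
          trans 𝓘(ℝ, E) ((extChartAt 𝓘(ℝ, E) z).symm y) z) y := by
      funext i j
      unfold Curv.covHess
      simp only [g3_pd_congr hFG, g3_pd_congr (h1 _)]
    change Curv.covHess (coeff h z) (rd E z u) y = _
    rw [h2, covHess_pull (g3_trans_smooth hd) (det_trans_ne_zero 𝓘(ℝ, E) hd)
      (fun i j => g3_coeff_smooth h _ ht i j)
      (Eventually.of_forall fun x i j => chartMetric_symm 𝓘(ℝ, E) (finBasis ℝ E) h _ x i j)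
      (g3_coeff_det h _ ht) (g3_law h hd) (g3_rd_smooth hu _ ht)]
    rfl

theorem ten_ric (h : Met E M) :
    Ten E (fun y => ric (coeff h y) (extChartAt 𝓘(ℝ, E) y y)) := by
  intro z
  refine ⟨fun y => ric (coeff h z) y, fun y hy => ⟨fun i j => ?_, ?_⟩⟩
  · have hh := g3_coeff_smooth h z hy
    refine ContDiffAt.sum fun p _ => ContDiffAt.sum fun q _ => ?_
    exact (contDiffAt_inv hh (g3_coeff_det h z hy) p q).mul
      (g3_riemann_smooth hh (g3_coeff_det h z hy) p i j q)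
  · have hd := g3_mem_dom (I := 𝓘(ℝ, E)) hy
    have ht := trans_mem_target 𝓘(ℝ, E) hd
    change ric (coeff h z) y = _
    rw [ric_pull (g3_trans_smooth hd) (det_trans_ne_zero 𝓘(ℝ, E) hd)
      (fun i j => g3_coeff_smooth h _ ht i j)
      (Eventually.of_forall fun x i j => chartMetric_symm 𝓘(ℝ, E) (finBasis ℝ E) h _ x i j)
      (g3_coeff_det h _ ht) (g3_law h hd)]
    rfl

end Pool.Agent.Lib.MP_df705a_gt.Coll.T
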