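import Pool.Agent.Lib.MP_df705a_gt.Coll.T.V2

/-!
# Module T, V3: the derivative of the scalar curvature in normal coordinates
-/

open scoped Manifold ContDiff Topology
open Set Bundle Module Filter MeasureTheory

noncomputable section

set_option linter.unusedSectionVars false

namespace Pool.Agent.Lib.MP_df705a_gt.Coll.T

open Pool.Agent.Lib.MP_df705a_gt.Twist Pool.Agent.Lib.MP_df705a_gt.Perm
open Pool.Agent.Lib.MP_df705a_gt.Circ (cf Para)

variable {E : Type*} [NormedAddCommGroup E] [NormedSpace ℝ E] [FiniteDimensional ℝ E]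
  {H : ℝ → Curv.Coeff E} {x : E}

/-- Product rule with `inv_dt`, `riemann_dt`, `Nrm.inv`, `Nrm.ric`, `Nrm.riemann_swap`;
`pd_comm` for `dt fun t y => H t y i j`.  (`hs`: `H t` is symmetric.) -/
theorem scal_dt (hH : ∀ i j, Fam (fun t y => H t y i j) x) (N : Nrm (H 0) x) :
    HasDerivAt (fun t => Curv.scal (H t) x)
      (∑ i, ∑ j, (Curv.pd i (Curv.pd j (dt fun t y => H t y i j)) x -
        Curv.pd i (Curv.pd i (dt fun t y => H t y j j)) x -
        2 * (ric (H 0) x i j * dt (fun t y => H t y i j) x))) 0 := by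
  have h1 : ∀ i j k l, HasDerivAt (fun t => (H t x)⁻¹ i l * (H t x)⁻¹ j k *
      Curv.riemann (H t) i j k l x)
      ((-dt (fun t y => H t y i l) x * (1 : Matrix (Fin (finrank ℝ E)) (Fin (finrank ℝ E)) ℝ) j k +
        (1 : Matrix (Fin (finrank ℝ E)) (Fin (finrank ℝ E)) ℝ) i l *
          -dt (fun t y => H t y j k) x) * Curv.riemann (H 0) i j k l x +
        (1 : Matrix (Fin (finrank ℝ E)) (Fin (finrank ℝ E)) ℝ) i l *
          (1 : Matrix (Fin (finrank ℝ E)) (Fin (finrank ℝ E)) ℝ) j k *
        ((Curv.pd i (Curv.pd k (dt fun t y => H t y j l)) x -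
        Curv.pd i (Curv.pd l (dt fun t y => H t y j k)) x -
        Curv.pd j (Curv.pd k (dt fun t y => H t y i l)) x +
        Curv.pd j (Curv.pd l (dt fun t y => H t y i k)) x) / 2)) 0 := by
    intro i j k l
    have a1 := ((inv_dt hH N i l).mul (inv_dt hH N j k)).mul (riemann_dt hH N i j k l)
    refine HasDerivAt.congr_deriv a1 ?_
    simp only [Pi.mul_apply, N.inv]
  have h2 := HasDerivAt.fun_sum (u := Finset.univ) fun i _ =>
    HasDerivAt.fun_sum (u := Finset.univ) fun j _ =>
    HasDerivAt.fun_sum (u := Finset.univ) fun k _ =>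
    HasDerivAt.fun_sum (u := Finset.univ) fun l _ => h1 i j k l
  refine HasDerivAt.congr_deriv h2 ?_
  have hone : ∀ (j : Fin (finrank ℝ E)) (f : Fin (finrank ℝ E) → ℝ),
      ∑ k, (1 : Matrix (Fin (finrank ℝ E)) (Fin (finrank ℝ E)) ℝ) j k * f k = f j := by
    intro j f
    rw [Finset.sum_eq_single j]
    · rw [Matrix.one_apply_eq, one_mul]
    · intro b _ hb
      rw [Matrix.one_apply_ne hb.symm, zero_mul]
    · intro hb
      exact absurd (Finset.mem_univ _) hb
  -- the three parts of the sum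
  have e1 : ∑ i, ∑ j, ∑ k, ∑ l, -dt (fun t y => H t y i l) x *
      (1 : Matrix (Fin (finrank ℝ E)) (Fin (finrank ℝ E)) ℝ) j k *
        Curv.riemann (H 0) i j k l x =
      -∑ i, ∑ j, ric (H 0) x i j * dt (fun t y => H t y i j) x := by
    have b1 : ∀ i, ∑ j, ∑ k, ∑ l, -dt (fun t y => H t y i l) x *
        (1 : Matrix (Fin (finrank ℝ E)) (Fin (finrank ℝ E)) ℝ) j k *
        Curv.riemann (H 0) i j k l x =
        -∑ l, ric (H 0) x i l * dt (fun t y => H t y i l) x := by
      intro i
      have b2 : ∀ j, ∑ k, ∑ l, -dt (fun t y => H t y i l) x *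
          (1 : Matrix (Fin (finrank ℝ E)) (Fin (finrank ℝ E)) ℝ) j k *
          Curv.riemann (H 0) i j k l x =
          ∑ l, -dt (fun t y => H t y i l) x * Curv.riemann (H 0) i j j l x := by
        intro j
        rw [← hone j fun k => ∑ l, -dt (fun t y => H t y i l) x * Curv.riemann (H 0) i j k l x]
        refine Finset.sum_congr rfl fun k _ => ?_
        rw [Finset.mul_sum]
        refine Finset.sum_congr rfl fun l _ => ?_
        ring
      rw [Finset.sum_congr rfl fun j _ => b2 j, Finset.sum_comm, ← Finset.sum_neg_distrib]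
      refine Finset.sum_congr rfl fun l _ => ?_
      rw [N.ric, ← Finset.mul_sum]
      have b3 : ∑ j, Curv.riemann (H 0) i j j l x = ∑ j, Curv.riemann (H 0) j i l j x :=
        Finset.sum_congr rfl fun j _ => N.riemann_swap i j j l
      rw [b3]
      ring
    rw [Finset.sum_congr rfl fun i _ => b1 i, Finset.sum_neg_distrib]
  have e2 : ∑ i, ∑ j, ∑ k, ∑ l, (1 : Matrix (Fin (finrank ℝ E)) (Fin (finrank ℝ E)) ℝ) i l *
      -dt (fun t y => H t y j k) x * Curv.riemann (H 0) i j k l x =
      -∑ i, ∑ j, ric (H 0) x i j * dt (fun t y => H t y i j) x := by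
    have b1 : ∀ i j k, ∑ l, (1 : Matrix (Fin (finrank ℝ E)) (Fin (finrank ℝ E)) ℝ) i l *
        -dt (fun t y => H t y j k) x * Curv.riemann (H 0) i j k l x =
        -dt (fun t y => H t y j k) x * Curv.riemann (H 0) i j k i x := by
      intro i j k
      rw [← hone i fun l => -dt (fun t y => H t y j k) x * Curv.riemann (H 0) i j k l x]
      refine Finset.sum_congr rfl fun l _ => ?_
      ring
    simp only [b1]
    rw [Finset.sum_comm, ← Finset.sum_neg_distrib]
    refine Finset.sum_congr rfl fun j _ => ?_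
    rw [Finset.sum_comm, ← Finset.sum_neg_distrib]
    refine Finset.sum_congr rfl fun k _ => ?_
    rw [← Finset.mul_sum, N.ric]
    ring
  have e3 : ∑ i, ∑ j, ∑ k, ∑ l, (1 : Matrix (Fin (finrank ℝ E)) (Fin (finrank ℝ E)) ℝ) i l *
      (1 : Matrix (Fin (finrank ℝ E)) (Fin (finrank ℝ E)) ℝ) j k *
        ((Curv.pd i (Curv.pd k (dt fun t y => H t y j l)) x -
        Curv.pd i (Curv.pd l (dt fun t y => H t y j k)) x -
        Curv.pd j (Curv.pd k (dt fun t y => H t y i l)) x +
        Curv.pd j (Curv.pd l (dt fun t y => H t y i k)) x) / 2) =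
      ∑ i, ∑ j, ((Curv.pd i (Curv.pd j (dt fun t y => H t y j i)) x -
        Curv.pd i (Curv.pd i (dt fun t y => H t y j j)) x -
        Curv.pd j (Curv.pd j (dt fun t y => H t y i i)) x +
        Curv.pd j (Curv.pd i (dt fun t y => H t y i j)) x) / 2) := by
    refine Finset.sum_congr rfl fun i _ => Finset.sum_congr rfl fun j _ => ?_
    rw [← hone j fun k => (Curv.pd i (Curv.pd k (dt fun t y => H t y j i)) x -
        Curv.pd i (Curv.pd i (dt fun t y => H t y j k)) x -
        Curv.pd j (Curv.pd k (dt fun t y => H t y i i)) x +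
        Curv.pd j (Curv.pd i (dt fun t y => H t y i k)) x) / 2]
    refine Finset.sum_congr rfl fun k _ => ?_
    rw [← hone i fun l => (1 : Matrix (Fin (finrank ℝ E)) (Fin (finrank ℝ E)) ℝ) j k *
        ((Curv.pd i (Curv.pd k (dt fun t y => H t y j l)) x -
        Curv.pd i (Curv.pd l (dt fun t y => H t y j k)) x -
        Curv.pd j (Curv.pd k (dt fun t y => H t y i l)) x +
        Curv.pd j (Curv.pd l (dt fun t y => H t y i k)) x) / 2)]
    refine Finset.sum_congr rfl fun l _ => ?_
    ring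
  have e4 : ∑ i, ∑ j, ((Curv.pd i (Curv.pd j (dt fun t y => H t y j i)) x -
        Curv.pd i (Curv.pd i (dt fun t y => H t y j j)) x -
        Curv.pd j (Curv.pd j (dt fun t y => H t y i i)) x +
        Curv.pd j (Curv.pd i (dt fun t y => H t y i j)) x) / 2) =
      ∑ i, ∑ j, (Curv.pd i (Curv.pd j (dt fun t y => H t y i j)) x -
        Curv.pd i (Curv.pd i (dt fun t y => H t y j j)) x) := by
    have c1 : ∑ i, ∑ j, Curv.pd i (Curv.pd j (dt fun t y => H t y j i)) x =
        ∑ i, ∑ j, Curv.pd i (Curv.pd j (dt fun t y => H t y i j)) x := by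
      rw [Finset.sum_comm]
      refine Finset.sum_congr rfl fun i _ => Finset.sum_congr rfl fun j _ => ?_
      exact pd_comm (hH i j).smF_dt.self j i
    have c2 : ∑ i, ∑ j, Curv.pd j (Curv.pd j (dt fun t y => H t y i i)) x =
        ∑ i, ∑ j, Curv.pd i (Curv.pd i (dt fun t y => H t y j j)) x := Finset.sum_comm
    have c3 : ∑ i, ∑ j, Curv.pd j (Curv.pd i (dt fun t y => H t y i j)) x =
        ∑ i, ∑ j, Curv.pd i (Curv.pd j (dt fun t y => H t y i j)) x :=
      Finset.sum_congr rfl fun i _ => Finset.sum_congr rfl fun j _ =>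
        pd_comm (hH i j).smF_dt.self j i
    simp only [← Finset.sum_div, Finset.sum_add_distrib, Finset.sum_sub_distrib, c1, c2, c3]
    ring
  have e5 : ∑ i, ∑ j, (Curv.pd i (Curv.pd j (dt fun t y => H t y i j)) x -
        Curv.pd i (Curv.pd i (dt fun t y => H t y j j)) x -
        2 * (ric (H 0) x i j * dt (fun t y => H t y i j) x)) =
      ∑ i, ∑ j, (Curv.pd i (Curv.pd j (dt fun t y => H t y i j)) x -
        Curv.pd i (Curv.pd i (dt fun t y => H t y j j)) x) -
      2 * ∑ i, ∑ j, ric (H 0) x i j * dt (fun t y => H t y i j) x := by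
    simp only [Finset.sum_sub_distrib, Finset.mul_sum]
  rw [e5, ← e4, ← e3]
  simp only [add_mul, Finset.sum_add_distrib]
  rw [e1, e2]
  ring

end Pool.Agent.Lib.MP_df705a_gt.Coll.T
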