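import Pool.Agent.Lib.MP_df705a_gt.Mg.G064

/-!
# Module T, V4: the linearization of the scalar curvature in normal coordinates
-/

open scoped Manifold ContDiff Topology
open Set Bundle Module Filter MeasureTheory

noncomputable section

set_option linter.unusedSectionVars false

namespace Pool.Agent.Lib.MP_df705a_gt.Coll.T

open Pool.Agent.Lib.MP_df705a_gt.Twist Pool.Agent.Lib.MP_df705a_gt.Perm
open Pool.Agent.Lib.MP_df705a_gt.Circ (cf Para)

variable {E : Type*} [NormedAddCommGroup E] [NormedSpace ℝ E] [FiniteDimensional ℝ E]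
  {h : Curv.Coeff E} {x : E}


/-- `ddC w w y i j = ∂_i w ∂_j w`; `pd2_mul`; `∑ (∂_i∂_j (w_i w_j) - ∂_i∂_i (w_j w_j)) =
(∑ w_ii)² - ∑ w_ij²` (the third derivatives cancel, `pd3_comm`, `pd_comm`); `Nrm.bochner`. -/
theorem Nrm.dsc (N : Nrm h x) {w : E → ℝ} (hw : ContDiffAt ℝ ∞ w x) :
    ∑ i, ∑ j, (Curv.pd i (Curv.pd j (fun y => ddC w w y i j)) x -
      Curv.pd i (Curv.pd i (fun y => ddC w w y j j)) x -
      2 * (Coll.ric h x i j * ddC w w x i j)) = DSC h w x := by
  have hw1 : ∀ i, ContDiffAt ℝ ∞ (Curv.pd i w) x := fun i => g3_pd_smooth hw i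
  have hdd : ∀ i j, (fun y => ddC w w y i j) = fun y => Curv.pd i w y * Curv.pd j w y := by
    intro i j
    funext y
    unfold ddC
    ring
  have e1 : ∀ i j, Curv.pd i (Curv.pd j (fun y => ddC w w y i j)) x =
      Curv.pd i w x * Curv.pd i (Curv.pd j (Curv.pd j w)) x +
      Curv.pd j w x * Curv.pd i (Curv.pd j (Curv.pd i w)) x +
      Curv.pd i (Curv.pd i w) x * Curv.pd j (Curv.pd j w) x +
      Curv.pd j (Curv.pd i w) x * Curv.pd i (Curv.pd j w) x := by
    intro i j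
    rw [hdd, pd2_mul (hw1 i) (hw1 j)]
  have e2 : ∀ i j, Curv.pd i (Curv.pd i (fun y => ddC w w y j j)) x =
      2 * (Curv.pd j w x * Curv.pd i (Curv.pd i (Curv.pd j w)) x) +
      2 * (Curv.pd i (Curv.pd j w) x * Curv.pd i (Curv.pd j w) x) := by
    intro i j
    rw [hdd, pd2_mul (hw1 j) (hw1 j)]
    ring
  have e3 : ∀ i j, Curv.pd i (Curv.pd j (Curv.pd i w)) x =
      Curv.pd i (Curv.pd i (Curv.pd j w)) x := fun i j => pd3_comm hw i j i
  have e4 : ∀ i j, Curv.pd j (Curv.pd i w) x = Curv.pd i (Curv.pd j w) x :=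
    fun i j => pd_comm hw j i
  have e5 : ∑ i, ∑ j, Curv.pd i w x * Curv.pd i (Curv.pd j (Curv.pd j w)) x =
      ∑ i, ∑ j, Curv.pd j w x * Curv.pd i (Curv.pd i (Curv.pd j w)) x := by
    rw [Finset.sum_comm]
    refine Finset.sum_congr rfl fun i _ => Finset.sum_congr rfl fun j _ => ?_
    have h1 := pd_comm (hw1 i) i j
    have h2 := pd3_comm hw j i i
    rw [pd_comm (hw1 i) j i, pd3_comm hw i j i]
  have hb := N.bochner hw hw
  rw [N.one, ipM_one, ipM_one] at hb
  simp only [N.covHess] at hb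
  unfold DSC
  rw [N.one, ipM_one, N.lapC w]
  have e6 : ∑ i, ∑ j, (Curv.pd i (Curv.pd j (fun y => ddC w w y i j)) x -
      Curv.pd i (Curv.pd i (fun y => ddC w w y j j)) x -
      2 * (Coll.ric h x i j * ddC w w x i j)) =
      ∑ i, ∑ j, Curv.pd i w x * Curv.pd i (Curv.pd j (Curv.pd j w)) x -
      ∑ i, ∑ j, Curv.pd j w x * Curv.pd i (Curv.pd i (Curv.pd j w)) x +
      (∑ i, Curv.pd i (Curv.pd i w) x) * (∑ j, Curv.pd j (Curv.pd j w) x) -
      ∑ i, ∑ j, Curv.pd i (Curv.pd j w) x * Curv.pd i (Curv.pd j w) x -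
      2 * ∑ i, ∑ j, Coll.ric h x i j * ddC w w x i j := by
    rw [Finset.sum_mul_sum, Finset.mul_sum, ← Finset.sum_sub_distrib, ← Finset.sum_add_distrib,
      ← Finset.sum_sub_distrib, ← Finset.sum_sub_distrib]
    refine Finset.sum_congr rfl fun i _ => ?_
    rw [Finset.mul_sum, ← Finset.sum_sub_distrib, ← Finset.sum_add_distrib,
      ← Finset.sum_sub_distrib, ← Finset.sum_sub_distrib]
    refine Finset.sum_congr rfl fun j _ => ?_
    rw [e1, e2, e3, e4 i j]
    ring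
  rw [e6, e5]
  linear_combination -hb

end Pool.Agent.Lib.MP_df705a_gt.Coll.T
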