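import Pool.Agent.Lib.MP_df705a_gt.Mg.G061
import Pool.Agent.Lib.MP_df705a_gt.Mg.G059

/-!
# Module T, V5: the linearization of the scalar curvature in other coordinates
-/

open scoped Manifold ContDiff Topology
open Set Bundle Module Filter MeasureTheory

noncomputable section

set_option linter.unusedSectionVars false

namespace Pool.Agent.Lib.MP_df705a_gt.Coll.T

open Pool.Agent.Lib.MP_df705a_gt.Twist Pool.Agent.Lib.MP_df705a_gt.Perm
open Pool.Agent.Lib.MP_df705a_gt.Circ (cf Para)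

variable {E : Type*} [NormedAddCommGroup E] [NormedSpace ℝ E] [FiniteDimensional ℝ E]
  {h : Curv.Coeff E} {τ : E → E} {y : E}

theorem dsc_pull (hτ : ContDiff ℝ ∞ τ) (hd : (fderiv ℝ τ y).det ≠ 0) (H : RM h (τ y))
    {w : E → ℝ} (hw : SmF w (τ y)) : DSC (pull h τ) (w ∘ τ) y = DSC h w (τ y) := by
  have hl := pull_lap hτ hd H hw
  have hg := pull_grad hτ hd H hw hw
  have hlw := smF_lap H hw
  have hgw := smF_grad H hw hw
  have e1 : lapC (pull h τ) (w ∘ τ) y = lapC h w (τ y) := hl.self_of_nhds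
  have e2 : gradC (pull h τ) (w ∘ τ) (lapC (pull h τ) (w ∘ τ)) y =
      gradC h w (lapC h w) (τ y) := by
    rw [g3_gradC_congr (EventuallyEq.refl _ _) hl]
    exact (pull_grad hτ hd H hw hlw).self_of_nhds
  have e3 : lapC (pull h τ) (gradC (pull h τ) (w ∘ τ) (w ∘ τ)) y =
      lapC h (gradC h w w) (τ y) := by
    rw [g3_lapC_congr hg]
    exact (pull_lap hτ hd H hgw).self_of_nhds
  have hsy : ∀ᶠ x in 𝓝 (τ y), ∀ i j, h x i j = h x j i := by
    filter_upwards [H.nhds] with x hx i j
    exact hx.symm i j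
  have e4 := ric_pull (h := h) (h' := pull h τ) (τ := τ) (y := y) hτ.contDiffAt hd H.self.1 hsy
    H.det (Eventually.of_forall fun _ => rfl)
  have e5 := ddC_pull (τ := τ) (y := y) (hτ.contDiffAt.differentiableAt (by simp))
    (hw.self.differentiableAt (by simp)) (hw.self.differentiableAt (by simp))
  have e6 : ipM (pull h τ y) (ric (pull h τ) y) (ddC (w ∘ τ) (w ∘ τ) y) =
      ipM (h (τ y)) (ric h (τ y)) (ddC w w (τ y)) := by
    rw [e4, e5]
    exact ipM_conj (by rw [det_mat]; exact hd) _ _ _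
  unfold DSC
  rw [e1, e2, e3, e6]

end Pool.Agent.Lib.MP_df705a_gt.Coll.T
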