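import Pool.Agent.Lib.MP_df705a_gt.Mg.G063
import Pool.Agent.Lib.MP_df705a_gt.Coll.T.V3
import Pool.Agent.Lib.MP_df705a_gt.Coll.T.V4
import Pool.Agent.Lib.MP_df705a_gt.Coll.T.V5

/-!
# Module T, V6: the linearization of the scalar curvature in coordinates
-/

open scoped Manifold ContDiff Topology
open Set Bundle Module Filter MeasureTheory

noncomputable section

set_option linter.unusedSectionVars false

namespace Pool.Agent.Lib.MP_df705a_gt.Coll.T

open Pool.Agent.Lib.MP_df705a_gt.Twist Pool.Agent.Lib.MP_df705a_gt.Perm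
open Pool.Agent.Lib.MP_df705a_gt.Circ (cf Para)

variable {E : Type*} [NormedAddCommGroup E] [NormedSpace ℝ E] [FiniteDimensional ℝ E]

  {H : ℝ → Curv.Coeff E} {x : E}

private theorem v6_pull_apply (h : Curv.Coeff E) (τ : E → E) (y : E)
    (i j : Fin (finrank ℝ E)) : pull h τ y i j =
      ∑ l, (∑ k, mat (fderiv ℝ τ y) k i * h (τ y) k l) * mat (fderiv ℝ τ y) l j := by
  unfold pull
  rw [Matrix.mul_apply]
  simp only [Matrix.mul_apply, Matrix.transpose_apply]

private theorem v6_mat_smooth {τ : E → E} (hτ : ContDiff ℝ ∞ τ) (k i : Fin (finrank ℝ E)) :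
    ContDiff ℝ ∞ (fun y => mat (fderiv ℝ τ y) k i) := by
  have h1 : ContDiff ℝ ∞ (fderiv ℝ τ) := hτ.fderiv_right (m := ∞) (by simp)
  have h2 : (fun y => mat (fderiv ℝ τ y) k i) = fun y =>
      (LinearMap.toContinuousLinearMap ((finBasis ℝ E).coord k))
        (fderiv ℝ τ y (finBasis ℝ E i)) := by
    funext y
    unfold mat
    rw [LinearMap.toMatrix_apply]
    rfl
  rw [h2]
  exact (LinearMap.toContinuousLinearMap ((finBasis ℝ E).coord k)).contDiff.comp
    (h1.clm_apply contDiff_const)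

private theorem v6_tendsto {τ : E → E} (hτ : ContDiff ℝ ∞ τ) (h0 : τ 0 = x) :
    Tendsto τ (𝓝 0) (𝓝 x) := by
  have h1 := hτ.continuous.tendsto 0
  rwa [h0] at h1

/-- The pulled back family. -/
theorem fam_pull {τ : E → E} (hτ : ContDiff ℝ ∞ τ) (h0 : τ 0 = x)
    (hH : ∀ i j, Fam (fun t y => H t y i j) x) (i j : Fin (finrank ℝ E)) :
    Fam (fun t y => pull (H t) τ y i j) 0 := by
  have h1 : ∀ᶠ z in 𝓝 x, ∀ k l, ContDiffAt ℝ ∞ (fun p : ℝ × E => H p.1 p.2 k l) (0, z) := by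
    rw [eventually_all]
    intro k
    rw [eventually_all]
    intro l
    exact hH k l
  filter_upwards [(v6_tendsto hτ h0).eventually h1] with y hy
  have h2 : (fun p : ℝ × E => pull (H p.1) τ p.2 i j) = fun p : ℝ × E =>
      ∑ l, (∑ k, mat (fderiv ℝ τ p.2) k i * H p.1 (τ p.2) k l) *
        mat (fderiv ℝ τ p.2) l j := by
    funext p
    exact v6_pull_apply _ _ _ _ _
  rw [h2]
  have h3 : ∀ k l, ContDiffAt ℝ ∞ (fun p : ℝ × E => mat (fderiv ℝ τ p.2) k l) (0, y) :=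
    fun k l => ((v6_mat_smooth hτ k l).comp contDiff_snd).contDiffAt
  have h4 : ContDiffAt ℝ ∞ (fun p : ℝ × E => (p.1, τ p.2)) (0, y) :=
    (contDiff_fst.prodMk (hτ.comp contDiff_snd)).contDiffAt
  have h5 : ∀ k l, ContDiffAt ℝ ∞ (fun p : ℝ × E => H p.1 (τ p.2) k l) (0, y) := fun k l =>
    ContDiffAt.comp (0, y) (g := fun p : ℝ × E => H p.1 p.2 k l)
      (f := fun p : ℝ × E => (p.1, τ p.2)) (hy k l) h4
  exact ContDiffAt.sum fun l _ =>
    (ContDiffAt.sum fun k _ => (h3 k i).mul (h5 k l)).mul (h3 l j)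

/-- `dt` commutes with the pullback; `ddC_pull`. -/
theorem dt_pull {τ : E → E} (hτ : ContDiff ℝ ∞ τ) (h0 : τ 0 = x)
    (hH : ∀ i j, Fam (fun t y => H t y i j) x) {ι : Type} [Fintype ι] {s : ι → ℝ}
    {w : ι → E → ℝ} (hw : ∀ a, SmF (w a) x)
    (hK : ∀ᶠ y in 𝓝 x, ∀ i j, dt (fun t y => H t y i j) y = ∑ a, s a * ddC (w a) (w a) y i j) :
    ∀ᶠ y in 𝓝 0, ∀ i j, dt (fun t y => pull (H t) τ y i j) y =
      ∑ a, s a * ddC (w a ∘ τ) (w a ∘ τ) y i j := by
  have h1 : ∀ᶠ z in 𝓝 x, ∀ k l, Fam (fun t y => H t y k l) z := by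
    rw [eventually_all]
    intro k
    rw [eventually_all]
    intro l
    exact eventually_eventually_nhds.2 (hH k l)
  have h2 : ∀ᶠ z in 𝓝 x, ∀ a, ContDiffAt ℝ ∞ (w a) z := by
    rw [eventually_all]
    exact hw
  have ht := v6_tendsto hτ h0
  filter_upwards [ht.eventually h1, ht.eventually h2, ht.eventually hK] with y hy1 hy2 hy3
  intro i j
  have h3 : HasDerivAt (fun t => pull (H t) τ y i j)
      (∑ l, (∑ k, mat (fderiv ℝ τ y) k i * dt (fun t y => H t y k l) (τ y)) *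
        mat (fderiv ℝ τ y) l j) 0 := by
    simp only [v6_pull_apply]
    exact HasDerivAt.fun_sum fun l _ => (HasDerivAt.fun_sum fun k _ =>
      ((hy1 k l).hasDerivAt).const_mul _).mul_const _
  have h4 : ∀ a, ddC (w a ∘ τ) (w a ∘ τ) y i j =
      ∑ l, (∑ k, mat (fderiv ℝ τ y) k i * ddC (w a) (w a) (τ y) k l) *
        mat (fderiv ℝ τ y) l j := by
    intro a
    rw [ddC_pull (hτ.differentiable (by simp)).differentiableAt
      ((hy2 a).differentiableAt (by simp)) ((hy2 a).differentiableAt (by simp)), Matrix.mul_apply]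
    simp only [Matrix.mul_apply, Matrix.transpose_apply]
  have h5 : dt (fun t y => pull (H t) τ y i j) y = _ := h3.deriv
  rw [h5]
  simp only [hy3, h4, Finset.mul_sum, Finset.sum_mul]
  conv_rhs => rw [Finset.sum_comm]
  refine Finset.sum_congr rfl fun l _ => ?_
  conv_rhs => rw [Finset.sum_comm]
  refine Finset.sum_congr rfl fun k _ => Finset.sum_congr rfl fun a _ => ?_
  ring

/-- `exists_normal` for `H 0`; `pull_scal` for all `t`; `scal_dt` for `pull (H t) τ`; `dt_pull`,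
`pd2_sum`, `Nrm.dsc`, `dsc_pull`. -/
theorem var_scalC (hH : ∀ i j, Fam (fun t y => H t y i j) x) (hR : ∀ t, RM (H t) x)
    {ι : Type} [Fintype ι] {s : ι → ℝ} {w : ι → E → ℝ} (hw : ∀ a, SmF (w a) x)
    (hK : ∀ᶠ y in 𝓝 x, ∀ i j, dt (fun t y => H t y i j) y = ∑ a, s a * ddC (w a) (w a) y i j) :
    HasDerivAt (fun t => Curv.scal (H t) x) (∑ a, s a * DSC (H 0) (w a) x) 0 := by
  obtain ⟨τ, hτ, h0, hd, N⟩ := exists_normal (hR 0)
  have h1 := scal_dt (H := fun t => pull (H t) τ) (x := 0) (fam_pull hτ h0 hH) N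
  have h2 : (fun t => Curv.scal (pull (H t) τ) 0) = fun t => Curv.scal (H t) x := by
    funext t
    rw [pull_scal hτ hd (by rw [h0]; exact hR t), h0]
  rw [h2] at h1
  have h3 : ∑ a, s a * DSC (H 0) (w a) x =
      ∑ i, ∑ j, (Curv.pd i (Curv.pd j (dt fun t y => pull (H t) τ y i j)) 0 -
        Curv.pd i (Curv.pd i (dt fun t y => pull (H t) τ y j j)) 0 -
        2 * (ric (pull (H 0) τ) 0 i j * dt (fun t y => pull (H t) τ y i j) 0)) := by
    have hw' : ∀ a, SmF (w a) (τ 0) := by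
      rw [h0]
      exact hw
    have hws : ∀ a, ContDiffAt ℝ ∞ (w a ∘ τ) 0 := fun a => (pull_smF hτ (hw' a)).self
    have h4 : ∀ a, DSC (H 0) (w a) x = DSC (pull (H 0) τ) (w a ∘ τ) 0 := by
      intro a
      rw [dsc_pull hτ hd (by rw [h0]; exact hR 0) (hw' a), h0]
    have hdt := dt_pull hτ h0 hH hw hK
    have h5 : ∀ i j, (dt fun t y => pull (H t) τ y i j) =ᶠ[𝓝 0]
        fun y => ∑ a, s a * ddC (w a ∘ τ) (w a ∘ τ) y i j := fun i j =>
      hdt.mono fun y hy => hy i j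
    have hdd : ∀ a i j, ContDiffAt ℝ ∞ (fun y => ddC (w a ∘ τ) (w a ∘ τ) y i j) 0 := by
      intro a i j
      exact (((g3_pd_smooth (hws a) i).mul (g3_pd_smooth (hws a) j)).add
        ((g3_pd_smooth (hws a) j).mul (g3_pd_smooth (hws a) i))).div_const 2
    have h6 : ∀ k l i j, Curv.pd k (Curv.pd l (dt fun t y => pull (H t) τ y i j)) 0 =
        ∑ a, s a * Curv.pd k (Curv.pd l (fun y => ddC (w a ∘ τ) (w a ∘ τ) y i j)) 0 := by
      intro k l i j
      have h7 : Curv.pd l (dt fun t y => pull (H t) τ y i j) =ᶠ[𝓝 0]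
          Curv.pd l (fun y => ∑ a, s a * ddC (w a ∘ τ) (w a ∘ τ) y i j) := by
        filter_upwards [(h5 i j).eventuallyEq_nhds] with y hy
        exact G4.pd_congr hy l
      rw [G4.pd_congr h7, pd2_sum Finset.univ (F := fun a y => s a * ddC (w a ∘ τ) (w a ∘ τ) y i j)
        fun a _ => contDiffAt_const.mul (hdd a i j)]
      exact Finset.sum_congr rfl fun a _ => G4.pd2_smul (hdd a i j) (s a) k l
    simp only [h4, ← N.dsc (hws _), h6, (h5 _ _).self_of_nhds, Finset.mul_sum]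
    rw [Finset.sum_comm]
    refine Finset.sum_congr rfl fun i _ => ?_
    rw [Finset.sum_comm]
    refine Finset.sum_congr rfl fun j _ => ?_
    rw [← Finset.sum_sub_distrib, ← Finset.sum_sub_distrib]
    refine Finset.sum_congr rfl fun a _ => ?_
    ring
  rw [h3]
  exact h1

end Pool.Agent.Lib.MP_df705a_gt.Coll.T
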