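import Pool.Agent.Lib.MP_df705a_gt.Coll.T.B2
import Pool.Agent.Lib.MP_df705a_gt.Coll.T.S2
import Pool.Agent.Lib.MP_df705a_gt.Coll.T.V6

/-!
# Module T, V7: the linearization of the scalar curvature on a manifold
-/

open scoped Manifold ContDiff Topology
open Set Bundle Module Filter MeasureTheory

noncomputable section

set_option linter.unusedSectionVars false

namespace Pool.Agent.Lib.MP_df705a_gt.Coll.T

open Pool.Agent.Lib.MP_df705a_gt.Twist Pool.Agent.Lib.MP_df705a_gt.Perm
open Pool.Agent.Lib.MP_df705a_gt.Circ (cf Para)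

variable {E : Type*} [NormedAddCommGroup E] [NormedSpace ℝ E] [FiniteDimensional ℝ E]
  {M : Type*} [TopologicalSpace M] [ChartedSpace E M] [IsManifold 𝓘(ℝ, E) ∞ M]

/-- `coeff_chg`, `ddC_chart`. -/
theorem coeff_dt {h : ℝ → Met E M}
    (hsm : ∀ (z : M), ∀ y ∈ (extChartAt 𝓘(ℝ, E) z).target, ∀ i j,
      ContDiffAt ℝ ∞ (fun p : ℝ × E => coeff (h p.1) z p.2 i j) (0, y))
    {ι : Type} [Fintype ι] {s : ι → ℝ} {w : ι → M → ℝ} (hw : ∀ i, Sm E (w i))
    (hder : ∀ y i j, deriv (fun t => cof (h t) y i j) 0 =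
      ∑ a, s a * dd E (w a) (w a) y i j) (z : M) {y : E}
    (hy : y ∈ (extChartAt 𝓘(ℝ, E) z).target) (i j : Fin (finrank ℝ E)) :
    dt (fun t y => coeff (h t) z y i j) y =
      ∑ a, s a * ddC (rd E z (w a)) (rd E z (w a)) y i j := by
  set p : M := (extChartAt 𝓘(ℝ, E) z).symm y with hp
  have hd : ∀ k l, HasDerivAt (fun t => cof (h t) p k l) (∑ a, s a * dd E (w a) (w a) p k l) 0 := by
    intro k l
    rw [← hder p k l]
    have h1 := hsm p (extChartAt 𝓘(ℝ, E) p p) (mem_extChartAt_target p) k l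
    have h2 : ContDiffAt ℝ ∞ (fun t : ℝ => cof (h t) p k l) 0 :=
      ContDiffAt.comp (0 : ℝ) (g := fun q : ℝ × E => coeff (h q.1) p q.2 k l)
        (f := fun t : ℝ => (t, extChartAt 𝓘(ℝ, E) p p)) h1 (contDiffAt_id.prodMk contDiffAt_const)
    exact (h2.differentiableAt (by simp)).hasDerivAt
  have h3 : HasDerivAt (fun t => coeff (h t) z y i j)
      (∑ l, (∑ k, chg E z y k i * (∑ a, s a * dd E (w a) (w a) p k l)) * chg E z y l j) 0 := by
    have h4 : (fun t => coeff (h t) z y i j) =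
        fun t => ∑ l, (∑ k, chg E z y k i * cof (h t) p k l) * chg E z y l j := by
      funext t
      rw [coeff_chg (h t) z hy]
      simp only [Matrix.mul_apply, Matrix.transpose_apply, ← hp]
    rw [h4]
    refine HasDerivAt.fun_sum fun l _ => ?_
    refine HasDerivAt.mul_const (HasDerivAt.fun_sum fun k _ => ?_) _
    exact (hd k l).const_mul _
  have h5 : ∀ a, ddC (rd E z (w a)) (rd E z (w a)) y i j =
      ∑ l, (∑ k, chg E z y k i * dd E (w a) (w a) p k l) * chg E z y l j := by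
    intro a
    rw [ddC_chart (hw a) (hw a) z hy]
    simp only [Matrix.mul_apply, Matrix.transpose_apply, ← hp]
  unfold dt
  rw [h3.deriv]
  simp only [h5, Finset.mul_sum, Finset.sum_mul]
  rw [Finset.sum_comm (f := fun a l => ∑ k, s a * (chg E z y k i * dd E (w a) (w a) p k l *
    chg E z y l j))]
  refine Finset.sum_congr rfl fun l _ => ?_
  rw [Finset.sum_comm (f := fun a k => s a * (chg E z y k i * dd E (w a) (w a) p k l *
    chg E z y l j))]
  refine Finset.sum_congr rfl fun k _ => Finset.sum_congr rfl fun a _ => ?_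
  ring

/-- `rd_lap`, `rd_grd`. -/
theorem ds_eq (h : Met E M) {w : M → ℝ} (hw : Sm E w) (y : M) :
    DS h w y = DSC (coeff h y) (rd E y w) (extChartAt 𝓘(ℝ, E) y y) := by
  have hy : extChartAt 𝓘(ℝ, E) y y ∈ (extChartAt 𝓘(ℝ, E) y).target := mem_extChartAt_target y
  have hl := rd_lap (h := h) hw y hy
  have hg := rd_grd (h := h) hw hw y hy
  have e1 : Grd h w (Lap h w) y = gradC (coeff h y) (rd E y w) (lapC (coeff h y) (rd E y w))
      (extChartAt 𝓘(ℝ, E) y y) := by
    unfold Grd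
    exact g3_gradC_congr (EventuallyEq.refl _ _) hl
  have e2 : Lap h (Grd h w w) y = lapC (coeff h y) (gradC (coeff h y) (rd E y w) (rd E y w))
      (extChartAt 𝓘(ℝ, E) y y) := by
    rw [← g3_lapC_congr hg]
    rfl
  unfold DS DSC
  rw [e1, e2]
  rfl

/-- The linearization of the scalar curvature: `var_scalC` for `H t = coeff (h t) y`. -/
theorem var_scal {h : ℝ → Met E M}
    (hsm : ∀ (z : M), ∀ y ∈ (extChartAt 𝓘(ℝ, E) z).target, ∀ i j,
      ContDiffAt ℝ ∞ (fun p : ℝ × E => coeff (h p.1) z p.2 i j) (0, y))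
    {ι : Type} [Fintype ι] {s : ι → ℝ} {w : ι → M → ℝ} (hw : ∀ i, Sm E (w i))
    (hder : ∀ y i j, deriv (fun t => cof (h t) y i j) 0 =
      ∑ a, s a * dd E (w a) (w a) y i j) (y : M) :
    HasDerivAt (fun t => Scal (h t) y) (∑ a, s a * DS (h 0) (w a) y) 0 := by
  have hy : extChartAt 𝓘(ℝ, E) y y ∈ (extChartAt 𝓘(ℝ, E) y).target := mem_extChartAt_target y
  have h1 := var_scalC (H := fun t => coeff (h t) y) (x := extChartAt 𝓘(ℝ, E) y y)
    (fun i j => by
      filter_upwards [(isOpen_extChartAt_target y).mem_nhds hy] with z hz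
      exact hsm y z hz i j)
    (fun t => coeff_rm (h t) y hy) (fun a => rd_smF (hw a) y hy)
    (by
      filter_upwards [(isOpen_extChartAt_target y).mem_nhds hy] with z hz
      intro i j
      exact coeff_dt hsm hw hder y hz i j)
  simp only [ds_eq (h 0) (hw _)]
  exact h1

end Pool.Agent.Lib.MP_df705a_gt.Coll.T
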