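import Pool.Agent.Lib.MP_df705a_gt.Coll.T.R4
import Pool.Agent.Lib.MP_df705a_gt.Coll.T.R6
import Pool.Agent.Lib.MP_df705a_gt.Coll.T.R8
import Pool.Agent.Lib.MP_df705a_gt.Coll.T.R9
import Pool.Agent.Lib.MP_df705a_gt.Coll.T.V7

/-!
# Module T, RF: scalar flat metrics without metrics of positive scalar curvature
-/

open scoped Manifold ContDiff Topology
open Set Bundle Module Filter MeasureTheory

noncomputable section

set_option linter.unusedSectionVars false

namespace Pool.Agent.Lib.MP_df705a_gt.Coll.T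

open Pool.Agent.Lib.MP_df705a_gt.Twist Pool.Agent.Lib.MP_df705a_gt.Perm
open Pool.Agent.Lib.MP_df705a_gt.Circ (cf Para)

variable {E : Type*} [NormedAddCommGroup E] [NormedSpace ℝ E] [FiniteDimensional ℝ E]
  {M : Type*} [TopologicalSpace M] [ChartedSpace E M] [IsManifold 𝓘(ℝ, E) ∞ M]

/-- On a closed manifold without metrics of positive scalar curvature a scalar flat metric is Ricci
flat. -/
theorem ricci_flat [CompactSpace M] [T2Space M] [ConnectedSpace M] (hd : 2 ≤ finrank ℝ E)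
    {h : Met E M} (hS : ∀ y, Scal h y = 0) (hno : ∀ h' : Met E M, ¬ PosScal h')
    {E' : Type*} [NormedAddCommGroup E'] [NormedSpace ℝ E'] [FiniteDimensional ℝ E']
    {σ : E' → M} {q : E'} (hσ : Para E σ q) : ric (cf h σ) q = 0 := by
  let _ : MeasurableSpace E := borel E
  have : BorelSpace E := ⟨rfl⟩
  let _ : MeasurableSpace M := borel M
  have : BorelSpace M := ⟨rfl⟩
  obtain ⟨μ, hμ⟩ := exists_rvol h
  refine ric_cf hσ ?_
  by_contra hr
  obtain ⟨s, w, hw, hpos⟩ := exists_test hμ hr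
  obtain ⟨δ, H, hδ, hH0, hH⟩ := exists_fam h s hw
  have hsm := fam_sm hw hδ hH
  have hvar := var_scal hsm hw (fam_der hδ hH)
  rw [hH0] at hvar
  have hn : (0 : ℝ) < 2 * ((finrank ℝ E : ℝ) - 1) := by
    have : (2 : ℝ) ≤ finrank ℝ E := by exact_mod_cast hd
    linarith
  have hDsm : Sm E (fun p => ∑ a, s a * DS h (w a) p) :=
    sm_sum _ fun a _ => sm_smul (sm_ds (hw a) (sm_rc h (hw a) (hw a))) (s a)
  have hRc : Continuous fun p => (2 * ((finrank ℝ E : ℝ) - 1))⁻¹ * ∑ a, s a * DS h (w a) p :=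
    continuous_const.mul hDsm.continuous
  obtain ⟨f, hf, hlt⟩ := exists_lap_lt (by omega) hμ hRc (by
    rw [integral_const_mul]
    exact mul_pos (inv_pos.2 hn) hpos)
  obtain ⟨h', hh'⟩ := exists_psc hsm (by rw [hH0]; exact hS) hvar hf (by
    intro y
    rw [hH0]
    have h1 := hlt y
    rw [inv_mul_eq_div, lt_div_iff₀ hn] at h1
    linarith)
  exact hno h' hh'

end Pool.Agent.Lib.MP_df705a_gt.Coll.T
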