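import Pool.Agent.Lib.MP_df705a_gt.Coll.T.W6

/-!
# Module T, W7: the choice of the test function
-/

open scoped Manifold ContDiff Topology
open Set Bundle Module Filter MeasureTheory

noncomputable section

set_option linter.unusedSectionVars false

namespace Pool.Agent.Lib.MP_df705a_gt.Coll.T

open Pool.Agent.Lib.MP_df705a_gt.Twist Pool.Agent.Lib.MP_df705a_gt.Perm
open Pool.Agent.Lib.MP_df705a_gt.Circ (cf Para)

variable {E : Type*} [NormedAddCommGroup E] [NormedSpace ℝ E] [FiniteDimensional ℝ E]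
  {M : Type*} [TopologicalSpace M] [ChartedSpace E M] [IsManifold 𝓘(ℝ, E) ∞ M]
  [MeasurableSpace E] [BorelSpace E] [MeasurableSpace M] [BorelSpace M]
  [CompactSpace M] [T2Space M]
  {h : Met E M} {μ : Measure M}
  [ConnectedSpace M] {lam : ℝ}

/-- For a smooth `κ` and `η > 0` there is `φ` with mean `0` and `Δφ` close to `κ - mean κ`
(`lap_dense`); with `r = κ - mean - Δφ`, `∫ r = 0`, `∫ r² ≤ η`: `∫ (κ - Δφ)² = (∫ κ)²/μ(M) + ∫ r²`;
`∫ φ κ = -∫ Γ(φ,φ) + ∫ φ r` (`int_grd`), `2 |∫ φ r| ≤ C⁻¹ ∫ φ² + C ∫ r² ≤ ∫ Γ(φ,φ) + C η` (`poincare`). -/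
theorem exists_test_fun (hd : 0 < finrank ℝ E) (hμ : IsRVol h μ) : ∃ C : ℝ, 0 < C ∧
    ∀ κ : M → ℝ, Sm E κ → ∀ η : ℝ, 0 < η → ∃ φ : M → ℝ, Sm E φ ∧ ∫ y, φ y ∂μ = 0 ∧
      ∫ y, (κ y - Lap h φ y) ^ 2 ∂μ ≤ (∫ y, κ y ∂μ) ^ 2 / μ.real univ + η ∧
      2 * ∫ y, φ y * κ y ∂μ + ∫ y, Grd h φ φ y ∂μ ≤ C * η := by
  have : IsFiniteMeasure μ := hμ.fin
  obtain ⟨C, hC, hP⟩ := poincare hμ
  have hV : 0 < μ.real univ := by
    obtain ⟨p⟩ : Nonempty M := inferInstance
    have h1 := hμ.pos (f := fun _ => (1 : ℝ)) continuous_const (fun _ => zero_le_one)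
      (p := p) zero_lt_one
    simpa using h1
  have hI : ∀ {f : M → ℝ}, Sm E f → Integrable f μ := fun hf => integrable_sm hμ hf
  refine ⟨C, hC, fun κ hκ η hη => ?_⟩
  set m : ℝ := (∫ y, κ y ∂μ) / μ.real univ with hm
  have hmV : m * μ.real univ = ∫ y, κ y ∂μ := by
    rw [hm]
    field_simp
  have hf : Sm E (fun y => κ y - m) := sm_sub hκ (sm_const m)
  have hf0 : ∫ y, (κ y - m) ∂μ = 0 := by
    rw [integral_sub (hI hκ) (integrable_const m), integral_const, smul_eq_mul, mul_comm, hmV,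
      sub_self]
  obtain ⟨φ, hφ, h0, hle⟩ := lap_dense hd hμ hf hf0 hη
  have hL : Sm E (Lap h φ) := Circ.sm_lap h hφ
  have hr : Sm E (fun y => κ y - m - Lap h φ y) := sm_sub hf hL
  have hr0 : ∫ y, (κ y - m - Lap h φ y) ∂μ = 0 := by
    rw [integral_sub (hI hf) (hI hL), hf0, int_lap hμ hφ, sub_self]
  have hrr : Sm E (fun y => (κ y - m - Lap h φ y) * (κ y - m - Lap h φ y)) := sm_mul hr hr
  have hr2 : ∫ y, (κ y - m - Lap h φ y) * (κ y - m - Lap h φ y) ∂μ ≤ η := by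
    refine le_trans (le_of_eq (integral_congr_ae (Eventually.of_forall fun y => ?_))) hle
    change (κ y - m - Lap h φ y) * (κ y - m - Lap h φ y) = (Lap h φ y - (κ y - m)) ^ 2
    ring
  refine ⟨φ, hφ, h0, ?_, ?_⟩
  · have h1 : ∀ y, (κ y - Lap h φ y) ^ 2 = (m ^ 2 + (2 * m) * (κ y - m - Lap h φ y)) +
        (κ y - m - Lap h φ y) * (κ y - m - Lap h φ y) := by
      intro y
      ring
    have hi : Integrable (fun y => (2 * m) * (κ y - m - Lap h φ y)) μ := (hI hr).const_mul _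
    have hj : Integrable (fun y => m ^ 2 + (2 * m) * (κ y - m - Lap h φ y)) μ :=
      (integrable_const _).add hi
    simp only [h1]
    rw [integral_add hj (hI hrr), integral_add (integrable_const _) hi, integral_const, integral_const_mul, hr0,
      smul_eq_mul]
    have h2 : μ.real univ * m ^ 2 = (∫ y, κ y ∂μ) ^ 2 / μ.real univ := by
      rw [← hmV]
      field_simp
    rw [h2]
    linarith
  · have hG : Sm E (Grd h φ φ) := Circ.sm_grd h hφ hφ
    have h1 : ∀ y, φ y * κ y = m * φ y + φ y * Lap h φ y +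
        φ y * (κ y - m - Lap h φ y) := by
      intro y
      ring
    have i1 : Integrable (fun y => m * φ y) μ := (hI hφ).const_mul _
    have i2 : Integrable (fun y => φ y * Lap h φ y) μ := hI (sm_mul hφ hL)
    have i3 : Integrable (fun y => φ y * (κ y - m - Lap h φ y)) μ := hI (sm_mul hφ hr)
    have h2 : ∫ y, φ y * κ y ∂μ = ∫ y, φ y * Lap h φ y ∂μ +
        ∫ y, φ y * (κ y - m - Lap h φ y) ∂μ := by
      have i12 : Integrable (fun y => m * φ y + φ y * Lap h φ y) μ := i1.add i2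
      simp only [h1]
      rw [integral_add i12 i3, integral_add i1 i2, integral_const_mul, h0, mul_zero,
        zero_add]
    have h3 := int_grd hμ hφ hφ
    have h4 : 2 * ∫ y, φ y * (κ y - m - Lap h φ y) ∂μ ≤
        C⁻¹ * ∫ y, φ y ^ 2 ∂μ +
          C * ∫ y, (κ y - m - Lap h φ y) * (κ y - m - Lap h φ y) ∂μ := by
      have i4 : Integrable (fun y => C⁻¹ * φ y ^ 2) μ := by
        have h5 : (fun y => C⁻¹ * φ y ^ 2) = fun y => C⁻¹ * (φ y * φ y) := by
          funext y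
          rw [pow_two]
        rw [h5]
        exact (hI (sm_mul hφ hφ)).const_mul _
      have i5 : Integrable (fun y => C * ((κ y - m - Lap h φ y) * (κ y - m - Lap h φ y))) μ :=
        (hI hrr).const_mul _
      rw [← integral_const_mul, ← integral_const_mul, ← integral_const_mul,
        ← integral_add i4 i5]
      refine integral_mono (i3.const_mul _) (i4.add i5) fun y => ?_
      have h6 : 0 ≤ C⁻¹ * (φ y - C * (κ y - m - Lap h φ y)) ^ 2 :=
        mul_nonneg (inv_nonneg.2 hC.le) (sq_nonneg _)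
      have h7 : C⁻¹ * (φ y - C * (κ y - m - Lap h φ y)) ^ 2 =
          C⁻¹ * φ y ^ 2 + C * ((κ y - m - Lap h φ y) * (κ y - m - Lap h φ y)) -
            2 * (φ y * (κ y - m - Lap h φ y)) := by
        field_simp
        ring
      change 2 * (φ y * (κ y - m - Lap h φ y)) ≤
        C⁻¹ * φ y ^ 2 + C * ((κ y - m - Lap h φ y) * (κ y - m - Lap h φ y))
      linarith
    have h5 : C⁻¹ * ∫ y, φ y ^ 2 ∂μ ≤ ∫ y, Grd h φ φ y ∂μ := by
      rw [inv_mul_le_iff₀ hC]
      exact hP φ hφ h0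
    have h6 : C * ∫ y, (κ y - m - Lap h φ y) * (κ y - m - Lap h φ y) ∂μ ≤ C * η :=
      mul_le_mul_of_nonneg_left hr2 hC.le
    rw [h2]
    linarith

/-- The inequality of DeWitt and York: `weak_K`, `dewitt_step`, `exists_test_fun`, `η → 0`. -/
theorem dewitt (hd : 0 < finrank ℝ E)
    (hμ : IsRVol h μ) (hlam : lam ≤ 0)
    (hE : ∀ y, ric (coeff h y) (extChartAt 𝓘(ℝ, E) y y) = lam • cof h y)
    {K : M → Matrix (Fin (finrank ℝ E)) (Fin (finrank ℝ E)) ℝ}
    {ι κ : Type} [Fintype ι] [Fintype κ] {s : ι → ℝ} {w : ι → M → ℝ} {a b : κ → M → ℝ}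
    (hw : ∀ i, Sm E (w i)) (ha : ∀ j, Sm E (a j)) (hb : ∀ j, Sm E (b j))
    (hK : ∀ y, K y = ∑ i, s i • dd E (w i) (w i) y +
      ∑ j, ((2 * a j y) • hs h (b j) y + (2 : ℝ) • dd E (a j) (b j) y))
    {c : ℝ} (hc : ∀ y, ∑ i, s i * DS h (w i) y = c) :
    ∫ y, (trM (cof h y) (K y) ^ 2 - ipM (cof h y) (K y) (K y)) ∂μ ≤
      (1 - 1 / (finrank ℝ E : ℝ)) * (∫ y, trM (cof h y) (K y) ∂μ) ^ 2 / μ.real univ := by
  obtain ⟨C, hC, hT⟩ := exists_test_fun hd hμ
  have hTen : Ten E K := ten_K h hw ha hb hK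
  have hn : (0 : ℝ) ≤ 1 - 1 / (finrank ℝ E : ℝ) := by
    have h1 : (1 : ℝ) ≤ finrank ℝ E := by exact_mod_cast hd
    have h2 : 1 / (finrank ℝ E : ℝ) ≤ 1 := by
      rw [div_le_one (by linarith)]
      exact h1
    linarith
  have hA : 0 ≤ (1 - 1 / (finrank ℝ E : ℝ)) - lam * C := by nlinarith
  refine le_of_forall_pos_le_add fun ε hε => ?_
  set η : ℝ := ε / ((1 - 1 / (finrank ℝ E : ℝ)) - lam * C + 1) with hη
  have hη0 : 0 < η := div_pos hε (by linarith)
  obtain ⟨φ, hφ, h0, h1, h2⟩ := hT _ (Ten.tr h hTen) η hη0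
  have h3 := dewitt_step hd hμ hE hTen hφ (weak_K hμ hE hw ha hb hK hc hφ h0)
  have h4 := mul_le_mul_of_nonneg_left h1 hn
  have h5 : -lam * (2 * ∫ y, φ y * trM (cof h y) (K y) ∂μ + ∫ y, Grd h φ φ y ∂μ) ≤
      -lam * (C * η) := mul_le_mul_of_nonneg_left h2 (by linarith)
  have h6 : ((1 - 1 / (finrank ℝ E : ℝ)) - lam * C) * η ≤ ε := by
    have h7 : ((1 - 1 / (finrank ℝ E : ℝ)) - lam * C + 1) * η = ε := by
      rw [hη, mul_comm]
      exact div_mul_cancel₀ _ (by linarith : (1 - 1 / (finrank ℝ E : ℝ)) - lam * C + 1 ≠ 0)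
    nlinarith
  rw [mul_div_assoc]
  linarith

end Pool.Agent.Lib.MP_df705a_gt.Coll.T
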