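import Pool.Agent.Lib.MP_df705a_gt.Coll.T.V7
import Pool.Agent.Lib.MP_df705a_gt.Coll.T.W7
import Pool.Agent.Lib.MP_df705a_gt.Coll.T.RF

/-!
# Interface T: tensor calculus on a closed connected manifold
-/

open scoped Manifold ContDiff Topology
open Set Bundle Module Filter MeasureTheory

noncomputable section

namespace Pool.Agent.Lib.MP_df705a_gt.Coll

open Pool.Agent.Lib.MP_df705a_gt.Twist Pool.Agent.Lib.MP_df705a_gt.Perm
open Pool.Agent.Lib.MP_df705a_gt.Circ (cf Para)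

variable {E : Type*} [NormedAddCommGroup E] [NormedSpace ℝ E] [FiniteDimensional ℝ E]
  {M : Type*} [TopologicalSpace M] [ChartedSpace E M] [IsManifold 𝓘(ℝ, E) ∞ M]

/-- The linearization of the scalar curvature. -/
theorem var_scal {h : ℝ → Met E M}
    (hsm : ∀ (z : M), ∀ y ∈ (extChartAt 𝓘(ℝ, E) z).target, ∀ i j,
      ContDiffAt ℝ ∞ (fun p : ℝ × E => coeff (h p.1) z p.2 i j) (0, y))
    {ι : Type} [Fintype ι] {s : ι → ℝ} {w : ι → M → ℝ} (hw : ∀ i, Sm E (w i))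
    (hder : ∀ y i j, deriv (fun t => cof (h t) y i j) 0 =
      ∑ a, s a * dd E (w a) (w a) y i j) (y : M) :
    HasDerivAt (fun t => Scal (h t) y) (∑ a, s a * DS (h 0) (w a) y) 0 :=
  T.var_scal hsm hw hder y

/-- The inequality of DeWitt and York on a closed Einstein manifold with nonpositive constant. -/
theorem dewitt [MeasurableSpace E] [BorelSpace E] [MeasurableSpace M] [BorelSpace M]
    [CompactSpace M] [T2Space M] [ConnectedSpace M] (hd : 0 < finrank ℝ E)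
    {h : Met E M} {μ : Measure M} (hμ : IsRVol h μ) {lam : ℝ} (hlam : lam ≤ 0)
    (hE : ∀ y, ric (coeff h y) (extChartAt 𝓘(ℝ, E) y y) = lam • cof h y)
    {K : M → Matrix (Fin (finrank ℝ E)) (Fin (finrank ℝ E)) ℝ}
    {ι κ : Type} [Fintype ι] [Fintype κ] {s : ι → ℝ} {w : ι → M → ℝ} {a b : κ → M → ℝ}
    (hw : ∀ i, Sm E (w i)) (ha : ∀ j, Sm E (a j)) (hb : ∀ j, Sm E (b j))
    (hK : ∀ y, K y = ∑ i, s i • dd E (w i) (w i) y +
      ∑ j, ((2 * a j y) • hs h (b j) y + (2 : ℝ) • dd E (a j) (b j) y))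
    {c : ℝ} (hc : ∀ y, ∑ i, s i * DS h (w i) y = c) :
    ∫ y, (trM (cof h y) (K y) ^ 2 - ipM (cof h y) (K y) (K y)) ∂μ ≤
      (1 - 1 / (finrank ℝ E : ℝ)) * (∫ y, trM (cof h y) (K y) ∂μ) ^ 2 / μ.real univ :=
  T.dewitt hd hμ hlam hE hw ha hb hK hc

/-- On a closed manifold without metrics of positive scalar curvature a scalar flat metric is Ricci
flat. -/
theorem ricci_flat [CompactSpace M] [T2Space M] [ConnectedSpace M] (hd : 2 ≤ finrank ℝ E)
    {h : Met E M} (hS : ∀ y, Scal h y = 0) (hno : ∀ h' : Met E M, ¬ PosScal h')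
    {E' : Type*} [NormedAddCommGroup E'] [NormedSpace ℝ E'] [FiniteDimensional ℝ E']
    {σ : E' → M} {q : E'} (hσ : Para E σ q) : ric (cf h σ) q = 0 :=
  T.ricci_flat hd hS hno hσ

end Pool.Agent.Lib.MP_df705a_gt.Coll
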