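import Pool.Agent.Lib.MP_df705a_gt.Mg.G061
import Pool.Agent.Lib.MP_df705a_gt.Mg.G059
import Pool.Agent.Lib.MP_df705a_gt.Mg.G063
import Pool.Agent.Lib.MP_df705a_gt.Mg.G064

/-!
# Module T, B1: the formula of Bochner in coordinates
-/

open scoped Manifold ContDiff Topology
open Set Bundle Module Filter MeasureTheory

noncomputable section

set_option linter.unusedSectionVars false

namespace Pool.Agent.Lib.MP_df705a_gt.Coll.T

open Pool.Agent.Lib.MP_df705a_gt.Twist Pool.Agent.Lib.MP_df705a_gt.Perm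
open Pool.Agent.Lib.MP_df705a_gt.Circ (cf Para)

variable {E : Type*} [NormedAddCommGroup E] [NormedSpace ℝ E] [FiniteDimensional ℝ E]
  {h : Curv.Coeff E} {x : E}

namespace B1Aux

variable {τ : E → E} {y : E}

theorem det_ne (hd : (fderiv ℝ τ y).det ≠ 0) : (mat (fderiv ℝ τ y)).det ≠ 0 := by
  rw [det_mat]
  exact hd

theorem symm_near (H : RM h (τ y)) : ∀ᶠ x in 𝓝 (τ y), ∀ i j, h x i j = h x j i := by
  filter_upwards [H.nhds] with z hz
  exact fun i j => hz.symm i j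

theorem hess_eq (hτ : ContDiff ℝ ∞ τ) (hd : (fderiv ℝ τ y).det ≠ 0) (H : RM h (τ y))
    {u : E → ℝ} (hu : SmF u (τ y)) :
    Curv.covHess (pull h τ) (u ∘ τ) y =
      (mat (fderiv ℝ τ y)).transpose * Curv.covHess h u (τ y) * mat (fderiv ℝ τ y) :=
  covHess_pull hτ.contDiffAt hd H.self.1 (symm_near H) H.det
    (Eventually.of_forall fun _ => rfl) hu.self

theorem ric_eq (hτ : ContDiff ℝ ∞ τ) (hd : (fderiv ℝ τ y).det ≠ 0) (H : RM h (τ y)) :
    Coll.ric (pull h τ) y =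
      (mat (fderiv ℝ τ y)).transpose * Coll.ric h (τ y) * mat (fderiv ℝ τ y) :=
  ric_pull hτ.contDiffAt hd H.self.1 (symm_near H) H.det (Eventually.of_forall fun _ => rfl)

theorem dd_eq (hτ : ContDiff ℝ ∞ τ) {u v : E → ℝ} (hu : SmF u (τ y)) (hv : SmF v (τ y)) :
    ddC (u ∘ τ) (v ∘ τ) y =
      (mat (fderiv ℝ τ y)).transpose * ddC u v (τ y) * mat (fderiv ℝ τ y) :=
  ddC_pull (hτ.contDiffAt.differentiableAt (by simp)) (hu.self.differentiableAt (by simp))
    (hv.self.differentiableAt (by simp))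

theorem ip_eq (hd : (fderiv ℝ τ y).det ≠ 0)
    (S T : Matrix (Fin (finrank ℝ E)) (Fin (finrank ℝ E)) ℝ) :
    ipM (pull h τ y) ((mat (fderiv ℝ τ y)).transpose * S * mat (fderiv ℝ τ y))
      ((mat (fderiv ℝ τ y)).transpose * T * mat (fderiv ℝ τ y)) = ipM (h (τ y)) S T :=
  ipM_conj (det_ne hd) _ _ _

theorem lap_grad (hτ : ContDiff ℝ ∞ τ) (hd : (fderiv ℝ τ y).det ≠ 0) (H : RM h (τ y))
    {u v : E → ℝ} (hu : SmF u (τ y)) (hv : SmF v (τ y)) :
    lapC (pull h τ) (gradC (pull h τ) (u ∘ τ) (v ∘ τ)) y = lapC h (gradC h u v) (τ y) := by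
  rw [g3_lapC_congr (pull_grad hτ hd H hu hv)]
  exact (pull_lap hτ hd H (smF_grad H hu hv)).self_of_nhds

theorem grad_lap (hτ : ContDiff ℝ ∞ τ) (hd : (fderiv ℝ τ y).det ≠ 0) (H : RM h (τ y))
    {u v : E → ℝ} (hu : SmF u (τ y)) (hv : SmF v (τ y)) :
    gradC (pull h τ) (u ∘ τ) (lapC (pull h τ) (v ∘ τ)) y = gradC h u (lapC h v) (τ y) := by
  rw [g3_gradC_congr (EventuallyEq.refl _ _) (pull_lap hτ hd H hv)]
  exact (pull_grad hτ hd H hu (smF_lap H hv)).self_of_nhds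

theorem grad_grad (hτ : ContDiff ℝ ∞ τ) (hd : (fderiv ℝ τ y).det ≠ 0) (H : RM h (τ y))
    {u v w : E → ℝ} (hu : SmF u (τ y)) (hv : SmF v (τ y)) (hw : SmF w (τ y)) :
    gradC (pull h τ) (u ∘ τ) (gradC (pull h τ) (v ∘ τ) (w ∘ τ)) y =
      gradC h u (gradC h v w) (τ y) := by
  rw [g3_gradC_congr (EventuallyEq.refl _ _) (pull_grad hτ hd H hv hw)]
  exact (pull_grad hτ hd H hu (smF_grad H hv hw)).self_of_nhds

end B1Aux

open B1Aux in
/-- `exists_normal`, `Nrm.bochner` for `pull h τ`, `u ∘ τ`, `v ∘ τ` and the laws `covHess_pull`,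
`ric_pull`, `ddC_pull`, `pull_lap`, `pull_grad`, `ipM_conj`. -/
theorem bochnerC (H : RM h x) {u v : E → ℝ} (hu : SmF u x) (hv : SmF v x) :
    ipM (h x) (Curv.covHess h u x) (Curv.covHess h v x) =
      (1 / 2) * lapC h (gradC h u v) x - (1 / 2) * gradC h u (lapC h v) x -
      (1 / 2) * gradC h v (lapC h u) x - ipM (h x) (ric h x) (ddC u v x) := by
  obtain ⟨τ, hτ, rfl, hd, N⟩ := exists_normal H
  have key := N.bochner (pull_smF hτ hu).self (pull_smF hτ hv).self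
  rw [hess_eq hτ hd H hu, hess_eq hτ hd H hv, ip_eq hd, lap_grad hτ hd H hu hv,
    grad_lap hτ hd H hu hv, grad_lap hτ hd H hv hu, ric_eq hτ hd H, dd_eq hτ hu hv,
    ip_eq hd] at key
  exact key

open B1Aux in
theorem hess_grdC (H : RM h x) {φ u v : E → ℝ} (hφ : SmF φ x) (hu : SmF u x) (hv : SmF v x) :
    ipM (h x) (Curv.covHess h φ x) (ddC u v x) =
      (1 / 2) * (gradC h u (gradC h φ v) x + gradC h v (gradC h φ u) x -
        gradC h φ (gradC h u v) x) := by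
  obtain ⟨τ, hτ, rfl, hd, N⟩ := exists_normal H
  have key := N.hess_grd (pull_smF hτ hφ).self (pull_smF hτ hu).self (pull_smF hτ hv).self
  rw [hess_eq hτ hd H hφ, dd_eq hτ hu hv, ip_eq hd, grad_grad hτ hd H hu hφ hv,
    grad_grad hτ hd H hv hφ hu, grad_grad hτ hd H hφ hu hv] at key
  exact key

open B1Aux in
theorem ric_symmC (H : RM h x) (i j : Fin (finrank ℝ E)) : ric h x i j = ric h x j i := by
  obtain ⟨τ, hτ, rfl, hd, N⟩ := exists_normal H
  have hA : IsUnit (mat (fderiv ℝ τ 0)).det := (det_ne hd).isUnit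
  have hA' : IsUnit (mat (fderiv ℝ τ 0)).transpose.det := by
    rw [Matrix.det_transpose]
    exact hA
  have h1 : (Coll.ric (pull h τ) 0).transpose = Coll.ric (pull h τ) 0 := by
    ext i j
    exact N.ric_symm j i
  rw [ric_eq hτ hd H, Matrix.transpose_mul, Matrix.transpose_mul, Matrix.transpose_transpose,
    ← Matrix.mul_assoc] at h1
  have h2 := congrArg (fun X => (mat (fderiv ℝ τ 0)).transpose⁻¹ * X * (mat (fderiv ℝ τ 0))⁻¹) h1
  simp only [Matrix.mul_assoc] at h2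
  rw [Matrix.mul_nonsing_inv _ hA, Matrix.mul_one, Matrix.mul_one,
    Matrix.nonsing_inv_mul_cancel_left _ _ hA', Matrix.nonsing_inv_mul_cancel_left _ _ hA'] at h2
  exact (congrFun (congrFun h2 i) j).symm

end Pool.Agent.Lib.MP_df705a_gt.Coll.T
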