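import Pool.Agent.Lib.MP_df705a_gt.Coll.T.B1

/-!
# Module T, B2: the formula of Bochner on a manifold
-/

open scoped Manifold ContDiff Topology
open Set Bundle Module Filter MeasureTheory

noncomputable section

set_option linter.unusedSectionVars false

namespace Pool.Agent.Lib.MP_df705a_gt.Coll.T

open Pool.Agent.Lib.MP_df705a_gt.Twist Pool.Agent.Lib.MP_df705a_gt.Perm
open Pool.Agent.Lib.MP_df705a_gt.Circ (cf Para)

variable {E : Type*} [NormedAddCommGroup E] [NormedSpace ℝ E] [FiniteDimensional ℝ E]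
  {M : Type*} [TopologicalSpace M] [ChartedSpace E M] [IsManifold 𝓘(ℝ, E) ∞ M]
  {h : Met E M} {u v φ : M → ℝ}

theorem coeff_rm (h : Met E M) (z : M) {y : E} (hy : y ∈ (extChartAt 𝓘(ℝ, E) z).target) :
    RM (coeff h z) y := by
  filter_upwards [(isOpen_extChartAt_target (I := 𝓘(ℝ, E)) z).mem_nhds hy] with y' hy'
  exact ⟨fun i j => g3_coeff_smooth h z hy' i j,
    chartMetric_posDef 𝓘(ℝ, E) (finBasis ℝ E) h z hy'⟩

theorem rd_smF (hu : Sm E u) (z : M) {y : E} (hy : y ∈ (extChartAt 𝓘(ℝ, E) z).target) :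
    SmF (rd E z u) y := by
  filter_upwards [(isOpen_extChartAt_target (I := 𝓘(ℝ, E)) z).mem_nhds hy] with y' hy'
  exact g3_rd_smooth hu z hy'

/-- `grd_chart` (Perm/Chart.lean). -/
theorem rd_grd (hu : Sm E u) (hv : Sm E v) (z : M) {y : E}
    (hy : y ∈ (extChartAt 𝓘(ℝ, E) z).target) :
    rd E z (Grd h u v) =ᶠ[𝓝 y] gradC (coeff h z) (rd E z u) (rd E z v) := by
  filter_upwards [(isOpen_extChartAt_target (I := 𝓘(ℝ, E)) z).mem_nhds hy] with y' hy'
  exact (grd_chart h hu hv z hy').symm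

theorem rd_lap (hu : Sm E u) (z : M) {y : E} (hy : y ∈ (extChartAt 𝓘(ℝ, E) z).target) :
    rd E z (Lap h u) =ᶠ[𝓝 y] lapC (coeff h z) (rd E z u) := by
  filter_upwards [(isOpen_extChartAt_target (I := 𝓘(ℝ, E)) z).mem_nhds hy] with y' hy'
  exact (lap_chart h hu z hy').symm

theorem bochner (hu : Sm E u) (hv : Sm E v) (y : M) :
    ipM (cof h y) (hs h u y) (hs h v y) =
      (1 / 2) * Lap h (Grd h u v) y - (1 / 2) * Grd h u (Lap h v) y -
      (1 / 2) * Grd h v (Lap h u) y - Rc h u v y := by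
  have hy : extChartAt 𝓘(ℝ, E) y y ∈ (extChartAt 𝓘(ℝ, E) y).target := mem_extChartAt_target y
  have h1 := bochnerC (coeff_rm h y hy) (rd_smF hu y hy) (rd_smF hv y hy)
  have h2 : Lap h (Grd h u v) y = lapC (coeff h y) (gradC (coeff h y) (rd E y u) (rd E y v))
      (extChartAt 𝓘(ℝ, E) y y) := g3_lapC_congr (rd_grd hu hv y hy)
  have h3 : Grd h u (Lap h v) y = gradC (coeff h y) (rd E y u) (lapC (coeff h y) (rd E y v))
      (extChartAt 𝓘(ℝ, E) y y) := g3_gradC_congr EventuallyEq.rfl (rd_lap hv y hy)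
  have h4 : Grd h v (Lap h u) y = gradC (coeff h y) (rd E y v) (lapC (coeff h y) (rd E y u))
      (extChartAt 𝓘(ℝ, E) y y) := g3_gradC_congr EventuallyEq.rfl (rd_lap hu y hy)
  rw [h2, h3, h4]
  exact h1

theorem hess_grd (hφ : Sm E φ) (hu : Sm E u) (hv : Sm E v) (y : M) :
    ipM (cof h y) (hs h φ y) (dd E u v y) =
      (1 / 2) * (Grd h u (Grd h φ v) y + Grd h v (Grd h φ u) y - Grd h φ (Grd h u v) y) := by
  have hy : extChartAt 𝓘(ℝ, E) y y ∈ (extChartAt 𝓘(ℝ, E) y).target := mem_extChartAt_target y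
  have h1 := hess_grdC (coeff_rm h y hy) (rd_smF hφ y hy) (rd_smF hu y hy) (rd_smF hv y hy)
  have h2 : Grd h u (Grd h φ v) y = gradC (coeff h y) (rd E y u)
      (gradC (coeff h y) (rd E y φ) (rd E y v)) (extChartAt 𝓘(ℝ, E) y y) :=
    g3_gradC_congr EventuallyEq.rfl (rd_grd hφ hv y hy)
  have h3 : Grd h v (Grd h φ u) y = gradC (coeff h y) (rd E y v)
      (gradC (coeff h y) (rd E y φ) (rd E y u)) (extChartAt 𝓘(ℝ, E) y y) :=
    g3_gradC_congr EventuallyEq.rfl (rd_grd hφ hu y hy)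
  have h4 : Grd h φ (Grd h u v) y = gradC (coeff h y) (rd E y φ)
      (gradC (coeff h y) (rd E y u) (rd E y v)) (extChartAt 𝓘(ℝ, E) y y) :=
    g3_gradC_congr EventuallyEq.rfl (rd_grd hu hv y hy)
  rw [h2, h3, h4]
  exact h1

end Pool.Agent.Lib.MP_df705a_gt.Coll.T
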