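import Pool.Agent.Lib.MP_df705a_gt.Mg.G059

/-!
# Module T, R1: construction of metrics
-/

open scoped Manifold ContDiff Topology
open Set Bundle Module Filter MeasureTheory

noncomputable section

set_option linter.unusedSectionVars false

namespace Pool.Agent.Lib.MP_df705a_gt.Coll.T

open Pool.Agent.Lib.MP_df705a_gt.Twist Pool.Agent.Lib.MP_df705a_gt.Perm
open Pool.Agent.Lib.MP_df705a_gt.Circ (cf Para)

variable {E : Type*} [NormedAddCommGroup E] [NormedSpace ℝ E] [FiniteDimensional ℝ E]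
  {M : Type*} [TopologicalSpace M] [ChartedSpace E M] [IsManifold 𝓘(ℝ, E) ∞ M]

private theorem R1_lower (B : E →L[ℝ] E →L[ℝ] ℝ) (hp : ∀ u, u ≠ 0 → 0 < B u u) :
    ∃ c : ℝ, 0 < c ∧ ∀ v, c * ‖v‖ ^ 2 ≤ B v v := by
  have : ProperSpace E := FiniteDimensional.proper_real E
  by_cases hne : (Metric.sphere (0 : E) 1).Nonempty
  · have hcont : Continuous fun v : E => B v v := B.continuous.clm_apply continuous_id
    obtain ⟨v₀, hv₀, hmin⟩ := (isCompact_sphere (0 : E) 1).exists_isMinOn hne hcont.continuousOn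
    have hv1 : ‖v₀‖ = 1 := by simpa using hv₀
    have hv0 : v₀ ≠ 0 := by
      intro h
      rw [h, norm_zero] at hv1
      exact zero_ne_one hv1
    refine ⟨B v₀ v₀, hp v₀ hv0, fun v => ?_⟩
    by_cases hv : v = 0
    · rw [hv]; simp
    · have hn : 0 < ‖v‖ := norm_pos_iff.2 hv
      have h1 : ‖v‖⁻¹ • v ∈ Metric.sphere (0 : E) 1 := by
        rw [mem_sphere_zero_iff_norm, norm_smul, norm_inv, norm_norm, inv_mul_cancel₀ hn.ne']
      have h2 : B v₀ v₀ ≤ B (‖v‖⁻¹ • v) (‖v‖⁻¹ • v) := hmin h1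
      rw [map_smul, map_smul, _root_.smul_apply, smul_eq_mul, smul_eq_mul] at h2
      have h3 : ‖v‖⁻¹ * (‖v‖⁻¹ * B v v) * ‖v‖ ^ 2 = B v v := by
        field_simp
      calc B v₀ v₀ * ‖v‖ ^ 2 ≤ ‖v‖⁻¹ * (‖v‖⁻¹ * B v v) * ‖v‖ ^ 2 :=
            mul_le_mul_of_nonneg_right h2 (sq_nonneg _)
        _ = B v v := h3
  · refine ⟨1, one_pos, fun v => ?_⟩
    have hv : v = 0 := by
      by_contra hv
      have hn : 0 < ‖v‖ := norm_pos_iff.2 hv
      refine hne ⟨‖v‖⁻¹ • v, ?_⟩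
      rw [mem_sphere_zero_iff_norm, norm_smul, norm_inv, norm_norm, inv_mul_cancel₀ hn.ne']
    rw [hv]; simp

private theorem R1_bdd (B : E →L[ℝ] E →L[ℝ] ℝ) (hp : ∀ u, u ≠ 0 → 0 < B u u) :
    Bornology.IsVonNBounded ℝ {v : E | B v v < 1} := by
  obtain ⟨c, hc, h⟩ := R1_lower B hp
  rw [NormedSpace.isVonNBounded_iff, isBounded_iff_forall_norm_le]
  refine ⟨1 + c⁻¹, fun v hv => ?_⟩
  have h1 : c * ‖v‖ ^ 2 < 1 := (h v).trans_lt hv
  have h2 : ‖v‖ ^ 2 < c⁻¹ := by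
    rw [← one_div, lt_div_iff₀ hc]
    linarith
  nlinarith [norm_nonneg v, sq_nonneg (‖v‖ - 1)]

/-- the bilinear forms in the chart at `z` -/
private def R1Th (Q : ∀ x : M, TangentSpace 𝓘(ℝ, E) x →L[ℝ] TangentSpace 𝓘(ℝ, E) x →L[ℝ] ℝ)
    (z : M) (y : E) : E →L[ℝ] E →L[ℝ] ℝ :=
  let T : E →L[ℝ] E := mfderiv 𝓘(ℝ, E) 𝓘(ℝ, E) (extChartAt 𝓘(ℝ, E) z).symm y
  let G : E →L[ℝ] E →L[ℝ] ℝ := Q ((extChartAt 𝓘(ℝ, E) z).symm y)
  G.bilinearComp T T

private theorem R1_clm {W : Type*} [NormedAddCommGroup W] [NormedSpace ℝ W]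
    {f : E → E →L[ℝ] W} {y : E} (h : ∀ v, ContDiffAt ℝ ∞ (fun x => f x v) y) :
    ContDiffAt ℝ ∞ f y := by
  let b := finBasis ℝ E
  have h1 : ∀ x, f x = ∑ i, (LinearMap.toContinuousLinearMap (b.coord i)).smulRight (f x (b i)) := by
    intro x
    ext v
    conv_lhs => rw [← b.sum_repr v]
    rw [map_sum, sum_apply]
    refine Finset.sum_congr rfl fun i _ => ?_
    rw [map_smul]
    rfl
  have h2 : f = fun x => ∑ i, (LinearMap.toContinuousLinearMap (b.coord i)).smulRight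
      (f x (b i)) := funext h1
  rw [h2]
  refine ContDiffAt.sum fun i _ => ?_
  exact contDiffAt_const.smulRight (h (b i))

/-- (Same statement as `exists_met` in IZ.lean.)  Continuity and von Neumann boundedness: finite
dimension; smoothness of the section: in the trivialization of the tangent bundle at `z`
(compare `Perm/Conf.lean`, `exists_conf`, and `Twist/Law.lean`, `inner_smooth`). -/
theorem exists_met
    (Q : ∀ x : M, TangentSpace 𝓘(ℝ, E) x →L[ℝ] TangentSpace 𝓘(ℝ, E) x →L[ℝ] ℝ)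
    (hs : ∀ x u v, Q x u v = Q x v u) (hp : ∀ x u, u ≠ 0 → 0 < Q x u u)
    (hsm : ∀ (z : M) (v w : E), ContDiffAt ℝ ∞ (fun y : E =>
      Q ((extChartAt 𝓘(ℝ, E) z).symm y)
        (mfderiv 𝓘(ℝ, E) 𝓘(ℝ, E) (extChartAt 𝓘(ℝ, E) z).symm y v)
        (mfderiv 𝓘(ℝ, E) 𝓘(ℝ, E) (extChartAt 𝓘(ℝ, E) z).symm y w)) (extChartAt 𝓘(ℝ, E) z z)) :
    ∃ g : Met E M, ∀ x u v, g.inner x u v = Q x u v := by
  refine ⟨⟨Q, hs, hp, fun x => ?_, fun z => ?_⟩, fun x u v => rfl⟩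
  · exact R1_bdd (E := E) (Q x) (hp x)
  · refine (contMDiffAt_hom_bundle _).2 ⟨contMDiffAt_id, ?_⟩
    have hTh : ContDiffAt ℝ ∞ (R1Th Q z) (extChartAt 𝓘(ℝ, E) z z) :=
      R1_clm fun v => R1_clm fun w => hsm z v w
    have h1 : ContMDiffAt 𝓘(ℝ, E) 𝓘(ℝ, E →L[ℝ] E →L[ℝ] ℝ) ∞
        (fun x => R1Th Q z (extChartAt 𝓘(ℝ, E) z x)) z := by
      have h2 : ContMDiffAt 𝓘(ℝ, E) 𝓘(ℝ, E) ∞ (extChartAt 𝓘(ℝ, E) z) z := contMDiffAt_extChartAt
      exact ContMDiffAt.comp z hTh.contMDiffAt h2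
    refine h1.congr_of_eventuallyEq ?_
    filter_upwards [(chartAt E z).open_source.mem_nhds (mem_chart_source E z)] with x hx
    have hb : x ∈ (trivializationAt E (TangentSpace 𝓘(ℝ, E)) z).baseSet := by
      rw [TangentBundle.trivializationAt_baseSet]
      exact hx
    have hx' : x ∈ (extChartAt 𝓘(ℝ, E) z).source := by
      rw [extChartAt_source]
      exact hx
    have hT : ∀ v : E, (trivializationAt E (TangentSpace 𝓘(ℝ, E)) z).symm x v =
        mfderiv 𝓘(ℝ, E) 𝓘(ℝ, E) (extChartAt 𝓘(ℝ, E) z).symm (extChartAt 𝓘(ℝ, E) z x) v := by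
      intro v
      have h3 := TangentBundle.symmL_trivializationAt (I := 𝓘(ℝ, E)) hx
      rw [ModelWithCorners.range_eq_univ, mfderivWithin_univ] at h3
      have h4 := congrArg (fun L : E →L[ℝ] TangentSpace 𝓘(ℝ, E) x => L v) h3
      have h4' : (Trivialization.symmL ℝ (trivializationAt E (TangentSpace 𝓘(ℝ, E)) z) x) v =
        (trivializationAt E (TangentSpace 𝓘(ℝ, E)) z).symm x v := by
        simp only [Trivialization.symmL_apply, hb]
      rw [← h4']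
      exact h4
    ext v w
    rw [inCoordinates_apply_eq₂ hb hb (Set.mem_univ _)]
    have h5 : R1Th Q z (extChartAt 𝓘(ℝ, E) z x) v w =
        Q ((extChartAt 𝓘(ℝ, E) z).symm (extChartAt 𝓘(ℝ, E) z x))
        (mfderiv 𝓘(ℝ, E) 𝓘(ℝ, E) (extChartAt 𝓘(ℝ, E) z).symm (extChartAt 𝓘(ℝ, E) z x) v)
        (mfderiv 𝓘(ℝ, E) 𝓘(ℝ, E) (extChartAt 𝓘(ℝ, E) z).symm (extChartAt 𝓘(ℝ, E) z x) w) := rfl
    rw [h5]
    have h6 : ∀ (x' : M) (a b : TangentSpace 𝓘(ℝ, E) x') (a' b' : TangentSpace 𝓘(ℝ, E) x),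
        x' = x → (a : E) = (a' : E) → (b : E) = (b' : E) → Q x a' b' = Q x' a b := by
      rintro x' a b a' b' rfl h7 h8
      have h7' : a = a' := h7
      have h8' : b = b' := h8
      rw [h7', h8']
    have h7 : ∀ c : ℝ, (Trivialization.linearMapAt ℝ
        (trivializationAt ℝ (fun _ : M => ℝ) z) x) c = c := by
      intro c
      simp only [Trivial.fiberBundle_trivializationAt', Trivial.linearMapAt_trivialization,
        LinearMap.id_coe, id_eq]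
    refine (h7 _).trans ?_
    exact h6 _ _ _ _ _ ((extChartAt 𝓘(ℝ, E) z).left_inv hx') (hT v).symm (hT w).symm

end Pool.Agent.Lib.MP_df705a_gt.Coll.T
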