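import Pool.Agent.Lib.MP_df705a_gt.Mg.G059
import Pool.Agent.Lib.MP_df705a_gt.Mg.G013

/-!
# Module T, R2: metrics and functions with given values
-/

open scoped Manifold ContDiff Topology
open Set Bundle Module Filter MeasureTheory

noncomputable section

set_option linter.unusedSectionVars false

namespace Pool.Agent.Lib.MP_df705a_gt.Coll.T

open Pool.Agent.Lib.MP_df705a_gt.Twist Pool.Agent.Lib.MP_df705a_gt.Perm
open Pool.Agent.Lib.MP_df705a_gt.Circ (cf Para)

variable {E : Type*} [NormedAddCommGroup E] [NormedSpace ℝ E] [FiniteDimensional ℝ E]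
  {M : Type*} [TopologicalSpace M] [ChartedSpace E M] [IsManifold 𝓘(ℝ, E) ∞ M]

theorem met_ext {g g' : Met E M} (H : ∀ x u v, g.inner x u v = g'.inner x u v) : g = g' := by
  have h1 : g.inner = g'.inner := by
    funext x
    ext u v
    exact H x u v
  cases g
  cases g'
  congr

/-- A linear form in the chart at `y` multiplied by a bump function. -/
theorem exists_fun [T2Space M] (y : M) (ξ : Fin (finrank ℝ E) → ℝ) :
    ∃ w : M → ℝ, Sm E w ∧ ∀ i, pdv E w y i = ξ i := by
  obtain ⟨b⟩ : Nonempty (SmoothBumpFunction 𝓘(ℝ, E) y) := inferInstance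
  let L : E →L[ℝ] ℝ := LinearMap.toContinuousLinearMap ((finBasis ℝ E).constr ℝ ξ)
  have hL : ∀ i, L (finBasis ℝ E i) = ξ i := fun i => (finBasis ℝ E).constr_basis ℝ ξ i
  let w : M → ℝ := fun x => b x • L (extChartAt 𝓘(ℝ, E) y x)
  have h1 : ContMDiffOn 𝓘(ℝ, E) 𝓘(ℝ, ℝ) ∞ (fun x : M => L (extChartAt 𝓘(ℝ, E) y x))
      (chartAt E y).source := by
    have h2 : ContMDiffOn 𝓘(ℝ, E) 𝓘(ℝ, E) ∞ (extChartAt 𝓘(ℝ, E) y) (chartAt E y).source :=
      contMDiffOn_extChartAt
    exact L.contDiff.contMDiff.comp_contMDiffOn h2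
  have hw : Sm E w := b.contMDiff_smul h1
  refine ⟨w, hw, fun i => ?_⟩
  have hy : extChartAt 𝓘(ℝ, E) y y ∈ (extChartAt 𝓘(ℝ, E) y).target := mem_extChartAt_target y
  have h3 : rd E y w =ᶠ[𝓝 (extChartAt 𝓘(ℝ, E) y y)] L := by
    have h4 : ∀ᶠ x in 𝓝 y, b x = 1 := b.eventuallyEq_one
    have h5 : ContinuousAt (extChartAt 𝓘(ℝ, E) y).symm (extChartAt 𝓘(ℝ, E) y y) :=
      continuousAt_extChartAt_symm y
    have h6 : ∀ᶠ z in 𝓝 (extChartAt 𝓘(ℝ, E) y y), b ((extChartAt 𝓘(ℝ, E) y).symm z) = 1 := by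
      have h7 : Tendsto (extChartAt 𝓘(ℝ, E) y).symm (𝓝 (extChartAt 𝓘(ℝ, E) y y)) (𝓝 y) := by
        have h8 := h5.tendsto
        rwa [extChartAt_to_inv] at h8
      exact h7.eventually h4
    have h9 : (extChartAt 𝓘(ℝ, E) y).target ∈ 𝓝 (extChartAt 𝓘(ℝ, E) y y) :=
      extChartAt_target_mem_nhds y
    filter_upwards [h6, h9] with z hz1 hz2
    change b ((extChartAt 𝓘(ℝ, E) y).symm z) • L (extChartAt 𝓘(ℝ, E) y
      ((extChartAt 𝓘(ℝ, E) y).symm z)) = L z
    rw [hz1, one_smul, (extChartAt 𝓘(ℝ, E) y).right_inv hz2]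
  unfold pdv Curv.pd
  rw [h3.fderiv_eq, L.fderiv]
  exact hL i

/-- The differential of `w` at `x`. -/
def dif (w : M → ℝ) (x : M) (v : TangentSpace 𝓘(ℝ, E) x) : ℝ :=
  mfderiv 𝓘(ℝ, E) 𝓘(ℝ, ℝ) w x v

private theorem R2_cs (h : Met E M) (x : M) (X v : TangentSpace 𝓘(ℝ, E) x) :
    h.inner x X v ^ 2 ≤ h.inner x X X * h.inner x v v := by
  by_cases hv : v = 0
  · subst hv
    have h0 : h.inner x X (0 : TangentSpace 𝓘(ℝ, E) x) = 0 := map_zero _
    have h1 : h.inner x (0 : TangentSpace 𝓘(ℝ, E) x) (0 : TangentSpace 𝓘(ℝ, E) x) = 0 := map_zero _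
    rw [h0, h1]
    simp
  · have hc : 0 < h.inner x v v := h.pos x v hv
    have hnn : ∀ Y : TangentSpace 𝓘(ℝ, E) x, 0 ≤ h.inner x Y Y := by
      intro Y
      by_cases hY : Y = 0
      · subst hY
        exact (map_zero (h.inner x (0 : TangentSpace 𝓘(ℝ, E) x))).ge
      · exact (h.pos x Y hY).le
    have hs : h.inner x v X = h.inner x X v := h.symm x v X
    have h2 := hnn (h.inner x v v • X - h.inner x X v • v)
    have h3 : h.inner x (h.inner x v v • X - h.inner x X v • v)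
        (h.inner x v v • X - h.inner x X v • v) =
        h.inner x v v * (h.inner x X X * h.inner x v v - h.inner x X v ^ 2) := by
      generalize hc' : h.inner x v v = c
      generalize hb' : h.inner x X v = b
      have e1 : ∀ Z, h.inner x (c • X - b • v) Z = c * h.inner x X Z - b * h.inner x v Z := by
        intro Z
        have e2 : h.inner x (c • X - b • v) = c • h.inner x X - b • h.inner x v := by
          have e3 : h.inner x (c • X - b • v) = h.inner x (c • X) - h.inner x (b • v) :=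
            map_sub _ _ _
          have e4 : h.inner x (c • X) = c • h.inner x X := map_smul _ _ _
          have e5 : h.inner x (b • v) = b • h.inner x v := map_smul _ _ _
          rw [e3, e4, e5]
        rw [e2]
        rfl
      have e6 : ∀ Z : TangentSpace 𝓘(ℝ, E) x, h.inner x Z (c • X - b • v) =
          c * h.inner x Z X - b * h.inner x Z v := by
        intro Z
        have e7 : h.inner x Z (c • X - b • v) = h.inner x Z (c • X) - h.inner x Z (b • v) :=
          map_sub _ _ _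
        have e8 : h.inner x Z (c • X) = c • h.inner x Z X := map_smul _ _ _
        have e9 : h.inner x Z (b • v) = b • h.inner x Z v := map_smul _ _ _
        rw [e7, e8, e9]
        rfl
      rw [e1, e6, e6, hs, hb', hc']
      ring
    rw [h3] at h2
    exact sub_nonneg.1 (nonneg_of_mul_nonneg_right h2 hc)

/-- Cauchy-Schwarz for the covector `dw`: in the preferred chart at `x` (where `Grd h w w x =
∑ h^{ij} ∂_i w ∂_j w`), or with the gradient (`Circ.exists_riesz`, `Circ.grd_eq`, Circ/GrdSub.lean). -/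
theorem dw_sq_le (h : Met E M) {w : M → ℝ} (hw : Sm E w) (x : M) (v : TangentSpace 𝓘(ℝ, E) x) :
    dif w x v ^ 2 ≤ Grd h w w x * h.inner x v v := by
  obtain ⟨X, hX⟩ := Circ.GrdSub.exists_riesz h x (mfderiv 𝓘(ℝ, E) 𝓘(ℝ, ℝ) w x)
  have h1 := Circ.GrdSub.grd_eq h hw hw (p := x) (X := X) hX
  have h2 : Grd h w w x = h.inner x X X := by rw [h1]; exact (hX X).symm
  have h3 : dif w x v = h.inner x X v := (hX v).symm
  rw [h2, h3]
  exact R2_cs h x X v

/-- The differential of `w`, read in the chart at `z`. -/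
theorem dw_chart {w : M → ℝ} (hw : Sm E w) (z : M) {y : E}
    (hy : y ∈ (extChartAt 𝓘(ℝ, E) z).target) (v : E) :
    dif w ((extChartAt 𝓘(ℝ, E) z).symm y)
      (mfderiv 𝓘(ℝ, E) 𝓘(ℝ, E) (extChartAt 𝓘(ℝ, E) z).symm y v) =
      fderiv ℝ (rd E z w) y v := 
  (Circ.GrdSub.fderiv_rd hw z hy v).symm

end Pool.Agent.Lib.MP_df705a_gt.Coll.T
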