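import Pool.Agent.Lib.MP_df705a_gt.Coll.T.R1
import Pool.Agent.Lib.MP_df705a_gt.Coll.T.R2

/-!
# Module T, R3: the deformation of a metric
-/

open scoped Manifold ContDiff Topology
open Set Bundle Module Filter MeasureTheory

noncomputable section

set_option linter.unusedSectionVars false

namespace Pool.Agent.Lib.MP_df705a_gt.Coll.T

open Pool.Agent.Lib.MP_df705a_gt.Twist Pool.Agent.Lib.MP_df705a_gt.Perm
open Pool.Agent.Lib.MP_df705a_gt.Circ (cf Para)

variable {E : Type*} [NormedAddCommGroup E] [NormedSpace ℝ E] [FiniteDimensional ℝ E]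
  {M : Type*} [TopologicalSpace M] [ChartedSpace E M] [IsManifold 𝓘(ℝ, E) ∞ M]

private def R3_L (w : M → ℝ) (x : M) : TangentSpace 𝓘(ℝ, E) x →L[ℝ] ℝ :=
  (mfderiv 𝓘(ℝ, E) 𝓘(ℝ, ℝ) w x : TangentSpace 𝓘(ℝ, E) x →L[ℝ] ℝ)

private theorem R3_L_apply (w : M → ℝ) (x : M) (v : TangentSpace 𝓘(ℝ, E) x) :
    R3_L w x v = dif w x v := rfl

private def R3_Q (h : Met E M) {ι : Type} [Fintype ι] (s : ι → ℝ) (w : ι → M → ℝ) (θ : ℝ) (x : M) :
    TangentSpace 𝓘(ℝ, E) x →L[ℝ] TangentSpace 𝓘(ℝ, E) x →L[ℝ] ℝ :=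
  h.inner x + θ • ∑ a, s a • (R3_L (w a) x).smulRight (R3_L (w a) x)

private theorem R3_Q_apply (h : Met E M) {ι : Type} [Fintype ι] (s : ι → ℝ) (w : ι → M → ℝ)
    (θ : ℝ) (x : M) (u v : TangentSpace 𝓘(ℝ, E) x) :
    R3_Q h s w θ x u v = h.inner x u v + θ * ∑ a, s a * (dif (w a) x u * dif (w a) x v) := by
  unfold R3_Q
  rw [_root_.add_apply, _root_.add_apply]
  congr 1
  rw [_root_.smul_apply, _root_.smul_apply, smul_eq_mul]
  congr 1
  rw [_root_.sum_apply, _root_.sum_apply]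
  refine Finset.sum_congr rfl fun a _ => ?_
  rw [_root_.smul_apply, _root_.smul_apply, smul_eq_mul]
  rfl

/-- `Q x u v = h.inner x u v + θ * ∑ a, s a * dif (w a) x u * dif (w a) x v` with `θ = δ sin (t / δ)`, `|θ| ≤ δ`,
`δ ∑ |s a| sup Grd h w_a w_a < 1` (`dw_sq_le`, compactness); `exists_met`, `dw_chart`, `met_ext`. -/
theorem exists_fam [CompactSpace M] [T2Space M] (h : Met E M) {ι : Type} [Fintype ι]
    (s : ι → ℝ) {w : ι → M → ℝ} (hw : ∀ a, Sm E (w a)) :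
    ∃ (δ : ℝ) (H : ℝ → Met E M), 0 < δ ∧ H 0 = h ∧
      ∀ (t : ℝ) (z : M), ∀ y ∈ (extChartAt 𝓘(ℝ, E) z).target, ∀ i j,
        coeff (H t) z y i j = coeff h z y i j +
          δ * Real.sin (t / δ) * ∑ a, s a * ddC (rd E z (w a)) (rd E z (w a)) y i j := by
  -- a bound for the gradients
  have hbd : ∀ a, ∃ C, ∀ y, Grd h (w a) (w a) y ≤ C := by
    intro a
    obtain ⟨C, hC⟩ := isCompact_univ.exists_bound_of_continuousOn
      (grd_cont h (hw a)).continuousOn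
    exact ⟨C, fun y => (le_abs_self _).trans (hC y (mem_univ y))⟩
  choose C hC using hbd
  obtain ⟨B, hB⟩ : ∃ B, B = ∑ a, |s a| * |C a| := ⟨_, rfl⟩
  have hB0 : 0 ≤ B := hB ▸ Finset.sum_nonneg fun a _ => mul_nonneg (abs_nonneg _) (abs_nonneg _)
  obtain ⟨δ, hδ⟩ : ∃ δ, δ = 1 / (2 * (B + 1)) := ⟨_, rfl⟩
  have hδ0 : 0 < δ := by rw [hδ]; positivity
  have hδB : δ * B ≤ 1 / 2 := by
    rw [hδ, div_mul_eq_mul_div, one_mul, div_le_div_iff₀ (by positivity) (by norm_num)]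
    linarith
  obtain ⟨θ, hθ⟩ : ∃ θ : ℝ → ℝ, θ = fun t => δ * Real.sin (t / δ) := ⟨_, rfl⟩
  have hθb : ∀ t, |θ t| ≤ δ := by
    intro t
    rw [hθ]
    dsimp only
    rw [abs_mul, abs_of_pos hδ0]
    exact mul_le_of_le_one_right hδ0.le (Real.abs_sin_le_one _)
  have hinner : ∀ x (v : TangentSpace 𝓘(ℝ, E) x), 0 ≤ h.inner x v v := by
    intro x v
    by_cases hv : v = 0
    · rw [hv, map_zero]
    · exact (h.pos x v hv).le
  have hsum : ∀ x (v : TangentSpace 𝓘(ℝ, E) x),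
      |∑ a, s a * (dif (w a) x v * dif (w a) x v)| ≤ B * h.inner x v v := by
    intro x v
    refine (Finset.abs_sum_le_sum_abs _ _).trans ?_
    rw [hB, Finset.sum_mul]
    refine Finset.sum_le_sum fun a _ => ?_
    rw [abs_mul, mul_assoc]
    refine mul_le_mul_of_nonneg_left ?_ (abs_nonneg _)
    have h1 := dw_sq_le h (hw a) x v
    have h2 : |dif (w a) x v * dif (w a) x v| = dif (w a) x v ^ 2 := by
      rw [← sq, abs_of_nonneg (sq_nonneg _)]
    rw [h2]
    refine h1.trans (mul_le_mul_of_nonneg_right ((hC a x).trans (le_abs_self _)) (hinner x v))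
  have hmet : ∀ t, ∃ g : Met E M, ∀ x u v, g.inner x u v = R3_Q h s w (θ t) x u v := by
    intro t
    refine exists_met (R3_Q h s w (θ t)) ?_ ?_ ?_
    · intro x u v
      rw [R3_Q_apply, R3_Q_apply, h.symm x u v]
      congr 2
      exact Finset.sum_congr rfl fun a _ => by ring
    · intro x u hu
      rw [R3_Q_apply]
      have h1 := h.pos x u hu
      have h2 := hsum x u
      have h3 : |θ t * ∑ a, s a * (dif (w a) x u * dif (w a) x u)| ≤
          1 / 2 * h.inner x u u := by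
        rw [abs_mul]
        calc |θ t| * |∑ a, s a * (dif (w a) x u * dif (w a) x u)|
            ≤ δ * (B * h.inner x u u) := mul_le_mul (hθb t) h2 (abs_nonneg _) hδ0.le
          _ = (δ * B) * h.inner x u u := by ring
          _ ≤ 1 / 2 * h.inner x u u := mul_le_mul_of_nonneg_right hδB h1.le
      have h4 := (abs_le.1 h3).1
      linarith
    · intro z u v
      have hz : extChartAt 𝓘(ℝ, E) z z ∈ (extChartAt 𝓘(ℝ, E) z).target := mem_extChartAt_target z
      have h1 : ContDiffAt ℝ ∞ (fun y => h.inner ((extChartAt 𝓘(ℝ, E) z).symm y)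
          (mfderiv 𝓘(ℝ, E) 𝓘(ℝ, E) (extChartAt 𝓘(ℝ, E) z).symm y u)
          (mfderiv 𝓘(ℝ, E) 𝓘(ℝ, E) (extChartAt 𝓘(ℝ, E) z).symm y v)) (extChartAt 𝓘(ℝ, E) z z) :=
        (inner_smooth 𝓘(ℝ, E) h z u v).contDiffAt ((isOpen_extChartAt_target z).mem_nhds hz)
      have h2 : ContDiffAt ℝ ∞ (fun y => θ t * ∑ a, s a *
          (fderiv ℝ (rd E z (w a)) y u * fderiv ℝ (rd E z (w a)) y v))
          (extChartAt 𝓘(ℝ, E) z z) := by
        refine contDiffAt_const.mul (ContDiffAt.sum fun a _ => contDiffAt_const.mul ?_)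
        have h3 : ContDiffAt ℝ ∞ (fderiv ℝ (rd E z (w a))) (extChartAt 𝓘(ℝ, E) z z) :=
          (g3_rd_smooth (hw a) z hz).fderiv_right (m := ∞) (by simp)
        exact (h3.clm_apply contDiffAt_const).mul (h3.clm_apply contDiffAt_const)
      refine (h1.add h2).congr_of_eventuallyEq ?_
      filter_upwards [(isOpen_extChartAt_target z).mem_nhds hz] with y hy
      rw [R3_Q_apply]
      simp only [dw_chart (hw _) z hy]
  choose H hHi using hmet
  refine ⟨δ, H, hδ0, ?_, ?_⟩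
  · apply met_ext
    intro x u v
    rw [hHi, R3_Q_apply, hθ]
    simp
  · intro t z y hy i j
    have h1 : coeff (H t) z y i j = R3_Q h s w (θ t) ((extChartAt 𝓘(ℝ, E) z).symm y)
        (mfderiv 𝓘(ℝ, E) 𝓘(ℝ, E) (extChartAt 𝓘(ℝ, E) z).symm y (finBasis ℝ E i))
        (mfderiv 𝓘(ℝ, E) 𝓘(ℝ, E) (extChartAt 𝓘(ℝ, E) z).symm y (finBasis ℝ E j)) := hHi t _ _ _
    rw [h1, R3_Q_apply, hθ]
    simp only [dw_chart (hw _) z hy]
    change coeff h z y i j + _ = _
    congr 2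
    refine Finset.sum_congr rfl fun a _ => ?_
    congr 1
    change Curv.pd i (rd E z (w a)) y * Curv.pd j (rd E z (w a)) y =
      (Curv.pd i (rd E z (w a)) y * Curv.pd j (rd E z (w a)) y +
        Curv.pd j (rd E z (w a)) y * Curv.pd i (rd E z (w a)) y) / 2
    ring

end Pool.Agent.Lib.MP_df705a_gt.Coll.T
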