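import Pool.Agent.Lib.MP_df705a_gt.Coll.T.R3

/-!
# Module T, R4: properties of the deformation
-/

open scoped Manifold ContDiff Topology
open Set Bundle Module Filter MeasureTheory

noncomputable section

set_option linter.unusedSectionVars false

namespace Pool.Agent.Lib.MP_df705a_gt.Coll.T

open Pool.Agent.Lib.MP_df705a_gt.Twist Pool.Agent.Lib.MP_df705a_gt.Perm
open Pool.Agent.Lib.MP_df705a_gt.Circ (cf Para)

variable {E : Type*} [NormedAddCommGroup E] [NormedSpace ℝ E] [FiniteDimensional ℝ E]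
  {M : Type*} [TopologicalSpace M] [ChartedSpace E M] [IsManifold 𝓘(ℝ, E) ∞ M]

variable {h : Met E M} {ι : Type} [Fintype ι] {s : ι → ℝ} {w : ι → M → ℝ} {δ : ℝ}
  {H : ℝ → Met E M}

theorem fam_sm (hw : ∀ a, Sm E (w a)) (hδ : 0 < δ)
    (hH : ∀ (t : ℝ) (z : M), ∀ y ∈ (extChartAt 𝓘(ℝ, E) z).target, ∀ i j,
      coeff (H t) z y i j = coeff h z y i j +
        δ * Real.sin (t / δ) * ∑ a, s a * ddC (rd E z (w a)) (rd E z (w a)) y i j) :
    ∀ (z : M), ∀ y ∈ (extChartAt 𝓘(ℝ, E) z).target, ∀ i j,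
      ContDiffAt ℝ ∞ (fun p : ℝ × E => coeff (H p.1) z p.2 i j) (0, y) := by
  intro z y hy i j
  have h1 : ContDiffAt ℝ ∞ (fun p : ℝ × E => coeff h z p.2 i j) ((0 : ℝ), y) :=
    ContDiffAt.comp ((0 : ℝ), y) (g := fun x => coeff h z x i j) (f := fun p : ℝ × E => p.2)
      (g3_coeff_smooth h z hy i j) contDiffAt_snd
  have h2 : ContDiffAt ℝ ∞ (fun p : ℝ × E => δ * Real.sin (p.1 / δ)) ((0 : ℝ), y) := by
    have h3 : ContDiff ℝ ∞ (fun t : ℝ => δ * Real.sin (t / δ)) :=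
      contDiff_const.mul (Real.contDiff_sin.comp (contDiff_id.div_const δ))
    exact ContDiffAt.comp ((0 : ℝ), y) (g := fun t : ℝ => δ * Real.sin (t / δ))
      (f := fun p : ℝ × E => p.1) h3.contDiffAt contDiffAt_fst
  have h4 : ∀ a, ContDiffAt ℝ ∞ (fun x => ddC (rd E z (w a)) (rd E z (w a)) x i j) y := by
    intro a
    have h5 := g3_rd_smooth (hw a) z hy
    exact (((g3_pd_smooth h5 i).mul (g3_pd_smooth h5 j)).add
      ((g3_pd_smooth h5 j).mul (g3_pd_smooth h5 i))).div_const 2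
  have h6 : ContDiffAt ℝ ∞ (fun p : ℝ × E =>
      ∑ a, s a * ddC (rd E z (w a)) (rd E z (w a)) p.2 i j) ((0 : ℝ), y) := by
    refine ContDiffAt.sum fun a _ => contDiffAt_const.mul ?_
    exact ContDiffAt.comp ((0 : ℝ), y) (g := fun x => ddC (rd E z (w a)) (rd E z (w a)) x i j)
      (f := fun p : ℝ × E => p.2) (h4 a) contDiffAt_snd
  refine (h1.add (h2.mul h6)).congr_of_eventuallyEq ?_
  have h7 : ∀ᶠ p : ℝ × E in 𝓝 ((0 : ℝ), y), p.2 ∈ (extChartAt 𝓘(ℝ, E) z).target :=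
    continuousAt_snd.eventually ((isOpen_extChartAt_target z).mem_nhds hy)
  filter_upwards [h7] with p hp
  exact hH p.1 z p.2 hp i j

theorem fam_der (hδ : 0 < δ)
    (hH : ∀ (t : ℝ) (z : M), ∀ y ∈ (extChartAt 𝓘(ℝ, E) z).target, ∀ i j,
      coeff (H t) z y i j = coeff h z y i j +
        δ * Real.sin (t / δ) * ∑ a, s a * ddC (rd E z (w a)) (rd E z (w a)) y i j) :
    ∀ y i j, deriv (fun t => cof (H t) y i j) 0 = ∑ a, s a * dd E (w a) (w a) y i j := by
  intro y i j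
  have h1 : (fun t => cof (H t) y i j) = fun t => cof h y i j +
      δ * Real.sin (t / δ) * ∑ a, s a * dd E (w a) (w a) y i j := by
    funext t
    exact hH t y _ (mem_extChartAt_target y) i j
  have h2 : HasDerivAt (fun t : ℝ => δ * Real.sin (t / δ)) 1 0 := by
    have h3 : HasDerivAt (fun t : ℝ => t / δ) (1 / δ) 0 := (hasDerivAt_id (0 : ℝ)).div_const δ
    have h4 : HasDerivAt (fun t : ℝ => Real.sin (t / δ)) (Real.cos (0 / δ) * (1 / δ)) 0 :=
      HasDerivAt.sin h3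
    have h5 := h4.const_mul δ
    have h6 : δ * (Real.cos (0 / δ) * (1 / δ)) = 1 := by
      rw [zero_div, Real.cos_zero]
      field_simp
    rwa [h6] at h5
  rw [h1]
  have h7 := (h2.mul_const (∑ a, s a * dd E (w a) (w a) y i j)).const_add (cof h y i j)
  rw [h7.deriv, one_mul]

end Pool.Agent.Lib.MP_df705a_gt.Coll.T
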