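import Pool.Agent.Lib.MP_df705a_gt.Mg.G059

/-!
# Module T, R5: smooth families of metrics
-/

open scoped Manifold ContDiff Topology
open Set Bundle Module Filter MeasureTheory

noncomputable section

set_option linter.unusedSectionVars false

namespace Pool.Agent.Lib.MP_df705a_gt.Coll.T

open Pool.Agent.Lib.MP_df705a_gt.Twist Pool.Agent.Lib.MP_df705a_gt.Perm
open Pool.Agent.Lib.MP_df705a_gt.Circ (cf Para)

variable {E : Type*} [NormedAddCommGroup E] [NormedSpace ℝ E] [FiniteDimensional ℝ E]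
  {H : ℝ → Curv.Coeff E} {y : E}

private theorem R5_swap {f : E × ℝ → ℝ} (hf : ContDiffAt ℝ ∞ f (y, 0)) :
    ContDiffAt ℝ ∞ (fun p : ℝ × E => f (p.2, p.1)) (0, y) :=
  ContDiffAt.comp ((0 : ℝ), y) (g := f) (f := fun p : ℝ × E => ((p.2, p.1) : E × ℝ)) hf
    (contDiffAt_snd.prodMk contDiffAt_fst)

private theorem R5_swap' {f : ℝ × E → ℝ} (hf : ContDiffAt ℝ ∞ f (0, y)) :
    ContDiffAt ℝ ∞ (fun q : E × ℝ => f (q.2, q.1)) (y, 0) :=
  ContDiffAt.comp (y, (0 : ℝ)) (g := f) (f := fun q : E × ℝ => ((q.2, q.1) : ℝ × E)) hf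
    (contDiffAt_snd.prodMk contDiffAt_fst)

private theorem R5_fst {u : E → ℝ} (hu : ContDiffAt ℝ ∞ u y) :
    ContDiffAt ℝ ∞ (fun q : E × ℝ => u q.1) (y, 0) :=
  ContDiffAt.comp (y, (0 : ℝ)) (g := u) (f := fun q : E × ℝ => q.1) hu contDiffAt_fst

private theorem R5_inv (hH : ∀ i j, ContDiffAt ℝ ∞ (fun q : E × ℝ => H q.2 q.1 i j) (y, 0))
    (hnd : (H 0 y).det ≠ 0) (i j : Fin (finrank ℝ E)) :
    ContDiffAt ℝ ∞ (fun q : E × ℝ => (H q.2 q.1)⁻¹ i j) (y, 0) :=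
  contDiffAt_inv (h := fun q : E × ℝ => H q.2 q.1) hH hnd i j

private theorem R5_chr (hH : ∀ i j, ContDiffAt ℝ ∞ (fun q : E × ℝ => H q.2 q.1 i j) (y, 0))
    (i j k : Fin (finrank ℝ E)) :
    ContDiffAt ℝ ∞ (fun q : E × ℝ => Curv.christoffel (H q.2) i j k q.1) (y, 0) :=
  (((g3_pd_smooth₂ (F := fun w z => H w z j k) (hH j k) i).add
    (g3_pd_smooth₂ (F := fun w z => H w z i k) (hH i k) j)).sub
    (g3_pd_smooth₂ (F := fun w z => H w z i j) (hH i j) k)).div_const 2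

private theorem R5_riem (hH : ∀ i j, ContDiffAt ℝ ∞ (fun q : E × ℝ => H q.2 q.1 i j) (y, 0))
    (hnd : (H 0 y).det ≠ 0) (i j k l : Fin (finrank ℝ E)) :
    ContDiffAt ℝ ∞ (fun q : E × ℝ => Curv.riemann (H q.2) i j k l q.1) (y, 0) := by
  refine ((g3_pd_smooth₂ (F := fun w => Curv.christoffel (H w) j k l) (R5_chr hH j k l) i).sub
    (g3_pd_smooth₂ (F := fun w => Curv.christoffel (H w) i k l) (R5_chr hH i k l) j)).add ?_
  refine ContDiffAt.sum fun p _ => ContDiffAt.sum fun q _ => ?_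
  refine (R5_inv hH hnd p q).mul ?_
  exact ((R5_chr hH i k p).mul (R5_chr hH j l q)).sub ((R5_chr hH j k p).mul (R5_chr hH i l q))

/-- As `g3_scal_smooth` (Perm/Chart.lean), with `g3_pd_smooth₂` and `contDiffAt_inv` for the
matrix-valued function `p ↦ H p.1 p.2` on `ℝ × E`. -/
theorem fam_scal (hH : ∀ i j, ContDiffAt ℝ ∞ (fun p : ℝ × E => H p.1 p.2 i j) (0, y))
    (hnd : (H 0 y).det ≠ 0) :
    ContDiffAt ℝ ∞ (fun p : ℝ × E => Curv.scal (H p.1) p.2) (0, y) := by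
  have hH' : ∀ i j, ContDiffAt ℝ ∞ (fun q : E × ℝ => H q.2 q.1 i j) (y, 0) :=
    fun i j => R5_swap' (hH i j)
  have h1 : ContDiffAt ℝ ∞ (fun q : E × ℝ => Curv.scal (H q.2) q.1) (y, 0) := by
    refine ContDiffAt.sum fun i _ => ContDiffAt.sum fun j _ => ContDiffAt.sum fun k _ =>
      ContDiffAt.sum fun l _ => ?_
    exact ((R5_inv hH' hnd i l).mul (R5_inv hH' hnd j k)).mul (R5_riem hH' hnd i j k l)
  exact R5_swap h1

theorem fam_lapC (hH : ∀ i j, ContDiffAt ℝ ∞ (fun p : ℝ × E => H p.1 p.2 i j) (0, y))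
    (hnd : (H 0 y).det ≠ 0) {u : E → ℝ} (hu : ContDiffAt ℝ ∞ u y) :
    ContDiffAt ℝ ∞ (fun p : ℝ × E => lapC (H p.1) u p.2) (0, y) := by
  have hH' : ∀ i j, ContDiffAt ℝ ∞ (fun q : E × ℝ => H q.2 q.1 i j) (y, 0) :=
    fun i j => R5_swap' (hH i j)
  have h1 : ContDiffAt ℝ ∞ (fun q : E × ℝ => lapC (H q.2) u q.1) (y, 0) := by
    refine ContDiffAt.sum fun i _ => ContDiffAt.sum fun j _ => (R5_inv hH' hnd i j).mul ?_
    refine (R5_fst (g3_pd_smooth (g3_pd_smooth hu j) i)).sub ?_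
    refine ContDiffAt.sum fun p _ => ContDiffAt.sum fun q _ => ?_
    exact ((R5_inv hH' hnd p q).mul (R5_chr hH' i j p)).mul (R5_fst (g3_pd_smooth hu q))
  exact R5_swap h1

theorem fam_gradC (hH : ∀ i j, ContDiffAt ℝ ∞ (fun p : ℝ × E => H p.1 p.2 i j) (0, y))
    (hnd : (H 0 y).det ≠ 0) {u v : E → ℝ} (hu : ContDiffAt ℝ ∞ u y) (hv : ContDiffAt ℝ ∞ v y) :
    ContDiffAt ℝ ∞ (fun p : ℝ × E => gradC (H p.1) u v p.2) (0, y) := by
  have hH' : ∀ i j, ContDiffAt ℝ ∞ (fun q : E × ℝ => H q.2 q.1 i j) (y, 0) :=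
    fun i j => R5_swap' (hH i j)
  have h1 : ContDiffAt ℝ ∞ (fun q : E × ℝ => gradC (H q.2) u v q.1) (y, 0) := by
    refine ContDiffAt.sum fun i _ => ContDiffAt.sum fun j _ => ?_
    exact (R5_inv hH' hnd i j).mul
      ((R5_fst (g3_pd_smooth hu i)).mul (R5_fst (g3_pd_smooth hv j)))
  exact R5_swap h1

/-- A function which vanishes for `t = 0` and has positive `t`-derivative at `(0, y)`: near `(0, y)`
the `t`-derivative is positive; mean value theorem on `[0, t]`. -/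
theorem pos_of_deriv {Φ : ℝ × E → ℝ} (hΦ : ContDiffAt ℝ ∞ Φ (0, y))
    (h0 : ∀ᶠ x in 𝓝 y, Φ (0, x) = 0) (hd : 0 < deriv (fun t => Φ (t, y)) 0) :
    ∃ ε : ℝ, 0 < ε ∧ ∀ᶠ x in 𝓝 y, ∀ t, 0 < t → t < ε → 0 < Φ (t, x) := by
  have hc : ∀ (t : ℝ) (x : E), DifferentiableAt ℝ Φ (t, x) →
      HasDerivAt (fun t => Φ (t, x)) (fderiv ℝ Φ (t, x) (1, 0)) t := by
    intro t x hd
    have h1 : HasDerivAt (fun t : ℝ => ((t, x) : ℝ × E)) ((1, 0) : ℝ × E) t :=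
      (hasDerivAt_id t).prodMk (hasDerivAt_const t x)
    exact HasFDerivAt.comp_hasDerivAt t (f := fun t : ℝ => ((t, x) : ℝ × E))
      (l := Φ) hd.hasFDerivAt h1
  have h1 : ∀ᶠ p : ℝ × E in 𝓝 (0, y), DifferentiableAt ℝ Φ p := by
    have h2 : ContDiffAt ℝ 1 Φ (0, y) := hΦ.of_le (by simp)
    filter_upwards [h2.eventually (by simp)] with p hp
    exact hp.differentiableAt (by simp)
  have h2 : ContinuousAt (fun p : ℝ × E => fderiv ℝ Φ p (1, 0)) (0, y) :=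
    ((hΦ.fderiv_right (m := ∞) (by simp)).clm_apply contDiffAt_const).continuousAt
  have h3 : 0 < fderiv ℝ Φ (0, y) (1, 0) := by
    rw [← (hc 0 y h1.self_of_nhds).deriv]
    exact hd
  have h4 : ∀ᶠ p : ℝ × E in 𝓝 (0, y), 0 < fderiv ℝ Φ p (1, 0) :=
    h2.eventually (isOpen_Ioi.mem_nhds h3)
  have h5 := h1.and h4
  rw [nhds_prod_eq, Filter.eventually_prod_iff] at h5
  obtain ⟨pa, ha, pb, hb, hab⟩ := h5
  obtain ⟨ε, hε, hε'⟩ := Metric.eventually_nhds_iff.1 ha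
  refine ⟨ε, hε, ?_⟩
  filter_upwards [hb, h0] with x hx hx0
  intro t ht ht'
  have h6 : ∀ s ∈ Icc (0 : ℝ) t, DifferentiableAt ℝ Φ (s, x) ∧ 0 < fderiv ℝ Φ (s, x) (1, 0) := by
    intro s hs
    have h7 : pa s := hε' (by
      rw [Real.dist_eq, sub_zero, abs_of_nonneg hs.1]
      exact lt_of_le_of_lt hs.2 ht')
    exact hab h7 hx
  obtain ⟨c, hc1, hc2⟩ := exists_hasDerivAt_eq_slope (fun s => Φ (s, x))
    (fun s => fderiv ℝ Φ (s, x) (1, 0)) ht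
    (fun s hs => (hc s x (h6 s hs).1).continuousAt.continuousWithinAt)
    (fun s hs => hc s x (h6 s ⟨hs.1.le, hs.2.le⟩).1)
  have h8 := (h6 c ⟨hc1.1.le, hc1.2.le⟩).2
  rw [hc2, hx0, sub_zero, sub_zero] at h8
  exact (div_pos_iff_of_pos_right ht).1 h8

end Pool.Agent.Lib.MP_df705a_gt.Coll.T
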