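import Pool.Agent.Lib.MP_df705a_gt.Coll.T.W2
import Pool.Agent.Lib.MP_df705a_gt.Coll.T.R2
import Pool.Agent.Lib.MP_df705a_gt.Coll.T.B1
import Pool.Agent.Lib.MP_df705a_gt.Coll.T.B2
import Pool.Agent.Lib.MP_df705a_gt.Coll.T.B3

/-!
# Module T, R7: algebra of differentials
-/

open scoped Manifold ContDiff Topology
open Set Bundle Module Filter MeasureTheory

noncomputable section

set_option linter.unusedSectionVars false

namespace Pool.Agent.Lib.MP_df705a_gt.Coll.T

open Pool.Agent.Lib.MP_df705a_gt.Twist Pool.Agent.Lib.MP_df705a_gt.Perm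
open Pool.Agent.Lib.MP_df705a_gt.Circ (cf Para)

variable {E : Type*} [NormedAddCommGroup E] [NormedSpace ℝ E] [FiniteDimensional ℝ E]
  {M : Type*} [TopologicalSpace M] [ChartedSpace E M] [IsManifold 𝓘(ℝ, E) ∞ M]

/-- `d(Cv) = C dv + v dC`, and `dd u v = (1/4) (dd (u+v) (u+v) - dd (u-v) (u-v))`:
`C dd w w = dd w (Cw) - (1/2) dd C (w²)`. -/
theorem mul_dd {C w : M → ℝ} (hC : Sm E C) (hw : Sm E w) (y : M) :
    C y • dd E w w y =
      (1 / 4 : ℝ) • dd E (fun p => w p + C p * w p) (fun p => w p + C p * w p) y +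
      (-1 / 4 : ℝ) • dd E (fun p => w p - C p * w p) (fun p => w p - C p * w p) y +
      (-1 / 8 : ℝ) • dd E (fun p => C p + w p * w p) (fun p => C p + w p * w p) y +
      (1 / 8 : ℝ) • dd E (fun p => C p - w p * w p) (fun p => C p - w p * w p) y := by
  have dC : DifferentiableAt ℝ (rd E y C) (extChartAt 𝓘(ℝ, E) y y) :=
    G4.diff_of (G4.rd_contDiffAt hC y)
  have dw : DifferentiableAt ℝ (rd E y w) (extChartAt 𝓘(ℝ, E) y y) :=
    G4.diff_of (G4.rd_contDiffAt hw y)
  have dCw : DifferentiableAt ℝ (fun z => rd E y C z * rd E y w z) (extChartAt 𝓘(ℝ, E) y y) :=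
    dC.mul dw
  have dww : DifferentiableAt ℝ (fun z => rd E y w z * rd E y w z) (extChartAt 𝓘(ℝ, E) y y) :=
    dw.mul dw
  have eC := G4.rd_self (E := E) C y
  have ew := G4.rd_self (E := E) w y
  have p1 : ∀ i, pdv E (fun p => w p + C p * w p) y i =
      pdv E w y i + (C y * pdv E w y i + w y * pdv E C y i) := by
    intro i
    change Curv.pd i (fun z => rd E y w z + rd E y C z * rd E y w z) _ = _
    rw [G4.pd_add dw dCw, G4.pd_mul dC dw, eC, ew]
    rfl
  have p2 : ∀ i, pdv E (fun p => w p - C p * w p) y i =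
      pdv E w y i - (C y * pdv E w y i + w y * pdv E C y i) := by
    intro i
    change Curv.pd i (fun z => rd E y w z - rd E y C z * rd E y w z) _ = _
    rw [G4.pd_sub dw dCw, G4.pd_mul dC dw, eC, ew]
    rfl
  have p3 : ∀ i, pdv E (fun p => C p + w p * w p) y i =
      pdv E C y i + (w y * pdv E w y i + w y * pdv E w y i) := by
    intro i
    change Curv.pd i (fun z => rd E y C z + rd E y w z * rd E y w z) _ = _
    rw [G4.pd_add dC dww, G4.pd_mul dw dw, ew]
    rfl
  have p4 : ∀ i, pdv E (fun p => C p - w p * w p) y i =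
      pdv E C y i - (w y * pdv E w y i + w y * pdv E w y i) := by
    intro i
    change Curv.pd i (fun z => rd E y C z - rd E y w z * rd E y w z) _ = _
    rw [G4.pd_sub dC dww, G4.pd_mul dw dw, ew]
    rfl
  ext i j
  simp only [Matrix.add_apply, Matrix.smul_apply, smul_eq_mul, dd, p1, p2, p3, p4]
  ring

/-- A nonzero symmetric matrix has a nonzero value. -/
private theorem r7_quad {n : ℕ} {R : Matrix (Fin n) (Fin n) ℝ} (hs : ∀ i j, R i j = R j i)
    (hR : R ≠ 0) : ∃ η : Fin n → ℝ, ∑ i, ∑ j, R i j * (η i * η j) ≠ 0 := by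
  by_contra hcon
  push Not at hcon
  have key : ∀ η ζ : Fin n → ℝ, ∑ i, ∑ j, R i j * (η i * ζ j) = 0 := by
    intro η ζ
    have h1 := hcon (η + ζ)
    have h2 : ∑ i, ∑ j, R i j * (ζ i * η j) = ∑ i, ∑ j, R i j * (η i * ζ j) := by
      rw [Finset.sum_comm]
      refine Finset.sum_congr rfl fun i _ => Finset.sum_congr rfl fun j _ => ?_
      rw [hs j i]
      ring
    have h3 : ∑ i, ∑ j, R i j * ((η + ζ) i * (η + ζ) j) =
        ∑ i, ∑ j, R i j * (η i * η j) + ∑ i, ∑ j, R i j * (ζ i * ζ j) +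
        (∑ i, ∑ j, R i j * (η i * ζ j) + ∑ i, ∑ j, R i j * (ζ i * η j)) := by
      simp only [← Finset.sum_add_distrib]
      refine Finset.sum_congr rfl fun i _ => Finset.sum_congr rfl fun j _ => ?_
      simp only [Pi.add_apply]
      ring
    rw [h3, hcon η, hcon ζ, h2] at h1
    linarith
  apply hR
  ext i j
  have h1 := key (Pi.single i 1) (Pi.single j 1)
  simpa [Pi.single_apply] using h1

/-- The Ricci curvature is symmetric (`ric_symmC`), so it is determined by its quadratic form;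
`exists_fun` with `ξ = cof h y *ᵥ η`: `Rc h w w y = ∑ Ric_ij η_i η_j`. -/
theorem exists_rc_ne [T2Space M] {h : Met E M} {y : M}
    (hr : ric (coeff h y) (extChartAt 𝓘(ℝ, E) y y) ≠ 0) :
    ∃ w : M → ℝ, Sm E w ∧ Rc h w w y ≠ 0 := by
  set R := ric (coeff h y) (extChartAt 𝓘(ℝ, E) y y) with hRdef
  have hs : ∀ i j, R i j = R j i := fun i j =>
    ric_symmC (coeff_rm h y (mem_extChartAt_target y)) i j
  obtain ⟨η, hη⟩ := r7_quad hs hr
  obtain ⟨w, hw, hξ⟩ := exists_fun (E := E) y (fun a => ∑ b, cof h y a b * η b)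
  refine ⟨w, hw, ?_⟩
  have hdet : IsUnit (cof h y).det := (cof_posDef h y).det_pos.ne'.isUnit
  have h1 : ∀ i, ∑ a, (cof h y)⁻¹ i a * pdv E w y a = η i := by
    intro i
    have h2 : ∑ a, (cof h y)⁻¹ i a * pdv E w y a =
        ((cof h y)⁻¹.mulVec ((cof h y).mulVec η)) i := by
      simp only [Matrix.mulVec, dotProduct, hξ]
    rw [h2, Matrix.mulVec_mulVec, Matrix.nonsing_inv_mul _ hdet, Matrix.one_mulVec]
  have h3 : Rc h w w y = ∑ i, ∑ j, R i j * (η i * η j) := by
    unfold Rc ipM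
    refine Finset.sum_congr rfl fun i _ => Finset.sum_congr rfl fun j _ => ?_
    rw [← h1 i, ← h1 j, Finset.sum_mul_sum, Finset.mul_sum]
    refine Finset.sum_congr rfl fun a _ => ?_
    rw [Finset.mul_sum]
    refine Finset.sum_congr rfl fun b _ => ?_
    unfold dd
    ring
  rw [h3]
  exact hη

/-- A bump function supported where `Rc h w w` has the sign which it has at `y`. -/
theorem exists_bump [T2Space M] {R : M → ℝ} (hR : Continuous R) {y : M} (hy : R y ≠ 0) :
    ∃ C : M → ℝ, Sm E C ∧ (∀ p, C p * R p ≤ 0) ∧ C y * R y < 0 := by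
  have hU : {p : M | 0 < R y * R p} ∈ 𝓝 y := by
    have h1 : ContinuousAt (fun p => R y * R p) y := (continuous_const.mul hR).continuousAt
    have h2 : 0 < R y * R y := mul_self_pos.2 hy
    exact h1.eventually (lt_mem_nhds h2)
  obtain ⟨f, -, hf⟩ := (SmoothBumpFunction.nhds_basis_tsupport (I := 𝓘(ℝ, E)) y).mem_iff.1 hU
  refine ⟨fun p => (-R y) * f p, sm_smul f.contMDiff _, fun p => ?_, ?_⟩
  · change (-R y) * f p * R p ≤ 0
    by_cases hp : p ∈ tsupport f
    · have h1 : 0 < R y * R p := hf hp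
      have h2 : 0 ≤ f p := f.nonneg
      nlinarith [mul_nonneg h2 h1.le]
    · have h1 : f p = 0 := image_eq_zero_of_notMem_tsupport hp
      rw [h1]
      simp
  · change (-R y) * f y * R y < 0
    have h1 : f y = 1 := f.eq_one
    rw [h1]
    nlinarith [mul_self_pos.2 hy]

end Pool.Agent.Lib.MP_df705a_gt.Coll.T
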