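import Pool.Agent.Lib.MP_df705a_gt.Mg.G061

/-!
# Module T, V0: smooth families of functions
-/

open scoped Manifold ContDiff Topology
open Set Bundle Module Filter MeasureTheory

noncomputable section

set_option linter.unusedSectionVars false

namespace Pool.Agent.Lib.MP_df705a_gt.Coll.T

open Pool.Agent.Lib.MP_df705a_gt.Twist Pool.Agent.Lib.MP_df705a_gt.Perm
open Pool.Agent.Lib.MP_df705a_gt.Circ (cf Para)

variable {E : Type*} [NormedAddCommGroup E] [NormedSpace ℝ E] [FiniteDimensional ℝ E]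

/-- `F` is a smooth family of functions near `x`, for parameters near `0`. -/
def Fam (F : ℝ → E → ℝ) (x : E) : Prop :=
  ∀ᶠ y in 𝓝 x, ContDiffAt ℝ ∞ (fun p : ℝ × E => F p.1 p.2) (0, y)

/-- The derivative of the family at the parameter `0`. -/
def dt (F : ℝ → E → ℝ) (y : E) : ℝ := deriv (fun t => F t y) 0

variable {F : ℝ → E → ℝ} {x : E}

private theorem V0_curve {y : E} {t : ℝ}
    (h : DifferentiableAt ℝ (fun p : ℝ × E => F p.1 p.2) (t, y)) :
    HasDerivAt (fun t => F t y) (fderiv ℝ (fun p : ℝ × E => F p.1 p.2) (t, y) (1, 0)) t := by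
  have h1 : HasDerivAt (fun t : ℝ => ((t, y) : ℝ × E)) ((1, 0) : ℝ × E) t :=
    (hasDerivAt_id t).prodMk (hasDerivAt_const t y)
  exact HasFDerivAt.comp_hasDerivAt t (f := fun t : ℝ => ((t, y) : ℝ × E))
    (l := fun p : ℝ × E => F p.1 p.2) h.hasFDerivAt h1

private theorem V0_dt {y : E} (h : ContDiffAt ℝ ∞ (fun p : ℝ × E => F p.1 p.2) (0, y)) :
    dt F y = fderiv ℝ (fun p : ℝ × E => F p.1 p.2) (0, y) (1, 0) :=
  (V0_curve (h.differentiableAt (by simp))).deriv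

private theorem V0_pd {y : E} {t : ℝ} (i : Fin (finrank ℝ E))
    (h : DifferentiableAt ℝ (fun p : ℝ × E => F p.1 p.2) (t, y)) :
    Curv.pd i (F t) y = fderiv ℝ (fun p : ℝ × E => F p.1 p.2) (t, y) (0, finBasis ℝ E i) := by
  have h1 : HasFDerivAt (fun y : E => ((t, y) : ℝ × E)) (ContinuousLinearMap.inr ℝ ℝ E) y :=
    hasFDerivAt_prodMk_right t y
  have h2 := HasFDerivAt.comp y (g := fun p : ℝ × E => F p.1 p.2)
    (f := fun y : E => ((t, y) : ℝ × E)) h.hasFDerivAt h1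
  have h3 : fderiv ℝ (F t) y = (fderiv ℝ (fun p : ℝ × E => F p.1 p.2) (t, y)).comp
      (ContinuousLinearMap.inr ℝ ℝ E) := h2.fderiv
  unfold Curv.pd
  rw [h3]
  rfl

theorem Fam.hasDerivAt (hF : Fam F x) : HasDerivAt (fun t => F t x) (dt F x) 0 := by
  rw [V0_dt hF.self_of_nhds]
  exact V0_curve (hF.self_of_nhds.differentiableAt (by simp))

theorem Fam.smF (hF : Fam F x) : SmF (F 0) x := by
  filter_upwards [hF] with y hy
  exact ContDiffAt.comp y (g := fun p : ℝ × E => F p.1 p.2) (f := fun y : E => ((0, y) : ℝ × E))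
    hy (contDiffAt_const.prodMk contDiffAt_id)

/-- `dt F y = fderiv (uncurried F) (0, y) (1, 0)`. -/
theorem Fam.smF_dt (hF : Fam F x) : SmF (dt F) x := by
  have h0 : ∀ᶠ y in 𝓝 x, ∀ᶠ z in 𝓝 y, ContDiffAt ℝ ∞ (fun p : ℝ × E => F p.1 p.2) (0, z) :=
    eventually_eventually_nhds.2 hF
  filter_upwards [h0] with y hy
  have h1 : ContDiffAt ℝ ∞ (fun p : ℝ × E => fderiv ℝ (fun p : ℝ × E => F p.1 p.2) p (1, 0))
      (0, y) := (hy.self_of_nhds.fderiv_right (m := ∞) (by simp)).clm_apply contDiffAt_const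
  have h2 := ContDiffAt.comp y
    (g := fun p : ℝ × E => fderiv ℝ (fun p : ℝ × E => F p.1 p.2) p (1, 0))
    (f := fun y : E => ((0, y) : ℝ × E)) h1 (contDiffAt_const.prodMk contDiffAt_id)
  refine h2.congr_of_eventuallyEq ?_
  filter_upwards [hy] with z hz
  exact V0_dt hz

/-- `g3_pd_smooth₂` (Perm/Chart.lean), or `pd i (F t) y = fderiv (uncurried F) (t, y) (0, e_i)`
for `(t, y)` near `(0, x)`. -/
theorem Fam.pd (hF : Fam F x) (i : Fin (finrank ℝ E)) : Fam (fun t => Curv.pd i (F t)) x := by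
  filter_upwards [hF] with y hy
  have h1 : ContDiffAt ℝ ∞ (fun q : E × ℝ => F q.2 q.1) (y, 0) :=
    ContDiffAt.comp (y, (0 : ℝ)) (g := fun p : ℝ × E => F p.1 p.2)
      (f := fun q : E × ℝ => ((q.2, q.1) : ℝ × E)) hy (contDiffAt_snd.prodMk contDiffAt_fst)
  have h2 := g3_pd_smooth₂ h1 i
  exact ContDiffAt.comp ((0 : ℝ), y) (g := fun q : E × ℝ => Curv.pd i (F q.2) q.1)
    (f := fun p : ℝ × E => ((p.2, p.1) : E × ℝ)) h2 (contDiffAt_snd.prodMk contDiffAt_fst)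

/-- Symmetry of the second derivative of the uncurried function. -/
theorem Fam.dt_pd (hF : Fam F x) (i : Fin (finrank ℝ E)) :
    dt (fun t => Curv.pd i (F t)) =ᶠ[𝓝 x] Curv.pd i (dt F) := by
  have h0 : ∀ᶠ y in 𝓝 x, ∀ᶠ z in 𝓝 y, ContDiffAt ℝ ∞ (fun p : ℝ × E => F p.1 p.2) (0, z) :=
    eventually_eventually_nhds.2 hF
  filter_upwards [h0] with y hy
  have hU := hy.self_of_nhds
  have hD : DifferentiableAt ℝ (fderiv ℝ (fun p : ℝ × E => F p.1 p.2)) (0, y) :=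
    (hU.fderiv_right (m := ∞) (by simp)).differentiableAt (by simp)
  have hsymm : fderiv ℝ (fderiv ℝ (fun p : ℝ × E => F p.1 p.2)) (0, y) (1, 0)
      (0, finBasis ℝ E i) = fderiv ℝ (fderiv ℝ (fun p : ℝ × E => F p.1 p.2)) (0, y)
      (0, finBasis ℝ E i) (1, 0) := Alg.fderiv_fderiv_symm hU _ _
  -- the left hand side
  have h1 : ∀ᶠ p : ℝ × E in 𝓝 (0, y), DifferentiableAt ℝ (fun p : ℝ × E => F p.1 p.2) p := by
    have h2 : ContDiffAt ℝ 1 (fun p : ℝ × E => F p.1 p.2) (0, y) := hU.of_le (by simp)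
    filter_upwards [h2.eventually (by simp)] with p hp
    exact hp.differentiableAt (by simp)
  have h3 : Tendsto (fun t : ℝ => ((t, y) : ℝ × E)) (𝓝 0) (𝓝 (0, y)) :=
    (Continuous.prodMk continuous_id continuous_const).tendsto' _ _ rfl
  have h4 : (fun t => Curv.pd i (F t) y) =ᶠ[𝓝 0]
      fun t => fderiv ℝ (fun p : ℝ × E => F p.1 p.2) (t, y) (0, finBasis ℝ E i) := by
    filter_upwards [h3.eventually h1] with t ht
    exact V0_pd i ht
  have h5 : HasDerivAt (fun t : ℝ => ((t, y) : ℝ × E)) ((1, 0) : ℝ × E) 0 :=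
    (hasDerivAt_id (0 : ℝ)).prodMk (hasDerivAt_const (0 : ℝ) y)
  have h6 := HasFDerivAt.comp_hasDerivAt (0 : ℝ) (f := fun t : ℝ => ((t, y) : ℝ × E))
    (l := fderiv ℝ (fun p : ℝ × E => F p.1 p.2)) hD.hasFDerivAt h5
  have h7 : HasDerivAt (fun t : ℝ => fderiv ℝ (fun p : ℝ × E => F p.1 p.2) (t, y)
      (0, finBasis ℝ E i)) (fderiv ℝ (fderiv ℝ (fun p : ℝ × E => F p.1 p.2)) (0, y) (1, 0)
      (0, finBasis ℝ E i)) 0 := by
    have h8 := h6.clm_apply (hasDerivAt_const (0 : ℝ) ((0, finBasis ℝ E i) : ℝ × E))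
    simpa using h8
  have h9 : dt (fun t => Curv.pd i (F t)) y = fderiv ℝ (fderiv ℝ (fun p : ℝ × E => F p.1 p.2))
      (0, y) (1, 0) (0, finBasis ℝ E i) := by
    unfold dt
    rw [h4.deriv_eq, h7.deriv]
  -- the right hand side
  have h10 : dt F =ᶠ[𝓝 y] fun z => fderiv ℝ (fun p : ℝ × E => F p.1 p.2) (0, z) (1, 0) := by
    filter_upwards [hy] with z hz
    exact V0_dt hz
  have h11 : HasFDerivAt (fun y : E => (((0 : ℝ), y) : ℝ × E)) (ContinuousLinearMap.inr ℝ ℝ E) y :=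
    hasFDerivAt_prodMk_right (0 : ℝ) y
  have h12 := HasFDerivAt.comp y (g := fderiv ℝ (fun p : ℝ × E => F p.1 p.2))
    (f := fun y : E => (((0 : ℝ), y) : ℝ × E)) hD.hasFDerivAt h11
  have h13 := h12.clm_apply (hasFDerivAt_const ((1, 0) : ℝ × E) y)
  have h14 : Curv.pd i (dt F) y = fderiv ℝ (fderiv ℝ (fun p : ℝ × E => F p.1 p.2))
      (0, y) (0, finBasis ℝ E i) (1, 0) := by
    unfold Curv.pd
    rw [h10.fderiv_eq]
    have h15 := h13.fderiv
    have h16 := congrArg (fun L : E →L[ℝ] ℝ => L (finBasis ℝ E i)) h15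
    refine Eq.trans h16 ?_
    simp
  rw [h9, h14, hsymm]

end Pool.Agent.Lib.MP_df705a_gt.Coll.T
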