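import Pool.Agent.Lib.MP_df705a_gt.Coll.T.V0

/-!
# Module T, V1: derivatives of a family of metrics
-/

open scoped Manifold ContDiff Topology
open Set Bundle Module Filter MeasureTheory

noncomputable section

set_option linter.unusedSectionVars false

namespace Pool.Agent.Lib.MP_df705a_gt.Coll.T

open Pool.Agent.Lib.MP_df705a_gt.Twist Pool.Agent.Lib.MP_df705a_gt.Perm
open Pool.Agent.Lib.MP_df705a_gt.Circ (cf Para)

variable {E : Type*} [NormedAddCommGroup E] [NormedSpace ℝ E] [FiniteDimensional ℝ E]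
  {H : ℝ → Curv.Coeff E} {x : E}

/-- `Fam.pd`, `Fam.dt_pd`, `Fam.hasDerivAt`. -/
theorem pd_dt {F : ℝ → E → ℝ} (hF : Fam F x) (i : Fin (finrank ℝ E)) :
    HasDerivAt (fun t => Curv.pd i (F t) x) (Curv.pd i (dt F) x) 0 := by
  have h1 := (hF.pd i).hasDerivAt
  rw [(hF.dt_pd i).self_of_nhds] at h1
  exact h1

theorem pd2_dt {F : ℝ → E → ℝ} (hF : Fam F x) (i j : Fin (finrank ℝ E)) :
    HasDerivAt (fun t => Curv.pd i (Curv.pd j (F t)) x) (Curv.pd i (Curv.pd j (dt F)) x) 0 := by
  have h1 := pd_dt (hF.pd j) i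
  have h2 : Curv.pd i (dt fun t => Curv.pd j (F t)) x = Curv.pd i (Curv.pd j (dt F)) x := by
    unfold Curv.pd
    exact congrArg (fun L : E →L[ℝ] ℝ => L (finBasis ℝ E i)) (hF.dt_pd j).fderiv_eq
  rw [h2] at h1
  exact h1

private theorem V1_fam_christoffel (hH : ∀ i j, Fam (fun t y => H t y i j) x)
    (i j k : Fin (finrank ℝ E)) : Fam (fun t => Curv.christoffel (H t) i j k) x := by
  filter_upwards [(hH j k).pd i, (hH i k).pd j, (hH i j).pd k] with y h1 h2 h3
  exact ((h1.add h2).sub h3).div_const 2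

theorem christoffel_dt (hH : ∀ i j, Fam (fun t y => H t y i j) x)
    (i j k : Fin (finrank ℝ E)) :
    HasDerivAt (fun t => Curv.christoffel (H t) i j k x)
      ((Curv.pd i (dt fun t y => H t y j k) x + Curv.pd j (dt fun t y => H t y i k) x -
        Curv.pd k (dt fun t y => H t y i j) x) / 2) 0 :=
  (((pd_dt (hH j k) i).add (pd_dt (hH i k) j)).sub (pd_dt (hH i j) k)).div_const 2

theorem pd_christoffel_dt (hH : ∀ i j, Fam (fun t y => H t y i j) x)
    (m i j k : Fin (finrank ℝ E)) :
    HasDerivAt (fun t => Curv.pd m (Curv.christoffel (H t) i j k) x)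
      ((Curv.pd m (Curv.pd i (dt fun t y => H t y j k)) x +
        Curv.pd m (Curv.pd j (dt fun t y => H t y i k)) x -
        Curv.pd m (Curv.pd k (dt fun t y => H t y i j)) x) / 2) 0 := by
  have h1 := pd_dt (V1_fam_christoffel hH i j k) m
  have hn : ∀ᶠ y in 𝓝 x, ∀ i j, Fam (fun t y => H t y i j) y := by
    rw [eventually_all]
    intro i
    rw [eventually_all]
    intro j
    exact eventually_eventually_nhds.2 (hH i j)
  have h2 : (dt fun t => Curv.christoffel (H t) i j k) =ᶠ[𝓝 x] fun y =>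
      (Curv.pd i (dt fun t y => H t y j k) y + Curv.pd j (dt fun t y => H t y i k) y -
        Curv.pd k (dt fun t y => H t y i j) y) / 2 := by
    filter_upwards [hn] with y hy
    exact (christoffel_dt hy i j k).deriv
  have d : ∀ a b c : Fin (finrank ℝ E), DifferentiableAt ℝ
      (Curv.pd a (dt fun t y => H t y b c)) x := fun a b c =>
    (g3_pd_smooth (hH b c).smF_dt.self a).differentiableAt (by simp)
  have h3 : HasFDerivAt (fun y => (Curv.pd i (dt fun t y => H t y j k) y +
      Curv.pd j (dt fun t y => H t y i k) y - Curv.pd k (dt fun t y => H t y i j) y) / 2)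
      ((2⁻¹ : ℝ) • (fderiv ℝ (Curv.pd i (dt fun t y => H t y j k)) x +
        fderiv ℝ (Curv.pd j (dt fun t y => H t y i k)) x -
        fderiv ℝ (Curv.pd k (dt fun t y => H t y i j)) x)) x := by
    simp only [div_eq_mul_inv]
    exact (((d i j k).hasFDerivAt.add (d j i k).hasFDerivAt).sub
      (d k i j).hasFDerivAt).mul_const _
  have h4 : Curv.pd m (dt fun t => Curv.christoffel (H t) i j k) x =
      (Curv.pd m (Curv.pd i (dt fun t y => H t y j k)) x +
        Curv.pd m (Curv.pd j (dt fun t y => H t y i k)) x -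
        Curv.pd m (Curv.pd k (dt fun t y => H t y i j)) x) / 2 := by
    have h5 : fderiv ℝ (dt fun t => Curv.christoffel (H t) i j k) x = _ :=
      h2.fderiv_eq.trans h3.fderiv
    have h6 := congrArg (fun L : E →L[ℝ] ℝ => L (finBasis ℝ E m)) h5
    refine Eq.trans h6 ?_
    simp only [ContinuousLinearMap.smul_apply, ContinuousLinearMap.sub_apply,
      ContinuousLinearMap.add_apply, smul_eq_mul]
    unfold Curv.pd
    ring
  rw [h4] at h1
  exact h1

end Pool.Agent.Lib.MP_df705a_gt.Coll.T
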