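import Pool.Agent.Lib.MP_df705a_gt.Coll.T.V1
import Pool.Agent.Lib.MP_df705a_gt.Mg.G063

/-!
# Module T, V2: derivatives of the inverse metric and of the curvature
-/

open scoped Manifold ContDiff Topology
open Set Bundle Module Filter MeasureTheory

noncomputable section

set_option linter.unusedSectionVars false

namespace Pool.Agent.Lib.MP_df705a_gt.Coll.T

open Pool.Agent.Lib.MP_df705a_gt.Twist Pool.Agent.Lib.MP_df705a_gt.Perm
open Pool.Agent.Lib.MP_df705a_gt.Circ (cf Para)

variable {E : Type*} [NormedAddCommGroup E] [NormedSpace ℝ E] [FiniteDimensional ℝ E]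
  {H : ℝ → Curv.Coeff E} {x : E}

/-- `fderiv_inv` (Twist/MatCalc.lean) for the map `t ↦ H t x` (on the space `ℝ`). -/
theorem inv_dt (hH : ∀ i j, Fam (fun t y => H t y i j) x) (N : Nrm (H 0) x)
    (i j : Fin (finrank ℝ E)) :
    HasDerivAt (fun t => (H t x)⁻¹ i j) (-dt (fun t y => H t y i j) x) 0 := by
  have h1 : ∀ i j, ContDiffAt ℝ 1 (fun t => H t x i j) 0 := by
    intro i j
    have h2 : ContDiffAt ℝ ∞ (fun t : ℝ => H t x i j) 0 :=
      ContDiffAt.comp (0 : ℝ) (g := fun p : ℝ × E => H p.1 p.2 i j)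
        (f := fun t : ℝ => ((t, x) : ℝ × E)) (hH i j).self_of_nhds
        (contDiffAt_id.prodMk contDiffAt_const)
    exact h2.of_le (by simp)
  have hdet : (H 0 x).det ≠ 0 := by
    rw [N.one, Matrix.det_one]
    exact one_ne_zero
  have h3 := fderiv_inv (h := fun t => H t x) h1 hdet i j (1 : ℝ)
  have h4 : DifferentiableAt ℝ (fun t => (H t x)⁻¹ i j) 0 :=
    (contDiffAt_inv (h := fun t => H t x) h1 hdet i j).differentiableAt one_ne_zero
  have h5 : deriv (fun t => (H t x)⁻¹ i j) 0 = -dt (fun t y => H t y i j) x := by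
    rw [← fderiv_apply_one_eq_deriv, h3, N.inv]
    congr 1
    rw [Finset.sum_eq_single i, Finset.sum_eq_single j]
    · rw [Matrix.one_apply_eq, Matrix.one_apply_eq, one_mul, one_mul,
        fderiv_apply_one_eq_deriv]
      rfl
    · intro b _ hb
      rw [Matrix.one_apply_ne hb, mul_zero, zero_mul]
    · intro hb
      exact absurd (Finset.mem_univ _) hb
    · intro b _ hb
      apply Finset.sum_eq_zero
      intro l _
      rw [Matrix.one_apply_ne hb.symm, zero_mul, zero_mul]
    · intro hb
      exact absurd (Finset.mem_univ _) hb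
  rw [← h5]
  exact h4.hasDerivAt

/-- `pd_christoffel_dt`; the products of Christoffel symbols have derivative `0` at `t = 0`
(`Nrm.christoffel`); `pd_comm` for `dt fun t y => H t y k l` (`Fam.smF_dt`). -/
theorem riemann_dt (hH : ∀ i j, Fam (fun t y => H t y i j) x) (N : Nrm (H 0) x)
    (i j k l : Fin (finrank ℝ E)) :
    HasDerivAt (fun t => Curv.riemann (H t) i j k l x)
      ((Curv.pd i (Curv.pd k (dt fun t y => H t y j l)) x -
        Curv.pd i (Curv.pd l (dt fun t y => H t y j k)) x -
        Curv.pd j (Curv.pd k (dt fun t y => H t y i l)) x +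
        Curv.pd j (Curv.pd l (dt fun t y => H t y i k)) x) / 2) 0 := by
  have h1 := pd_christoffel_dt hH i j k l
  have h2 := pd_christoffel_dt hH j i k l
  have h3 : ∀ p q, HasDerivAt (fun t => (H t x)⁻¹ p q *
      (Curv.christoffel (H t) i k p x * Curv.christoffel (H t) j l q x -
        Curv.christoffel (H t) j k p x * Curv.christoffel (H t) i l q x)) 0 0 := by
    intro p q
    have a1 := inv_dt hH N p q
    have a2 := christoffel_dt hH i k p
    have a3 := christoffel_dt hH j l q
    have a4 := christoffel_dt hH j k p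
    have a5 := christoffel_dt hH i l q
    have a6 := a1.mul ((a2.mul a3).sub (a4.mul a5))
    refine HasDerivAt.congr_deriv a6 ?_
    simp only [Pi.sub_apply, Pi.mul_apply, N.christoffel i k p, N.christoffel j l q,
      N.christoffel j k p, N.christoffel i l q, mul_zero, zero_mul, add_zero, sub_zero]
  have h4 : HasDerivAt (fun t => ∑ p, ∑ q, (H t x)⁻¹ p q *
      (Curv.christoffel (H t) i k p x * Curv.christoffel (H t) j l q x -
        Curv.christoffel (H t) j k p x * Curv.christoffel (H t) i l q x)) (∑ p : Fin (finrank ℝ E),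
          ∑ q : Fin (finrank ℝ E), (0 : ℝ)) 0 :=
    HasDerivAt.fun_sum fun p _ => HasDerivAt.fun_sum fun q _ => h3 p q
  have h5 := (h1.sub h2).add h4
  have h6 : Curv.pd i (Curv.pd j (dt fun t y => H t y k l)) x =
      Curv.pd j (Curv.pd i (dt fun t y => H t y k l)) x :=
    pd_comm (hH k l).smF_dt.self i j
  have h7 : (Curv.pd i (Curv.pd j (dt fun t y => H t y k l)) x +
        Curv.pd i (Curv.pd k (dt fun t y => H t y j l)) x -
        Curv.pd i (Curv.pd l (dt fun t y => H t y j k)) x) / 2 -
      (Curv.pd j (Curv.pd i (dt fun t y => H t y k l)) x +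
        Curv.pd j (Curv.pd k (dt fun t y => H t y i l)) x -
        Curv.pd j (Curv.pd l (dt fun t y => H t y i k)) x) / 2 +
      ∑ p : Fin (finrank ℝ E), ∑ q : Fin (finrank ℝ E), (0 : ℝ) =
      (Curv.pd i (Curv.pd k (dt fun t y => H t y j l)) x -
        Curv.pd i (Curv.pd l (dt fun t y => H t y j k)) x -
        Curv.pd j (Curv.pd k (dt fun t y => H t y i l)) x +
        Curv.pd j (Curv.pd l (dt fun t y => H t y i k)) x) / 2 := by
    rw [h6]
    simp only [Finset.sum_const_zero]
    ring
  rw [h7] at h5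
  exact h5

end Pool.Agent.Lib.MP_df705a_gt.Coll.T
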