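import Pool.Agent.Lib.MP_df705a_gt.Mg.G059

/-!
# Module T, W1: rules for the gradient product
-/

open scoped Manifold ContDiff Topology
open Set Bundle Module Filter MeasureTheory

noncomputable section

set_option linter.unusedSectionVars false

namespace Pool.Agent.Lib.MP_df705a_gt.Coll.T

open Pool.Agent.Lib.MP_df705a_gt.Twist Pool.Agent.Lib.MP_df705a_gt.Perm
open Pool.Agent.Lib.MP_df705a_gt.Circ (cf Para)

variable {E : Type*} [NormedAddCommGroup E] [NormedSpace ℝ E] [FiniteDimensional ℝ E]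
  {M : Type*} [TopologicalSpace M] [ChartedSpace E M] [IsManifold 𝓘(ℝ, E) ∞ M]
  {h : Met E M} {u v w : M → ℝ}

theorem sm_mul (hu : Sm E u) (hv : Sm E v) : Sm E (fun p => u p * v p) :=
  ContMDiff.mul hu hv

theorem sm_sub (hu : Sm E u) (hv : Sm E v) : Sm E (fun p => u p - v p) :=
  ContMDiff.sub hu hv

theorem sm_sum {ι : Type*} (s : Finset ι) {u : ι → M → ℝ} (hu : ∀ a ∈ s, Sm E (u a)) :
    Sm E (fun p => ∑ a ∈ s, u a p) := by
  classical
  induction s using Finset.induction_on with
  | empty =>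
    simp only [Finset.sum_empty]
    exact sm_const 0
  | insert a s ha ih =>
    simp only [Finset.sum_insert ha]
    exact sm_add (hu a (Finset.mem_insert_self a s))
      (ih fun b hb => hu b (Finset.mem_insert_of_mem hb))

theorem sm_ds {w : M → ℝ} (hw : Sm E w) (hrc : Sm E (Rc h w w)) : Sm E (DS h w) := by
  have hl : Sm E (Lap h w) := Circ.sm_lap h hw
  have hg : Sm E (Grd h w w) := Circ.sm_grd h hw hw
  have h1 := sm_mul hl hl
  have h2 := Circ.sm_grd h hw hl
  have h3 := sm_smul (Circ.sm_lap h hg) (1 / 2)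
  have h4 := sm_sub (sm_sub (sm_add h1 h2) h3) hrc
  have e : DS h w = fun p => Lap h w p * Lap h w p + Grd h w (Lap h w) p -
      1 / 2 * Lap h (Grd h w w) p - Rc h w w p := by
    funext p
    unfold DS
    ring
  rw [e]
  exact h4

theorem grd_symm (u v : M → ℝ) (y : M) : Grd h u v y = Grd h v u y := by
  have hs : ∀ i j, (coeff h y (extChartAt 𝓘(ℝ, E) y y))⁻¹ i j =
      (coeff h y (extChartAt 𝓘(ℝ, E) y y))⁻¹ j i := by
    have h1 : (coeff h y (extChartAt 𝓘(ℝ, E) y y)).transpose =
        coeff h y (extChartAt 𝓘(ℝ, E) y y) := by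
      ext i j
      exact chartMetric_symm 𝓘(ℝ, E) (finBasis ℝ E) h y _ j i
    intro i j
    have h2 := congrFun (congrFun (Matrix.transpose_nonsing_inv
      (coeff h y (extChartAt 𝓘(ℝ, E) y y))) i) j
    rw [h1] at h2
    exact h2.symm
  unfold Grd gradC
  rw [Finset.sum_comm]
  refine Finset.sum_congr rfl fun i _ => Finset.sum_congr rfl fun j _ => ?_
  rw [hs]
  ring

theorem grd_mul (hu : Sm E u) (hv : Sm E v) (w : M → ℝ) (y : M) :
    Grd h (fun p => u p * v p) w y = u y * Grd h v w y + v y * Grd h u w y := by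
  have hu1 := (G4.rd_contDiffAt hu y).differentiableAt (by simp)
  have hv1 := (G4.rd_contDiffAt hv y).differentiableAt (by simp)
  have e1 : ∀ i, Curv.pd i (rd E y fun p => u p * v p) (extChartAt 𝓘(ℝ, E) y y) =
      u y * Curv.pd i (rd E y v) (extChartAt 𝓘(ℝ, E) y y) +
      v y * Curv.pd i (rd E y u) (extChartAt 𝓘(ℝ, E) y y) := by
    intro i
    have := G4.pd_mul hu1 hv1 i
    rw [G4.rd_self, G4.rd_self] at this
    exact this
  unfold Grd gradC
  simp only [e1, Finset.mul_sum, ← Finset.sum_add_distrib]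
  refine Finset.sum_congr rfl fun i _ => Finset.sum_congr rfl fun j _ => ?_
  ring

theorem grd_const (c : ℝ) (w : M → ℝ) (y : M) : Grd h (fun _ => c) w y = 0 := by
  have e1 : ∀ i, Curv.pd i (rd E y fun _ : M => c) (extChartAt 𝓘(ℝ, E) y y) = 0 := by
    intro i
    have : (rd E y fun _ : M => c) = fun _ => c := rfl
    rw [this, G4.pd_const]
  unfold Grd gradC
  simp only [e1, zero_mul, mul_zero, Finset.sum_const_zero]

end Pool.Agent.Lib.MP_df705a_gt.Coll.T
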