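import Pool.Agent.Lib.MP_df705a_gt.Coll.T.W1

/-!
# Module T, W2: integration by parts
-/

open scoped Manifold ContDiff Topology
open Set Bundle Module Filter MeasureTheory

noncomputable section

set_option linter.unusedSectionVars false

namespace Pool.Agent.Lib.MP_df705a_gt.Coll.T

open Pool.Agent.Lib.MP_df705a_gt.Twist Pool.Agent.Lib.MP_df705a_gt.Perm
open Pool.Agent.Lib.MP_df705a_gt.Circ (cf Para)

variable {E : Type*} [NormedAddCommGroup E] [NormedSpace ℝ E] [FiniteDimensional ℝ E]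
  {M : Type*} [TopologicalSpace M] [ChartedSpace E M] [IsManifold 𝓘(ℝ, E) ∞ M]
  [MeasurableSpace E] [BorelSpace E] [MeasurableSpace M] [BorelSpace M]
  [CompactSpace M] [T2Space M]
  {h : Met E M} {μ : Measure M}

theorem integrable_sm (hμ : IsRVol h μ) {f : M → ℝ} (hf : Sm E f) : Integrable f μ := by
  have := hμ.fin
  exact (ContMDiff.continuous hf).integrable_of_hasCompactSupport
    (HasCompactSupport.of_compactSpace f)

/-- `IsRVol.green` with `v = 1`. -/
theorem int_lap (hμ : IsRVol h μ) {u : M → ℝ} (hu : Sm E u) : ∫ y, Lap h u y ∂μ = 0 := by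
  have h1 := hμ.green hu (sm_const (E := E) (M := M) 1)
  simpa only [one_mul, grd_const, add_zero] using h1

theorem int_grd (hμ : IsRVol h μ) {u v : M → ℝ} (hu : Sm E u) (hv : Sm E v) :
    ∫ y, Grd h u v y ∂μ = -∫ y, u y * Lap h v y ∂μ := by
  have h1 := hμ.green hv hu
  rw [integral_add (integrable_sm hμ (sm_mul hu (Circ.sm_lap h hv)))
    (integrable_sm hμ (Circ.sm_grd h hu hv))] at h1
  linarith

/-- `IsRVol.green` for `φ` and `a ψ`; `grd_mul`. -/
theorem int_mul_grd (hμ : IsRVol h μ) {a φ ψ : M → ℝ} (ha : Sm E a) (hφ : Sm E φ)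
    (hψ : Sm E ψ) :
    ∫ y, a y * Grd h φ ψ y ∂μ = -∫ y, ψ y * (a y * Lap h φ y + Grd h a φ y) ∂μ := by
  have h1 := hμ.green hφ (sm_mul ha hψ)
  have h2 : ∀ y, a y * ψ y * Lap h φ y + Grd h (fun p => a p * ψ p) φ y =
      a y * Grd h φ ψ y + ψ y * (a y * Lap h φ y + Grd h a φ y) := by
    intro y
    rw [grd_mul ha hψ, grd_symm ψ φ]
    ring
  simp only [h2] at h1
  rw [integral_add (integrable_sm hμ (sm_mul ha (Circ.sm_grd h hφ hψ)))
    (integrable_sm hμ (sm_mul hψ (sm_add (sm_mul ha (Circ.sm_lap h hφ))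
      (Circ.sm_grd h ha hφ))))] at h1
  linarith

/-- `int_mul_grd` with the roles of `u` and `v = Lap h w` such that `∫ φ Γ(w, Δw) =
-∫ Δw (φ Δw + Γ(φ, w))`; `∫ φ Δ Γ(w,w) = ∫ Δφ Γ(w,w)`. -/
theorem int_mul_ds (hμ : IsRVol h μ) {w φ : M → ℝ} (hw : Sm E w) (hφ : Sm E φ)
    (hrc : Sm E (Rc h w w)) :
    ∫ y, φ y * DS h w y ∂μ = -∫ y, Grd h φ w y * Lap h w y ∂μ -
      (1 / 2) * ∫ y, Lap h φ y * Grd h w w y ∂μ - ∫ y, φ y * Rc h w w y ∂μ := by
  have hl : Sm E (Lap h w) := Circ.sm_lap h hw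
  have hg : Sm E (Grd h w w) := Circ.sm_grd h hw hw
  have hlg : Sm E (Lap h (Grd h w w)) := Circ.sm_lap h hg
  have hgl : Sm E (Grd h w (Lap h w)) := Circ.sm_grd h hw hl
  have hφw : Sm E (Grd h φ w) := Circ.sm_grd h hφ hw
  have h1 := int_mul_grd hμ hφ hw hl
  have h2 : ∀ y, Lap h w y * (φ y * Lap h w y + Grd h φ w y) =
      φ y * (Lap h w y * Lap h w y) + Grd h φ w y * Lap h w y := by
    intro y
    ring
  simp only [h2] at h1
  rw [integral_add (integrable_sm hμ (sm_mul hφ (sm_mul hl hl)))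
    (integrable_sm hμ (sm_mul hφw hl))] at h1
  have h3 : ∫ y, φ y * Lap h (Grd h w w) y ∂μ = ∫ y, Lap h φ y * Grd h w w y ∂μ := by
    have e1 := int_grd hμ hφ hg
    have e2 := int_grd hμ hg hφ
    have e3 : ∀ y, Grd h (Grd h w w) φ y = Grd h φ (Grd h w w) y := fun y => grd_symm _ _ y
    simp only [e3] at e2
    have e4 : ∀ y, Grd h w w y * Lap h φ y = Lap h φ y * Grd h w w y := fun y => mul_comm _ _
    simp only [e4] at e2
    linarith
  have h4 : ∀ y, φ y * DS h w y = φ y * (Lap h w y * Lap h w y) + φ y * Grd h w (Lap h w) y -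
      (1 / 2) * (φ y * Lap h (Grd h w w) y) - φ y * Rc h w w y := by
    intro y
    unfold DS
    ring
  simp only [h4]
  rw [integral_sub (integrable_sm hμ (sm_sub (sm_add (sm_mul hφ (sm_mul hl hl)) (sm_mul hφ hgl))
      (sm_smul (sm_mul hφ hlg) (1 / 2)))) (integrable_sm hμ (sm_mul hφ hrc)),
    integral_sub (integrable_sm hμ (sm_add (sm_mul hφ (sm_mul hl hl)) (sm_mul hφ hgl)))
      (integrable_sm hμ (sm_smul (sm_mul hφ hlg) (1 / 2))),
    integral_add (integrable_sm hμ (sm_mul hφ (sm_mul hl hl)))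
      (integrable_sm hμ (sm_mul hφ hgl)), integral_const_mul, h3, h1]
  ring

/-- `int_mul_ds` with `φ = 1`. -/
theorem int_ds (hμ : IsRVol h μ) {w : M → ℝ} (hw : Sm E w) (hrc : Sm E (Rc h w w)) :
    ∫ y, DS h w y ∂μ = -∫ y, Rc h w w y ∂μ := by
  have h1 := int_mul_ds hμ hw (sm_const (E := E) (M := M) 1) hrc
  simp only [one_mul, grd_const, zero_mul, lap_const, integral_zero, mul_zero, neg_zero,
    sub_zero, zero_sub] at h1
  exact h1

end Pool.Agent.Lib.MP_df705a_gt.Coll.T
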