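import Pool.Agent.Lib.MP_df705a_gt.Coll.T.B2
import Pool.Agent.Lib.MP_df705a_gt.Coll.T.B3
import Pool.Agent.Lib.MP_df705a_gt.Coll.T.W2
import Pool.Agent.Lib.MP_df705a_gt.Coll.T.S3

/-!
# Module T, W3: weak identities: products of differentials
-/

open scoped Manifold ContDiff Topology
open Set Bundle Module Filter MeasureTheory

noncomputable section

set_option linter.unusedSectionVars false

namespace Pool.Agent.Lib.MP_df705a_gt.Coll.T

open Pool.Agent.Lib.MP_df705a_gt.Twist Pool.Agent.Lib.MP_df705a_gt.Perm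
open Pool.Agent.Lib.MP_df705a_gt.Circ (cf Para)

variable {E : Type*} [NormedAddCommGroup E] [NormedSpace ℝ E] [FiniteDimensional ℝ E]
  {M : Type*} [TopologicalSpace M] [ChartedSpace E M] [IsManifold 𝓘(ℝ, E) ∞ M]
  [MeasurableSpace E] [BorelSpace E] [MeasurableSpace M] [BorelSpace M]
  [CompactSpace M] [T2Space M]
  {h : Met E M} {μ : Measure M}
  {lam : ℝ}

/-- `hess_grd` with `u = v = w`, `ipM_comm`; `int_grd`: `∫ Γ(w,Γ(φ,w)) = -∫ Δw Γ(φ,w)`,
`∫ Γ(φ,Γ(w,w)) = -∫ Δφ Γ(w,w)`; `int_mul_ds`, `rc_einstein`. -/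
theorem weak_dd (hμ : IsRVol h μ)
    (hE : ∀ y, ric (coeff h y) (extChartAt 𝓘(ℝ, E) y y) = lam • cof h y)
    {w φ : M → ℝ} (hw : Sm E w) (hφ : Sm E φ) :
    ∫ y, ipM (cof h y) (dd E w w y) (hs h φ y) ∂μ =
      ∫ y, φ y * DS h w y ∂μ + ∫ y, Lap h φ y * Grd h w w y ∂μ +
      lam * ∫ y, φ y * Grd h w w y ∂μ := by
  have hrc := sm_rc h hw hw
  have hφw : Sm E (Grd h φ w) := Circ.sm_grd h hφ hw
  have hww : Sm E (Grd h w w) := Circ.sm_grd h hw hw
  have e1 : ∀ y, ipM (cof h y) (dd E w w y) (hs h φ y) =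
      Grd h (Grd h φ w) w y - (1 / 2) * Grd h (Grd h w w) φ y := by
    intro y
    rw [ipM_comm (cof_symm h y), hess_grd hφ hw hw, grd_symm (Grd h φ w) w,
      grd_symm (Grd h w w) φ]
    ring
  have h1 := int_grd hμ hφw hw
  have h2 := int_grd hμ hww hφ
  have h3 := int_mul_ds hμ hw hφ hrc
  have e2 : ∀ y, φ y * Rc h w w y = lam * (φ y * Grd h w w y) := by
    intro y
    rw [rc_einstein (hE y)]
    ring
  simp only [e2, integral_const_mul] at h3
  have e3 : ∀ y, Grd h w w y * Lap h φ y = Lap h φ y * Grd h w w y := fun y => mul_comm _ _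
  simp only [e3] at h2
  simp only [e1]
  rw [integral_sub (integrable_sm hμ (Circ.sm_grd h hφw hw))
    (integrable_sm hμ (sm_smul (Circ.sm_grd h hww hφ) (1 / 2))), integral_const_mul, h1, h2, h3]
  ring

/-- `bochner`, integrated. -/
theorem int_hs_sq (hμ : IsRVol h μ)
    (hE : ∀ y, ric (coeff h y) (extChartAt 𝓘(ℝ, E) y y) = lam • cof h y)
    {φ : M → ℝ} (hφ : Sm E φ) :
    ∫ y, ipM (cof h y) (hs h φ y) (hs h φ y) ∂μ =
      ∫ y, Lap h φ y ^ 2 ∂μ - lam * ∫ y, Grd h φ φ y ∂μ := by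
  have hl : Sm E (Lap h φ) := Circ.sm_lap h hφ
  have hg : Sm E (Grd h φ φ) := Circ.sm_grd h hφ hφ
  have e1 : ∀ y, ipM (cof h y) (hs h φ y) (hs h φ y) =
      (1 / 2) * Lap h (Grd h φ φ) y - Grd h (Lap h φ) φ y - lam * Grd h φ φ y := by
    intro y
    rw [bochner hφ hφ, rc_einstein (hE y), grd_symm (Lap h φ) φ]
    ring
  have h1 := int_lap hμ hg
  have h2 := int_grd hμ hl hφ
  have e2 : ∀ y, Lap h φ y * Lap h φ y = Lap h φ y ^ 2 := fun y => (sq _).symm
  simp only [e2] at h2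
  simp only [e1]
  rw [integral_sub (integrable_sm hμ (sm_sub (sm_smul (Circ.sm_lap h hg) (1 / 2))
      (Circ.sm_grd h hl hφ))) (integrable_sm hμ (sm_smul hg lam)),
    integral_sub (integrable_sm hμ (sm_smul (Circ.sm_lap h hg) (1 / 2)))
      (integrable_sm hμ (Circ.sm_grd h hl hφ)), integral_const_mul, integral_const_mul, h1, h2]
  ring

end Pool.Agent.Lib.MP_df705a_gt.Coll.T
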