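import Pool.Agent.Lib.MP_df705a_gt.Coll.T.B2
import Pool.Agent.Lib.MP_df705a_gt.Coll.T.B3
import Pool.Agent.Lib.MP_df705a_gt.Coll.T.W2
import Pool.Agent.Lib.MP_df705a_gt.Coll.T.S3

/-!
# Module T, W4: weak identities: Lie derivatives
-/

open scoped Manifold ContDiff Topology
open Set Bundle Module Filter MeasureTheory

noncomputable section

set_option linter.unusedSectionVars false

namespace Pool.Agent.Lib.MP_df705a_gt.Coll.T

open Pool.Agent.Lib.MP_df705a_gt.Twist Pool.Agent.Lib.MP_df705a_gt.Perm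
open Pool.Agent.Lib.MP_df705a_gt.Circ (cf Para)

variable {E : Type*} [NormedAddCommGroup E] [NormedSpace ℝ E] [FiniteDimensional ℝ E]
  {M : Type*} [TopologicalSpace M] [ChartedSpace E M] [IsManifold 𝓘(ℝ, E) ∞ M]
  [MeasurableSpace E] [BorelSpace E] [MeasurableSpace M] [BorelSpace M]
  [CompactSpace M] [T2Space M]
  {h : Met E M} {μ : Measure M}
  {lam : ℝ}

private theorem w4_add (hμ : IsRVol h μ) {f g : M → ℝ} (hf : Sm E f) (hg : Sm E g) :
    ∫ y, (f y + g y) ∂μ = ∫ y, f y ∂μ + ∫ y, g y ∂μ :=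
  integral_add (integrable_sm hμ hf) (integrable_sm hμ hg)

private theorem w4_sub (hμ : IsRVol h μ) {f g : M → ℝ} (hf : Sm E f) (hg : Sm E g) :
    ∫ y, (f y - g y) ∂μ = ∫ y, f y ∂μ - ∫ y, g y ∂μ :=
  integral_sub (integrable_sm hμ hf) (integrable_sm hμ hg)

/-- `ipM_add_left`, `ipM_smul_left`; `2 a ⟨hs b, hs φ⟩ = a (ΔΓ(b,φ) - Γ(b,Δφ) - Γ(φ,Δb)) -
2 lam a Γ(b,φ)` (`bochner`, `rc_einstein`), `2 ⟨dd a b, hs φ⟩ = Γ(a,Γ(φ,b)) + Γ(b,Γ(φ,a)) -
Γ(φ,Γ(a,b))` (`hess_grd`, `ipM_comm`); then `∫ a ΔΓ(b,φ) = -∫ Γ(a,Γ(φ,b))`,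
`∫ Γ(b,Γ(φ,a)) = -∫ Δb Γ(φ,a)`, `-∫ a Γ(φ,Δb) = ∫ Δb (a Δφ + Γ(a,φ))`,
`-∫ a Γ(b,Δφ) = ∫ Δφ (a Δb + Γ(a,b))`, `-∫ Γ(φ,Γ(a,b)) = ∫ Δφ Γ(a,b)`,
`-2 lam ∫ a Γ(b,φ) = 2 lam ∫ φ (a Δb + Γ(a,b))` (`int_grd`, `int_mul_grd`, `grd_symm`). -/
theorem weak_lie (hμ : IsRVol h μ)
    (hE : ∀ y, ric (coeff h y) (extChartAt 𝓘(ℝ, E) y y) = lam • cof h y)
    {a b φ : M → ℝ} (ha : Sm E a) (hb : Sm E b) (hφ : Sm E φ) :
    ∫ y, ipM (cof h y) ((2 * a y) • hs h b y + (2 : ℝ) • dd E a b y) (hs h φ y) ∂μ =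
      ∫ y, Lap h φ y * (2 * a y * Lap h b y + 2 * Grd h a b y) ∂μ +
      lam * ∫ y, φ y * (2 * a y * Lap h b y + 2 * Grd h a b y) ∂μ := by
  have hLφ : Sm E (Lap h φ) := Circ.sm_lap h hφ
  have hLb : Sm E (Lap h b) := Circ.sm_lap h hb
  have hbφ : Sm E (Grd h b φ) := Circ.sm_grd h hb hφ
  have hφa : Sm E (Grd h φ a) := Circ.sm_grd h hφ ha
  have hab : Sm E (Grd h a b) := Circ.sm_grd h ha hb
  have hφb : Grd h φ b = Grd h b φ := funext fun y => grd_symm φ b y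
  have haφ : Grd h a φ = Grd h φ a := funext fun y => grd_symm a φ y
  -- pointwise
  have key : ∀ y, ipM (cof h y) ((2 * a y) • hs h b y + (2 : ℝ) • dd E a b y) (hs h φ y) =
      a y * Lap h (Grd h b φ) y - a y * Grd h b (Lap h φ) y - a y * Grd h φ (Lap h b) y -
      (2 * lam) * (a y * Grd h b φ y) + Grd h a (Grd h b φ) y + Grd h b (Grd h φ a) y -
      Grd h φ (Grd h a b) y := by
    intro y
    have e1 := bochner (h := h) hb hφ y
    have e2 := hess_grd (h := h) hφ ha hb y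
    rw [rc_einstein (hE y)] at e1
    rw [hφb] at e2
    rw [ipM_add_left, ipM_smul_left, ipM_smul_left, ipM_comm (cof_symm h y) (dd E a b y), e1, e2]
    ring
  have s1 : Sm E (fun y => a y * Lap h (Grd h b φ) y) := sm_mul ha (Circ.sm_lap h hbφ)
  have s2 : Sm E (fun y => a y * Grd h b (Lap h φ) y) := sm_mul ha (Circ.sm_grd h hb hLφ)
  have s3 : Sm E (fun y => a y * Grd h φ (Lap h b) y) := sm_mul ha (Circ.sm_grd h hφ hLb)
  have s4 : Sm E (fun y => (2 * lam) * (a y * Grd h b φ y)) := sm_smul (sm_mul ha hbφ) _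
  have s5 : Sm E (fun y => Grd h a (Grd h b φ) y) := Circ.sm_grd h ha hbφ
  have s6 : Sm E (fun y => Grd h b (Grd h φ a) y) := Circ.sm_grd h hb hφa
  have s7 : Sm E (fun y => Grd h φ (Grd h a b) y) := Circ.sm_grd h hφ hab
  have i2 := int_mul_grd hμ ha hb hLφ
  have i3 := int_mul_grd hμ ha hφ hLb
  have i4 := int_mul_grd hμ ha hb hφ
  have i5 := int_grd hμ ha hbφ
  have i6 := int_grd hμ hφa hb
  have i7 := int_grd hμ hab hφ
  rw [show (fun y => Grd h (Grd h φ a) b y) = fun y => Grd h b (Grd h φ a) y from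
    funext fun y => grd_symm _ _ y] at i6
  rw [show (fun y => Grd h (Grd h a b) φ y) = fun y => Grd h φ (Grd h a b) y from
    funext fun y => grd_symm _ _ y] at i7
  have q1 : Sm E (fun y => Lap h φ y * (a y * Lap h b y)) := sm_mul hLφ (sm_mul ha hLb)
  have q2 : Sm E (fun y => Lap h φ y * Grd h a b y) := sm_mul hLφ hab
  have q3 : Sm E (fun y => Lap h b y * Grd h φ a y) := sm_mul hLb hφa
  have q4 : Sm E (fun y => φ y * (a y * Lap h b y)) := sm_mul hφ (sm_mul ha hLb)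
  have q5 : Sm E (fun y => φ y * Grd h a b y) := sm_mul hφ hab
  have j2 : ∫ y, Lap h φ y * (a y * Lap h b y + Grd h a b y) ∂μ =
      ∫ y, Lap h φ y * (a y * Lap h b y) ∂μ + ∫ y, Lap h φ y * Grd h a b y ∂μ := by
    simp only [mul_add]
    exact w4_add hμ q1 q2
  have j3 : ∫ y, Lap h b y * (a y * Lap h φ y + Grd h a φ y) ∂μ =
      ∫ y, Lap h φ y * (a y * Lap h b y) ∂μ + ∫ y, Lap h b y * Grd h φ a y ∂μ := by
    rw [← w4_add hμ q1 q3, haφ]
    refine integral_congr_ae (Eventually.of_forall fun y => ?_)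
    change Lap h b y * (a y * Lap h φ y + Grd h φ a y) =
      Lap h φ y * (a y * Lap h b y) + Lap h b y * Grd h φ a y
    ring
  have j4 : ∫ y, φ y * (a y * Lap h b y + Grd h a b y) ∂μ =
      ∫ y, φ y * (a y * Lap h b y) ∂μ + ∫ y, φ y * Grd h a b y ∂μ := by
    simp only [mul_add]
    exact w4_add hμ q4 q5
  have j6 : ∫ y, Grd h φ a y * Lap h b y ∂μ = ∫ y, Lap h b y * Grd h φ a y ∂μ :=
    integral_congr_ae (Eventually.of_forall fun y => mul_comm _ _)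
  have j7 : ∫ y, Grd h a b y * Lap h φ y ∂μ = ∫ y, Lap h φ y * Grd h a b y ∂μ :=
    integral_congr_ae (Eventually.of_forall fun y => mul_comm _ _)
  have r1 : ∫ y, Lap h φ y * (2 * a y * Lap h b y + 2 * Grd h a b y) ∂μ =
      2 * ∫ y, Lap h φ y * (a y * Lap h b y) ∂μ + 2 * ∫ y, Lap h φ y * Grd h a b y ∂μ := by
    rw [← mul_add, ← w4_add hμ q1 q2, ← integral_const_mul]
    refine integral_congr_ae (Eventually.of_forall fun y => ?_)
    change Lap h φ y * (2 * a y * Lap h b y + 2 * Grd h a b y) =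
      2 * (Lap h φ y * (a y * Lap h b y) + Lap h φ y * Grd h a b y)
    ring
  have r2 : ∫ y, φ y * (2 * a y * Lap h b y + 2 * Grd h a b y) ∂μ =
      2 * ∫ y, φ y * (a y * Lap h b y) ∂μ + 2 * ∫ y, φ y * Grd h a b y ∂μ := by
    rw [← mul_add, ← w4_add hμ q4 q5, ← integral_const_mul]
    refine integral_congr_ae (Eventually.of_forall fun y => ?_)
    change φ y * (2 * a y * Lap h b y + 2 * Grd h a b y) =
      2 * (φ y * (a y * Lap h b y) + φ y * Grd h a b y)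
    ring
  simp only [key]
  rw [w4_sub hμ (sm_add (sm_add (sm_sub (sm_sub (sm_sub s1 s2) s3) s4) s5) s6) s7,
    w4_add hμ (sm_add (sm_sub (sm_sub (sm_sub s1 s2) s3) s4) s5) s6,
    w4_add hμ (sm_sub (sm_sub (sm_sub s1 s2) s3) s4) s5,
    w4_sub hμ (sm_sub (sm_sub s1 s2) s3) s4, w4_sub hμ (sm_sub s1 s2) s3,
    w4_sub hμ s1 s2, integral_const_mul, i2, i3, i4, i5, i6, i7, j2, j3, j4, j6, j7, r1, r2]
  ring

end Pool.Agent.Lib.MP_df705a_gt.Coll.T
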