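import Pool.Agent.Lib.MP_df705a_gt.Coll.T.W3
import Pool.Agent.Lib.MP_df705a_gt.Coll.T.W4

/-!
# Module T, W5: the weak identity
-/

open scoped Manifold ContDiff Topology
open Set Bundle Module Filter MeasureTheory

noncomputable section

set_option linter.unusedSectionVars false

namespace Pool.Agent.Lib.MP_df705a_gt.Coll.T

open Pool.Agent.Lib.MP_df705a_gt.Twist Pool.Agent.Lib.MP_df705a_gt.Perm
open Pool.Agent.Lib.MP_df705a_gt.Circ (cf Para)

variable {E : Type*} [NormedAddCommGroup E] [NormedSpace ℝ E] [FiniteDimensional ℝ E]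
  {M : Type*} [TopologicalSpace M] [ChartedSpace E M] [IsManifold 𝓘(ℝ, E) ∞ M]
  [MeasurableSpace E] [BorelSpace E] [MeasurableSpace M] [BorelSpace M]
  [CompactSpace M] [T2Space M]
  {h : Met E M} {μ : Measure M}
  {lam : ℝ}
  {K : M → Matrix (Fin (finrank ℝ E)) (Fin (finrank ℝ E)) ℝ}
  {ι κ : Type} [Fintype ι] [Fintype κ] {s : ι → ℝ} {w : ι → M → ℝ} {a b : κ → M → ℝ}

/-- `Ten.add`, `Ten.sum`, `Ten.smul`, `ten_dd`, `ten_hs`. -/
theorem ten_K (h : Met E M) (hw : ∀ i, Sm E (w i)) (ha : ∀ j, Sm E (a j)) (hb : ∀ j, Sm E (b j))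
    (hK : ∀ y, K y = ∑ i, s i • dd E (w i) (w i) y +
      ∑ j, ((2 * a j y) • hs h (b j) y + (2 : ℝ) • dd E (a j) (b j) y)) : Ten E K := by
  have h0 : K = fun y => ∑ i, s i • dd E (w i) (w i) y +
      ∑ j, ((2 * a j y) • hs h (b j) y + (2 : ℝ) • dd E (a j) (b j) y) := funext hK
  rw [h0]
  refine Ten.add (Ten.sum _ fun i _ => ?_) (Ten.sum _ fun j _ => ?_)
  · exact Ten.smul (ten_dd (hw i) (hw i)) (f := fun _ => s i) (sm_const (s i))
  · exact Ten.add (Ten.smul (ten_hs h (hb j)) (f := fun y => 2 * a j y) (sm_smul (ha j) 2))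
      (Ten.smul (ten_dd (ha j) (hb j)) (f := fun _ => 2) (sm_const 2))

private theorem W5_lin {F : ι → M → ℝ} {G : κ → M → ℝ} (hF : ∀ i, Integrable (F i) μ)
    (hG : ∀ j, Integrable (G j) μ) (s : ι → ℝ) :
    ∫ y, (∑ i, s i * F i y + ∑ j, G j y) ∂μ = ∑ i, s i * ∫ y, F i y ∂μ + ∑ j, ∫ y, G j y ∂μ := by
  rw [integral_add (integrable_finsetSum _ fun i _ => (hF i).const_mul _)
    (integrable_finsetSum _ fun j _ => hG j), integral_finsetSum _ fun i _ => (hF i).const_mul _,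
    integral_finsetSum _ fun j _ => hG j]
  congr 1
  exact Finset.sum_congr rfl fun i _ => integral_const_mul _ _

/-- `weak_dd`, `weak_lie`, `trM_hs`, `trM_dd` and linearity; `∫ φ ∑ s DS(w) = c ∫ φ = 0`. -/
theorem weak_K (hμ : IsRVol h μ)
    (hE : ∀ y, ric (coeff h y) (extChartAt 𝓘(ℝ, E) y y) = lam • cof h y)
    (hw : ∀ i, Sm E (w i)) (ha : ∀ j, Sm E (a j)) (hb : ∀ j, Sm E (b j))
    (hK : ∀ y, K y = ∑ i, s i • dd E (w i) (w i) y +
      ∑ j, ((2 * a j y) • hs h (b j) y + (2 : ℝ) • dd E (a j) (b j) y))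
    {c : ℝ} (hc : ∀ y, ∑ i, s i * DS h (w i) y = c) {φ : M → ℝ} (hφ : Sm E φ)
    (h0 : ∫ y, φ y ∂μ = 0) :
    ∫ y, ipM (cof h y) (K y) (hs h φ y) ∂μ = ∫ y, Lap h φ y * trM (cof h y) (K y) ∂μ +
      lam * ∫ y, φ y * trM (cof h y) (K y) ∂μ := by
  have hipK : ∀ y, ipM (cof h y) (K y) (hs h φ y) =
      ∑ i, s i * ipM (cof h y) (dd E (w i) (w i) y) (hs h φ y) +
      ∑ j, ipM (cof h y) ((2 * a j y) • hs h (b j) y + (2 : ℝ) • dd E (a j) (b j) y)
        (hs h φ y) := by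
    intro y
    rw [hK y, ipM_add_left, ipM_sum_left, ipM_sum_left]
    congr 1
    exact Finset.sum_congr rfl fun i _ => ipM_smul_left _ _ _
  have htrK : ∀ y, trM (cof h y) (K y) = ∑ i, s i * Grd h (w i) (w i) y +
      ∑ j, (2 * a j y * Lap h (b j) y + 2 * Grd h (a j) (b j) y) := by
    intro y
    rw [hK y, trM_add, trM_sum, trM_sum]
    congr 1
    · refine Finset.sum_congr rfl fun i _ => ?_
      rw [trM_smul, trM_dd]
    · refine Finset.sum_congr rfl fun j _ => ?_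
      rw [trM_add, trM_smul, trM_smul, trM_dd, trM_hs]
  have hφt := ten_hs h hφ
  have hg : ∀ i, Sm E (Grd h (w i) (w i)) := fun i => Circ.sm_grd h (hw i) (hw i)
  have hr : ∀ j, Sm E (fun y => 2 * a j y * Lap h (b j) y + 2 * Grd h (a j) (b j) y) := fun j =>
    sm_add (sm_mul (sm_smul (ha j) 2) (Circ.sm_lap h (hb j)))
      (sm_smul (Circ.sm_grd h (ha j) (hb j)) 2)
  have hL := Circ.sm_lap h hφ
  have hds : ∀ i, Sm E (DS h (w i)) := fun i => sm_ds (hw i) (sm_rc h (hw i) (hw i))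
  have L1 := W5_lin (μ := μ) (F := fun i y => ipM (cof h y) (dd E (w i) (w i) y) (hs h φ y))
    (G := fun j y => ipM (cof h y) ((2 * a j y) • hs h (b j) y + (2 : ℝ) • dd E (a j) (b j) y)
        (hs h φ y))
    (fun i => integrable_sm hμ (Ten.ip h (ten_dd (hw i) (hw i)) hφt))
    (fun j => integrable_sm hμ (Ten.ip h
      (Ten.add (Ten.smul (ten_hs h (hb j)) (f := fun y => 2 * a j y) (sm_smul (ha j) 2))
      (Ten.smul (ten_dd (ha j) (hb j)) (f := fun _ => 2) (sm_const 2))) hφt)) s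
  have R : ∀ ψ : M → ℝ, Sm E ψ → ∫ y, ψ y * trM (cof h y) (K y) ∂μ =
      ∑ i, s i * ∫ y, ψ y * Grd h (w i) (w i) y ∂μ +
      ∑ j, ∫ y, ψ y * (2 * a j y * Lap h (b j) y + 2 * Grd h (a j) (b j) y) ∂μ := by
    intro ψ hψ
    rw [← W5_lin (μ := μ) (F := fun i y => ψ y * Grd h (w i) (w i) y)
      (G := fun j y => ψ y * (2 * a j y * Lap h (b j) y + 2 * Grd h (a j) (b j) y))
      (fun i => integrable_sm hμ (sm_mul hψ (hg i)))
      (fun j => integrable_sm hμ (sm_mul hψ (hr j))) s]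
    refine integral_congr_ae (Eventually.of_forall fun y => ?_)
    change ψ y * trM (cof h y) (K y) = _
    rw [htrK y, mul_add, Finset.mul_sum, Finset.mul_sum]
    congr 1
    exact Finset.sum_congr rfl fun i _ => by ring
  have hA : ∑ i, s i * ∫ y, φ y * DS h (w i) y ∂μ = 0 := by
    have h1 : ∫ y, φ y * (∑ i, s i * DS h (w i) y) ∂μ = ∑ i, s i * ∫ y, φ y * DS h (w i) y ∂μ := by
      have h2 : ∀ y, φ y * (∑ i, s i * DS h (w i) y) = ∑ i, s i * (φ y * DS h (w i) y) := by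
        intro y
        rw [Finset.mul_sum]
        exact Finset.sum_congr rfl fun i _ => by ring
      simp only [h2]
      rw [integral_finsetSum _ fun i _ =>
        (integrable_sm hμ (sm_mul hφ (hds i))).const_mul _]
      exact Finset.sum_congr rfl fun i _ => integral_const_mul _ _
    rw [← h1]
    simp only [hc]
    rw [integral_mul_const, h0, zero_mul]
  simp only [hipK]
  rw [L1, R _ hL, R _ hφ]
  have e1 : ∀ i, s i * ∫ y, ipM (cof h y) (dd E (w i) (w i) y) (hs h φ y) ∂μ =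
      s i * ∫ y, φ y * DS h (w i) y ∂μ + s i * ∫ y, Lap h φ y * Grd h (w i) (w i) y ∂μ +
      lam * (s i * ∫ y, φ y * Grd h (w i) (w i) y ∂μ) := by
    intro i
    rw [weak_dd hμ hE (hw i) hφ]
    ring
  simp only [e1]
  have e2 : ∀ j, ∫ y, ipM (cof h y) ((2 * a j y) • hs h (b j) y + (2 : ℝ) • dd E (a j) (b j) y)
        (hs h φ y) ∂μ =
      ∫ y, Lap h φ y * (2 * a j y * Lap h (b j) y + 2 * Grd h (a j) (b j) y) ∂μ +
      lam * ∫ y, φ y * (2 * a j y * Lap h (b j) y + 2 * Grd h (a j) (b j) y) ∂μ := fun j =>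
    weak_lie hμ hE (ha j) (hb j) hφ
  simp only [e2]
  rw [Finset.sum_add_distrib, Finset.sum_add_distrib, Finset.sum_add_distrib, hA, ← Finset.mul_sum,
    ← Finset.mul_sum]
  ring

end Pool.Agent.Lib.MP_df705a_gt.Coll.T
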