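import Pool.Agent.Lib.MP_df705a_gt.Mg.G063
import Pool.Agent.Lib.MP_df705a_gt.Coll.T.W5

/-!
# Module T, W6: the inequality with a test function
-/

open scoped Manifold ContDiff Topology
open Set Bundle Module Filter MeasureTheory

noncomputable section

set_option linter.unusedSectionVars false

namespace Pool.Agent.Lib.MP_df705a_gt.Coll.T

open Pool.Agent.Lib.MP_df705a_gt.Twist Pool.Agent.Lib.MP_df705a_gt.Perm
open Pool.Agent.Lib.MP_df705a_gt.Circ (cf Para)

variable {E : Type*} [NormedAddCommGroup E] [NormedSpace ℝ E] [FiniteDimensional ℝ E]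
  {M : Type*} [TopologicalSpace M] [ChartedSpace E M] [IsManifold 𝓘(ℝ, E) ∞ M]
  [MeasurableSpace E] [BorelSpace E] [MeasurableSpace M] [BorelSpace M]
  [CompactSpace M] [T2Space M]
  {h : Met E M} {μ : Measure M}
  {lam : ℝ}
  {K : M → Matrix (Fin (finrank ℝ E)) (Fin (finrank ℝ E)) ℝ}

/-- `S = K - hs φ`: `∫ |S|² = ∫ |K|² - 2 ∫ ⟨K, hs φ⟩ + ∫ |hs φ|²` (`ipM_sub_self`), `int_hs_sq`,
`sq_trM_le`: `(trM K - Δφ)² ≤ n |S|²`, `0 < n`. -/
theorem dewitt_step (hd : 0 < finrank ℝ E) (hμ : IsRVol h μ)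
    (hE : ∀ y, ric (coeff h y) (extChartAt 𝓘(ℝ, E) y y) = lam • cof h y) (hK : Ten E K)
    {φ : M → ℝ} (hφ : Sm E φ)
    (hweak : ∫ y, ipM (cof h y) (K y) (hs h φ y) ∂μ = ∫ y, Lap h φ y * trM (cof h y) (K y) ∂μ +
      lam * ∫ y, φ y * trM (cof h y) (K y) ∂μ) :
    ∫ y, (trM (cof h y) (K y) ^ 2 - ipM (cof h y) (K y) (K y)) ∂μ ≤
      (1 - 1 / (finrank ℝ E : ℝ)) * ∫ y, (trM (cof h y) (K y) - Lap h φ y) ^ 2 ∂μ -
      lam * (2 * ∫ y, φ y * trM (cof h y) (K y) ∂μ + ∫ y, Grd h φ φ y ∂μ) := by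
  have : IsFiniteMeasure μ := hμ.fin
  have hn : (0 : ℝ) < finrank ℝ E := by exact_mod_cast hd
  have hH := ten_hs h hφ
  have hL : Sm E (Lap h φ) := Circ.sm_lap h hφ
  have hT : Sm E (fun y => trM (cof h y) (K y)) := Ten.tr h hK
  have hI : ∀ {f : M → ℝ}, Sm E f → Integrable f μ := fun hf => integrable_sm hμ hf
  have iKK := hI (Ten.ip h hK hK)
  have iKH := hI (Ten.ip h hK hH)
  have iHH := hI (Ten.ip h hH hH)
  have iT2 : Integrable (fun y => trM (cof h y) (K y) ^ 2) μ := by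
    have h1 : (fun y => trM (cof h y) (K y) ^ 2) =
        fun y => trM (cof h y) (K y) * trM (cof h y) (K y) := by
      funext y
      rw [pow_two]
    rw [h1]
    exact hI (sm_mul hT hT)
  have iL2 : Integrable (fun y => Lap h φ y ^ 2) μ := by
    have h1 : (fun y => Lap h φ y ^ 2) = fun y => Lap h φ y * Lap h φ y := by
      funext y
      rw [pow_two]
    rw [h1]
    exact hI (sm_mul hL hL)
  have iLT : Integrable (fun y => Lap h φ y * trM (cof h y) (K y)) μ := hI (sm_mul hL hT)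
  -- the square of the difference
  have e1 : ∫ y, (trM (cof h y) (K y) - Lap h φ y) ^ 2 ∂μ = ∫ y, trM (cof h y) (K y) ^ 2 ∂μ -
      2 * ∫ y, Lap h φ y * trM (cof h y) (K y) ∂μ + ∫ y, Lap h φ y ^ 2 ∂μ := by
    have h1 : ∀ y, (trM (cof h y) (K y) - Lap h φ y) ^ 2 = trM (cof h y) (K y) ^ 2 -
        2 * (Lap h φ y * trM (cof h y) (K y)) + Lap h φ y ^ 2 := by
      intro y
      ring
    have i1 : Integrable (fun y => trM (cof h y) (K y) ^ 2 -
        2 * (Lap h φ y * trM (cof h y) (K y))) μ := iT2.sub (iLT.const_mul 2)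
    simp only [h1]
    rw [integral_add i1 iL2, integral_sub iT2 (iLT.const_mul 2), integral_const_mul]
  have e2 : ∫ y, ipM (cof h y) (K y - hs h φ y) (K y - hs h φ y) ∂μ =
      ∫ y, ipM (cof h y) (K y) (K y) ∂μ - 2 * ∫ y, ipM (cof h y) (K y) (hs h φ y) ∂μ +
        ∫ y, ipM (cof h y) (hs h φ y) (hs h φ y) ∂μ := by
    have h1 : ∀ y, ipM (cof h y) (K y - hs h φ y) (K y - hs h φ y) =
        ipM (cof h y) (K y) (K y) - 2 * ipM (cof h y) (K y) (hs h φ y) +
          ipM (cof h y) (hs h φ y) (hs h φ y) := fun y =>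
      ipM_sub_self (cof_symm h y) _ _
    have i1 : Integrable (fun y => ipM (cof h y) (K y) (K y) -
        2 * ipM (cof h y) (K y) (hs h φ y)) μ := iKK.sub (iKH.const_mul 2)
    simp only [h1]
    rw [integral_add i1 iHH, integral_sub iKK (iKH.const_mul 2), integral_const_mul]
  have e3 : ∫ y, (trM (cof h y) (K y) - Lap h φ y) ^ 2 ∂μ ≤
      (finrank ℝ E : ℝ) * ∫ y, ipM (cof h y) (K y - hs h φ y) (K y - hs h φ y) ∂μ := by
    have hD : Sm E (fun y => trM (cof h y) (K y) - Lap h φ y) := sm_sub hT hL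
    have i1 : Integrable (fun y => (trM (cof h y) (K y) - Lap h φ y) ^ 2) μ := by
      have h1 : (fun y => (trM (cof h y) (K y) - Lap h φ y) ^ 2) = fun y =>
          (trM (cof h y) (K y) - Lap h φ y) * (trM (cof h y) (K y) - Lap h φ y) := by
        funext y
        rw [pow_two]
      rw [h1]
      exact hI (sm_mul hD hD)
    have i2 : Integrable (fun y => ipM (cof h y) (K y - hs h φ y) (K y - hs h φ y)) μ := by
      have h1 : (fun y => ipM (cof h y) (K y - hs h φ y) (K y - hs h φ y)) = fun y =>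
          ipM (cof h y) (K y) (K y) - 2 * ipM (cof h y) (K y) (hs h φ y) +
            ipM (cof h y) (hs h φ y) (hs h φ y) := by
        funext y
        exact ipM_sub_self (cof_symm h y) _ _
      rw [h1]
      exact (iKK.sub (iKH.const_mul 2)).add iHH
    rw [← integral_const_mul]
    refine integral_mono i1 (i2.const_mul _) fun y => ?_
    have h1 := sq_trM_le (cof_posDef h y) (K y - hs h φ y)
    rw [trM_sub, trM_hs] at h1
    exact h1
  have e4 : ∫ y, (trM (cof h y) (K y) ^ 2 - ipM (cof h y) (K y) (K y)) ∂μ =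
      ∫ y, trM (cof h y) (K y) ^ 2 ∂μ - ∫ y, ipM (cof h y) (K y) (K y) ∂μ :=
    integral_sub iT2 iKK
  have e5 := int_hs_sq hμ hE hφ
  have e6 : 1 / (finrank ℝ E : ℝ) * ∫ y, (trM (cof h y) (K y) - Lap h φ y) ^ 2 ∂μ ≤
      ∫ y, ipM (cof h y) (K y - hs h φ y) (K y - hs h φ y) ∂μ := by
    rw [one_div, inv_mul_le_iff₀ hn]
    exact e3
  rw [e4]
  rw [e2, hweak, e5] at e6
  have e7 : (1 - 1 / (finrank ℝ E : ℝ)) * ∫ y, (trM (cof h y) (K y) - Lap h φ y) ^ 2 ∂μ =
      ∫ y, (trM (cof h y) (K y) - Lap h φ y) ^ 2 ∂μ -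
      1 / (finrank ℝ E : ℝ) * ∫ y, (trM (cof h y) (K y) - Lap h φ y) ^ 2 ∂μ := by
    ring
  rw [e7]
  have e8 := e1
  linarith

end Pool.Agent.Lib.MP_df705a_gt.Coll.T
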